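import Pool.Agent.Helper96.CT.Stmts2

/-! Row DG: degenerate graphs. -/

set_option autoImplicit false

namespace Pool.Agent.Helper17.CT

open SimpleGraph

theorem st_DG : Pool.Agent.Helper96.CT.ST_DG := by
  classical
  intro V _ F d hd h
  have key : ∀ (N : ℕ) (H : Finset V), H.card = N →
      ∃ c : V → Fin d, ∀ u ∈ H, ∀ w ∈ H, F.Adj u w → c u ≠ c w := by
    intro N
    induction N with
    | zero =>
      intro H hH
      rw [Finset.card_eq_zero] at hH
      subst hH
      exact ⟨fun _ => ⟨0, hd⟩, fun u hu => absurd hu (Finset.notMem_empty u)⟩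
    | succ N ih =>
      intro H hH
      have hne : H.Nonempty := by
        rw [← Finset.card_pos]
        omega
      have h1 := h H hne
      unfold Pool.Agent.Helper96.CT.MD at h1
      push_neg at h1
      obtain ⟨v, hv, h2⟩ := h1
      have h3 : (H.filter fun x => F.Adj v x).card < d :=
        h2 _ (Finset.filter_subset _ _) fun x hx => (Finset.mem_filter.1 hx).2
      obtain ⟨c, hc⟩ := ih (H.erase v) (by rw [Finset.card_erase_of_mem hv, hH]; rfl)
      have h4 : ∃ k : Fin d, k ∉ (H.filter fun x => F.Adj v x).image c := by
        by_contra hcon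
        push_neg at hcon
        have h5 : (Finset.univ : Finset (Fin d)) ⊆ (H.filter fun x => F.Adj v x).image c :=
          fun k _ => hcon k
        have h6 := (Finset.card_le_card h5).trans Finset.card_image_le
        rw [Finset.card_univ, Fintype.card_fin] at h6
        omega
      obtain ⟨k, hk⟩ := h4
      have hk' : ∀ w ∈ H, F.Adj v w → c w ≠ k := by
        intro w hw hvw he
        exact hk (Finset.mem_image.2 ⟨w, Finset.mem_filter.2 ⟨hw, hvw⟩, he⟩)
      refine ⟨Function.update c v k, fun u hu w hw huw => ?_⟩
      by_cases e1 : u = v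
      · subst e1
        have e2 : w ≠ u := huw.ne'
        rw [Function.update_self, Function.update_of_ne e2]
        exact (hk' w hw huw).symm
      · rw [Function.update_of_ne e1]
        by_cases e2 : w = v
        · subst e2
          rw [Function.update_self]
          exact hk' u hu huw.symm
        · rw [Function.update_of_ne e2]
          exact hc u (Finset.mem_erase.2 ⟨e1, hu⟩) w (Finset.mem_erase.2 ⟨e2, hw⟩) huw
  obtain ⟨c, hc⟩ := key _ Finset.univ rfl
  exact ⟨Coloring.mk c fun {u w} huw => hc u (Finset.mem_univ u) w (Finset.mem_univ w) huw⟩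

end Pool.Agent.Helper17.CT
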