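import Pool.Agent.Helper86.CT.KerT
import Pool.Agent.Helper90.C75.MdlT
import Pool.Agent.Helper17.C75.Kp8

/-!
Row KPT of MP_c75db0 (tails), part 1: trees with leaf relations, bilinear products with scale.
-/

set_option autoImplicit false
noncomputable section
namespace Pool.Agent.Helper17.KPT

open Pool.Agent.Helper86.CT (N3 bi un Bil nxB muN fa fc fb)
open Pool.Agent.Helper90.C75 (Vt mulT)

section trees

variable {α β γ : Type} {L A : Type} {D : ℕ}

/-- the controls of a level -/
def ct (x : N3 α) : Fin 3 → α :=
  match x with
  | .k x => fun _ => x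
  | .q a c b => ![a, c, b]

theorem ct_bi (f : α → β → γ) (x : N3 α) (y : N3 β) (i : Fin 3) :
    ct (bi f x y) i = f (ct x i) (ct y i) := by
  cases x <;> cases y <;> fin_cases i <;> rfl

theorem ct_un (f : α → β) (x : N3 α) (i : Fin 3) : ct (un f x) i = f (ct x i) := by
  cases x <;> fin_cases i <;> rfl

theorem fa_ct (x : N3 α) : fa x = ct x 0 := by cases x <;> rfl
theorem fc_ct (x : N3 α) : fc x = ct x 1 := by cases x <;> rfl
theorem fb_ct (x : N3 α) : fb x = ct x 2 := by cases x <;> rfl

/-- leaves of a level -/
def lf3 (l : α → Vt D → L) : N3 α → Vt (D + 1) → L := fun x v => l (ct x v.2) v.1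

/-- leafwise relation -/
def RT (l : α → Vt D → L) (R : L → A → Prop) (x : α) (I : Vt D → A) : Prop := ∀ v, R (l x v) (I v)

theorem RT.slice {l : α → Vt D → L} {R : L → A → Prop} {x : N3 α} {I : Vt (D + 1) → A}
    (h : RT (lf3 l) R x I) (i : Fin 3) : RT l R (ct x i) (fun u => I (u, i)) := fun u => h (u, i)

theorem RT.of_slice {l : α → Vt D → L} {R : L → A → Prop} {x : N3 α} {I : Vt (D + 1) → A}
    (h : ∀ i, RT l R (ct x i) (fun u => I (u, i))) : RT (lf3 l) R x I := fun v => h v.2 v.1

/-- the shape of a tree: `true` = quadratic, outermost level first -/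
def sh3 (S : α → List Bool → Prop) : N3 α → List Bool → Prop
  | .k x, false :: l => S x l
  | .q a c b, true :: l => S a l ∧ S c l ∧ S b l
  | _, _ => False

theorem sh3.ct {S : α → List Bool → Prop} {x : N3 α} {b : Bool} {l : List Bool}
    (h : sh3 S x (b :: l)) (i : Fin 3) : S (ct x i) l := by
  cases x with
  | k x => cases b with
    | false => exact h
    | true => exact h.elim
  | q a c d => cases b with
    | false => exact h.elim
    | true =>
      obtain ⟨h1, h2, h3⟩ := h
      fin_cases i
      · exact h1
      · exact h2
      · exact h3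

def or2 (l l' : List Bool) : List Bool := List.zipWith or l l'
def and2 (l l' : List Bool) : List Bool := List.zipWith and l l'

theorem sh3.bi {S : α → List Bool → Prop} {S' : β → List Bool → Prop} {S'' : γ → List Bool → Prop}
    {f : α → β → γ} (hf : ∀ {x y l l'}, S x l → S' y l' → S'' (f x y) (or2 l l')) {x : N3 α}
    {y : N3 β} {l l' : List Bool} (hx : sh3 S x l) (hy : sh3 S' y l') :
    sh3 S'' (Helper86.CT.bi f x y) (or2 l l') := by
  cases l with
  | nil => cases x <;> exact hx.elim
  | cons b l => cases l' with
    | nil => cases y <;> exact hy.elim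
    | cons b' l' =>
      cases x with
      | k x => cases b with
        | true => exact hx.elim
        | false => cases y with
          | k y => cases b' with
            | true => exact hy.elim
            | false => exact hf hx hy
          | q a c d => cases b' with
            | false => exact hy.elim
            | true => exact ⟨hf hx hy.1, hf hx hy.2.1, hf hx hy.2.2⟩
      | q p r s => cases b with
        | false => exact hx.elim
        | true => cases y with
          | k y => cases b' with
            | true => exact hy.elim
            | false => exact ⟨hf hx.1 hy, hf hx.2.1 hy, hf hx.2.2 hy⟩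
          | q a c d => cases b' with
            | false => exact hy.elim
            | true => exact ⟨hf hx.1 hy.1, hf hx.2.1 hy.2.1, hf hx.2.2 hy.2.2⟩

theorem or2_self (l : List Bool) : or2 l l = l := by
  induction l with
  | nil => rfl
  | cons b l ih =>
    show (b || b) :: or2 l l = b :: l
    rw [ih, Bool.or_self]

theorem sh3.bi' {S : α → List Bool → Prop} {f : α → α → α}
    (hf : ∀ {x y l}, S x l → S y l → S (f x y) l) {x y : N3 α} {l : List Bool}
    (hx : sh3 S x l) (hy : sh3 S y l) : sh3 S (Helper86.CT.bi f x y) l := by
  cases l with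
  | nil => cases x <;> exact hx.elim
  | cons b l =>
    cases x with
    | k x => cases b with
      | true => exact hx.elim
      | false => cases y with
        | k y => exact hf hx hy
        | q a c d => exact hy.elim
    | q p r s => cases b with
      | false => exact hx.elim
      | true => cases y with
        | k y => exact hy.elim
        | q a c d => exact ⟨hf hx.1 hy.1, hf hx.2.1 hy.2.1, hf hx.2.2 hy.2.2⟩

theorem sh3.un {S : α → List Bool → Prop} {S' : β → List Bool → Prop} {f : α → β}
    (hf : ∀ {x l}, S x l → S' (f x) l) {x : N3 α} {l : List Bool} (hx : sh3 S x l) :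
    sh3 S' (Helper86.CT.un f x) l := by
  cases l with
  | nil => cases x <;> exact hx.elim
  | cons b l =>
    cases x with
    | k x => cases b with
      | true => exact hx.elim
      | false => exact hf hx
    | q p r s => cases b with
      | false => exact hx.elim
      | true => exact ⟨hf hx.1, hf hx.2.1, hf hx.2.2⟩

end trees

/-! ### products with scale -/

section prod

variable {A B C : Type} [AddCommGroup A] [AddCommGroup B] [AddCommGroup C]

/-- the product of control values, times `4` in the directions of `m` -/
def mulZ (μ : A → B → C) : (D : ℕ) → List Bool → (Vt D → A) → (Vt D → B) → Vt D → C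
  | 0, _, I, J => fun v => μ (I v) (J v)
  | D + 1, true :: m, I, J => fun v =>
    if v.2 = 1 then (4 : ℤ) • mulZ μ D m (fun u => I (u, 1)) (fun u => J (u, 1)) v.1
      - mulZ μ D m (fun u => I (u, 2) - I (u, 0)) (fun u => J (u, 2) - J (u, 0)) v.1
    else (4 : ℤ) • mulZ μ D m (fun u => I (u, v.2)) (fun u => J (u, v.2)) v.1
  | D + 1, false :: m, I, J => fun v => mulZ μ D m (fun u => I (u, v.2)) (fun u => J (u, v.2)) v.1
  | D + 1, [], I, J => fun v => mulZ μ D [] (fun u => I (u, v.2)) (fun u => J (u, v.2)) v.1

/-- the laws of a level of products -/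
structure BL {α β γ : Type} {La Lb Lc : Type} (D : ℕ) (la : α → Vt D → La) (lb : β → Vt D → Lb)
    (lc : γ → Vt D → Lc) (Ra : La → A → Prop) (Rb : Lb → B → Prop) (Rc : Lc → C → Prop)
    (Sa : α → List Bool → Prop) (Sb : β → List Bool → Prop) (Sc : γ → List Bool → Prop)
    (μ : A → B → C) (P : Bil α β γ) : Prop where
  sa : ∀ {x y : α} {I J : Vt D → A}, RT la Ra x I → RT la Ra y J →
    RT la Ra (P.sa x y) (fun v => I v - J v)
  sas : ∀ {x y : α} {l : List Bool}, Sa x l → Sa y l → Sa (P.sa x y) l
  sb : ∀ {x y : β} {I J : Vt D → B}, RT lb Rb x I → RT lb Rb y J →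
    RT lb Rb (P.sb x y) (fun v => I v - J v)
  sbs : ∀ {x y : β} {l : List Bool}, Sb x l → Sb y l → Sb (P.sb x y) l
  sg : ∀ {x y : γ} {I J : Vt D → C}, RT lc Rc x I → RT lc Rc y J →
    RT lc Rc (P.sg x y) (fun v => I v - J v)
  sgs : ∀ {x y : γ} {l : List Bool}, Sc x l → Sc y l → Sc (P.sg x y) l
  m4 : ∀ {x : γ} {I : Vt D → C}, RT lc Rc x I → RT lc Rc (P.m4 x) (fun v => (4 : ℤ) • I v)
  m4s : ∀ {x : γ} {l : List Bool}, Sc x l → Sc (P.m4 x) l
  mu : ∀ {x : α} {y : β} {l l' : List Bool} {I : Vt D → A} {J : Vt D → B}, Sa x l → Sb y l' →
    RT la Ra x I → RT lb Rb y J → RT lc Rc (P.mu x y) (mulZ μ D (and2 l l') I J)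
  mus : ∀ {x : α} {y : β} {l l' : List Bool}, Sa x l → Sb y l' → Sc (P.mu x y) (or2 l l')

theorem muN_ct {α β γ : Type} (P : Bil α β γ) {Sa : α → List Bool → Prop}
    {Sb : β → List Bool → Prop} {x : N3 α} {y : N3 β} {b b' : Bool} {l l' : List Bool}
    (hx : sh3 Sa x (b :: l)) (hy : sh3 Sb y (b' :: l')) (h : (b && b') = false) (i : Fin 3) :
    ct (muN P x y) i = P.mu (ct x i) (ct y i) := by
  cases x with
  | k x => cases y <;> fin_cases i <;> rfl
  | q a c d => cases y with
    | k y => fin_cases i <;> rfl
    | q a' c' d' =>
      cases b with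
      | false => exact hx.elim
      | true => cases b' with
        | false => exact hy.elim
        | true => exact absurd h (by decide)

/-- THE STEP -/
theorem BL.step {α β γ : Type} {La Lb Lc : Type} {D : ℕ} {la : α → Vt D → La}
    {lb : β → Vt D → Lb} {lc : γ → Vt D → Lc} {Ra : La → A → Prop} {Rb : Lb → B → Prop}
    {Rc : Lc → C → Prop} {Sa : α → List Bool → Prop} {Sb : β → List Bool → Prop}
    {Sc : γ → List Bool → Prop} {μ : A → B → C} {P : Bil α β γ}
    (h : BL D la lb lc Ra Rb Rc Sa Sb Sc μ P) :
    BL (D + 1) (lf3 la) (lf3 lb) (lf3 lc) Ra Rb Rc (sh3 Sa) (sh3 Sb) (sh3 Sc) μ (nxB P) := by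
  have gsa : ∀ {x y : N3 α} {I J : Vt (D + 1) → A}, RT (lf3 la) Ra x I → RT (lf3 la) Ra y J →
      RT (lf3 la) Ra ((nxB P).sa x y) (fun v => I v - J v) := by
    intro x y I J hx hy
    refine RT.of_slice fun i => ?_
    show RT la Ra (ct (bi P.sa x y) i) _
    rw [ct_bi]
    exact h.sa (hx.slice i) (hy.slice i)
  have gsb : ∀ {x y : N3 β} {I J : Vt (D + 1) → B}, RT (lf3 lb) Rb x I → RT (lf3 lb) Rb y J →
      RT (lf3 lb) Rb ((nxB P).sb x y) (fun v => I v - J v) := by
    intro x y I J hx hy
    refine RT.of_slice fun i => ?_
    show RT lb Rb (ct (bi P.sb x y) i) _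
    rw [ct_bi]
    exact h.sb (hx.slice i) (hy.slice i)
  have gsg : ∀ {x y : N3 γ} {I J : Vt (D + 1) → C}, RT (lf3 lc) Rc x I → RT (lf3 lc) Rc y J →
      RT (lf3 lc) Rc ((nxB P).sg x y) (fun v => I v - J v) := by
    intro x y I J hx hy
    refine RT.of_slice fun i => ?_
    show RT lc Rc (ct (bi P.sg x y) i) _
    rw [ct_bi]
    exact h.sg (hx.slice i) (hy.slice i)
  have gm4 : ∀ {x : N3 γ} {l : List Bool}, sh3 Sc x l → sh3 Sc ((nxB P).m4 x) l := by
    intro x l hx
    exact sh3.un (S := Sc) (S' := Sc) (f := P.m4) (fun {x l} hx => h.m4s hx) hx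
  refine ⟨gsa, fun hx hy => sh3.bi' h.sas hx hy, gsb, fun hx hy => sh3.bi' h.sbs hx hy, gsg,
    fun hx hy => sh3.bi' h.sgs hx hy, ?_, gm4, ?_, ?_⟩
  · intro x I hx
    refine RT.of_slice fun i => ?_
    show RT lc Rc (ct (un P.m4 x) i) _
    rw [ct_un]
    exact h.m4 (hx.slice i)
  · intro x y l l' I J sx sy hx hy
    cases l with
    | nil => cases x <;> exact sx.elim
    | cons b l => cases l' with
      | nil => cases y <;> exact sy.elim
      | cons b' l' =>
        by_cases hb : (b && b') = true
        · -- both quadratic
          have hb1 : b = true := by revert hb; cases b <;> cases b' <;> decide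
          have hb2 : b' = true := by revert hb; cases b <;> cases b' <;> decide
          subst hb1 hb2
          cases x with
          | k x => exact sx.elim
          | q a c d => cases y with
            | k y => exact sy.elim
            | q a' c' d' =>
              obtain ⟨s1, s2, s3⟩ := sx
              obtain ⟨t1, t2, t3⟩ := sy
              have x0 := hx.slice 0
              have x1 := hx.slice 1
              have x2 := hx.slice 2
              have y0 := hy.slice 0
              have y1 := hy.slice 1
              have y2 := hy.slice 2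
              refine RT.of_slice fun i => ?_
              fin_cases i
              · have := h.m4 (h.mu s1 t1 x0 y0)
                exact this
              · have e1 := h.m4 (h.mu s2 t2 x1 y1)
                have e2 := h.mu (h.sas s3 s1) (h.sbs t3 t1) (h.sa x2 x0) (h.sb y2 y0)
                exact h.sg e1 e2
              · have := h.m4 (h.mu s3 t3 x2 y2)
                exact this
        · have hb' : (b && b') = false := by
            revert hb; cases b <;> cases b' <;> decide
          have e : and2 (b :: l) (b' :: l') = false :: and2 l l' := by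
            show (b && b') :: and2 l l' = _
            rw [hb']
          rw [e]
          refine RT.of_slice fun i => ?_
          show RT lc Rc (ct (muN P x y) i) _
          rw [muN_ct P sx sy hb']
          exact h.mu (sx.ct i) (sy.ct i) (hx.slice i) (hy.slice i)
  · intro x y l l' sx sy
    cases l with
    | nil => cases x <;> exact sx.elim
    | cons b l => cases l' with
      | nil => cases y <;> exact sy.elim
      | cons b' l' =>
        cases x with
        | k x => cases b with
          | true => exact sx.elim
          | false => cases y with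
            | k y => cases b' with
              | true => exact sy.elim
              | false => exact h.mus sx sy
            | q a c d => cases b' with
              | false => exact sy.elim
              | true => exact ⟨h.mus sx sy.1, h.mus sx sy.2.1, h.mus sx sy.2.2⟩
        | q p r s => cases b with
          | false => exact sx.elim
          | true => cases y with
            | k y => cases b' with
              | true => exact sy.elim
              | false => exact ⟨h.mus sx.1 sy, h.mus sx.2.1 sy, h.mus sx.2.2 sy⟩
            | q a c d => cases b' with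
              | false => exact sy.elim
              | true =>
                obtain ⟨s1, s2, s3⟩ := sx
                obtain ⟨t1, t2, t3⟩ := sy
                refine ⟨h.m4s (h.mus s1 t1), h.sgs (h.m4s (h.mus s2 t2)) ?_, h.m4s (h.mus s3 t3)⟩
                exact h.mus (h.sas s3 s1) (h.sbs t3 t1)

end prod

end Pool.Agent.Helper17.KPT
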