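import Pool.Agent.Helper17.CT.KPT9

/-!
Row KPT of MP_c75db0 (tails), part 10: the leaf sums in terms of the rows of the run matrix.
-/

set_option autoImplicit false
set_option exponentiation.threshold 4000
noncomputable section
namespace Pool.Agent.Helper17.KPT

open Pool.Agent.Helper86.C75 (Z)
open Pool.Agent.Helper86.CX (Hm P9 VR MM NG md psub ev andB Cx toM u32 kf psd SE mkH)
open Pool.Agent.Helper86.CT
open Pool.Agent.Helper90.C75 (Vt mulT avg wtT bt Wts sum_Vt_succ)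
open Pool.Agent.Helper90.KMO (zv cz UU UU_pos)
open Pool.Agent.Helper90.KMT (mf0 nmf sgv KTab nlf lf0 c3 KMK PT mkIF Ph low_ok mulT_add_left
  mulT_smul_left mulT_smul_right mulT_comm mulT_zero_left Nc Np yF)
open Pool.Agent.Helper17.PAK
open Complex ComplexConjugate

/-! ### the real product of controls -/

/-- `mulT` on real functions -/
def mulR : (D : ℕ) → (Vt D → ℝ) → (Vt D → ℝ) → Vt D → ℝ
  | 0, F, G => fun v => F v * G v
  | D + 1, F, G => fun v =>
    if v.2 = 1 then mulR D (fun u => F (u, 1)) (fun u => G (u, 1)) v.1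
      - mulR D (fun u => F (u, 2) - F (u, 0)) (fun u => G (u, 2) - G (u, 0)) v.1 / 4
    else mulR D (fun u => F (u, v.2)) (fun u => G (u, v.2)) v.1

theorem mulT_ofReal : ∀ (D : ℕ) (F G : Vt D → ℝ),
    mulT D (fun u => (F u : ℂ)) (fun u => (G u : ℂ)) = fun v => ((mulR D F G v : ℝ) : ℂ)
  | 0, F, G => by
    funext v
    simp only [mulT, mulR]
    push_cast
    rfl
  | D + 1, F, G => by
    funext v
    simp only [mulT, mulR]
    by_cases h : v.2 = 1
    · rw [if_pos h, if_pos h]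
      have e1 := congrFun (mulT_ofReal D (fun u => F (u, 1)) (fun u => G (u, 1))) v.1
      have e2 := congrFun (mulT_ofReal D (fun u => F (u, 2) - F (u, 0))
        (fun u => G (u, 2) - G (u, 0))) v.1
      push_cast at e1 e2 ⊢
      rw [e1, e2]
    · rw [if_neg h, if_neg h]
      exact congrFun (mulT_ofReal D (fun u => F (u, v.2)) (fun u => G (u, v.2))) v.1

theorem mulT_sum_left {ι : Type} (s : Finset ι) (D : ℕ) (F : ι → Vt D → ℂ) (G : Vt D → ℂ) :
    mulT D (fun u => ∑ a ∈ s, F a u) G = fun v => ∑ a ∈ s, mulT D (F a) G v := by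
  classical
  induction s using Finset.induction_on with
  | empty =>
    simp only [Finset.sum_empty]
    exact mulT_zero_left D G
  | insert a s ha ih =>
    simp only [Finset.sum_insert ha]
    rw [mulT_add_left D (F a) (fun u => ∑ a ∈ s, F a u) G, ih]

theorem mulT_sum_right {ι : Type} (s : Finset ι) (D : ℕ) (F : Vt D → ℂ) (G : ι → Vt D → ℂ) :
    mulT D F (fun u => ∑ a ∈ s, G a u) = fun v => ∑ a ∈ s, mulT D F (G a) v := by
  rw [mulT_comm, mulT_sum_left]
  funext v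
  refine Finset.sum_congr rfl fun a _ => ?_
  rw [mulT_comm]

/-- the average of a triple product -/
def T3 (D : ℕ) (t : ℕ → ℝ) (p x y : Vt D → ℝ) : ℝ := ∑ u, wtT D t u * mulR D p (mulR D x y) u

theorem avg_T3 (D : ℕ) (t : ℕ → ℝ) (p x y : Vt D → ℝ) :
    avg (wtT D t) (mulT D (fun u => (p u : ℂ)) (mulT D (fun u => (x u : ℂ))
      (fun u => (y u : ℂ)))) = (T3 D t p x y : ℂ) := by
  rw [mulT_ofReal, mulT_ofReal]
  unfold avg T3
  push_cast
  rfl

theorem avg_sum {D : ℕ} {ι : Type} (s : Finset ι) (w : Vt D → ℝ) (F : ι → Vt D → ℂ) :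
    avg w (fun u => ∑ a ∈ s, F a u) = ∑ a ∈ s, avg w (F a) := by
  unfold avg
  simp only [Finset.mul_sum]
  rw [Finset.sum_comm]

theorem avg_mulc {D : ℕ} (w : Vt D → ℝ) (c : ℂ) (F : Vt D → ℂ) :
    avg w (fun u => c * F u) = c * avg w F := by
  unfold avg
  rw [Finset.mul_sum]
  refine Finset.sum_congr rfl fun u _ => ?_
  ring

/-- expansion of a triple product of linear combinations -/
theorem comb3 {K A B : Type} [Fintype K] [Fintype A] [Fintype B] (D : ℕ) (t : ℕ → ℝ) (γ : K → ℂ)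
    (α : A → ℂ) (β : B → ℂ) (p : K → Vt D → ℝ) (x : A → Vt D → ℝ) (y : B → Vt D → ℝ) :
    avg (wtT D t) (mulT D (fun u => ∑ k, γ k * (p k u : ℂ))
      (mulT D (fun u => ∑ a, α a * (x a u : ℂ)) (fun u => ∑ b, β b * (y b u : ℂ)))) =
    ∑ k, ∑ a, ∑ b, γ k * (α a * β b) * (T3 D t (p k) (x a) (y b) : ℂ) := by
  have e1 : mulT D (fun u => ∑ a, α a * (x a u : ℂ)) (fun u => ∑ b, β b * (y b u : ℂ)) =
      fun u => ∑ a, ∑ b, (α a * β b) * mulT D (fun u => (x a u : ℂ)) (fun u => (y b u : ℂ)) u := by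
    rw [mulT_sum_left]
    funext u
    refine Finset.sum_congr rfl fun a _ => ?_
    rw [mulT_smul_left, mulT_sum_right]
    simp only [mulT_smul_right]
    rw [Finset.mul_sum]
    refine Finset.sum_congr rfl fun b _ => ?_
    ring
  rw [e1, mulT_sum_left, avg_sum]
  refine Finset.sum_congr rfl fun k _ => ?_
  rw [mulT_smul_left, avg_mulc]
  simp only [mulT_sum_right]
  rw [avg_sum, Finset.mul_sum]
  refine Finset.sum_congr rfl fun a _ => ?_
  rw [avg_sum, Finset.mul_sum]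
  refine Finset.sum_congr rfl fun b _ => ?_
  rw [mulT_smul_right, avg_mulc, avg_T3]
  ring

/-! ### the rows -/

/-- the coefficients of the rows of `B z` -/
def az (z : Fin 3 → ℂ) (i : Fin 3) : Fin 5 → ℂ :=
  (![![z 0, 2 * z 1, z 2, 0, 0], ![0, z 0, z 1, 0, -z 2], ![0, 0, 0, z 0, 0]] :
    Fin 3 → Fin 5 → ℂ) i

/-- the rows of the integer matrix -/
def yG {D : ℕ} (x : Vt D → Fin 5 → ℤ) (z : Fin 3 → ℂ) (i : Fin 3) (u : Vt D) : ℂ :=
  ∑ a, az z i a * (((x u a : ℤ) : ℝ) : ℂ)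

/-- the coefficients of the entries of a form -/
def gz (i j : Fin 3) : Fin 9 → ℂ :=
  (![![![1, 0, 0, 0, 0, 0, 0, 0, 0], ![0, 0, 0, 1, I, 0, 0, 0, 0], ![0, 0, 0, 0, 0, 1, I, 0, 0]],
    ![![0, 0, 0, 1, I, 0, 0, 0, 0], ![0, 1, 0, 0, 0, 0, 0, 0, 0], ![0, 0, 0, 0, 0, 0, 0, 1, I]],
    ![![0, 0, 0, 0, 0, 1, I, 0, 0], ![0, 0, 0, 0, 0, 0, 0, 1, I], ![0, 0, 1, 0, 0, 0, 0, 0, 0]]] :
    Fin 3 → Fin 3 → Fin 9 → ℂ) i j

/-- an entry of a form from the nine integers -/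
def pG {D : ℕ} (I : Vt D → Fin 9 → ℤ) (i j : Fin 3) (u : Vt D) : ℂ :=
  ∑ k, gz i j k * (((I u k : ℤ) : ℝ) : ℂ)

/-- the triple products of the entries -/
def T9 {D : ℕ} (t : ℕ → ℝ) (I : Vt D → Fin 9 → ℤ) (x y : Vt D → Fin 5 → ℤ) (k : Fin 9)
    (a b : Fin 5) : ℝ :=
  T3 D t (fun u => (I u k : ℝ)) (fun u => (x u a : ℝ)) (fun u => (y u b : ℝ))

/-- the coefficient of one triple product in `Nc` -/
def nk (z : Fin 3 → ℂ) (i j : Fin 3) (k : Fin 9) (a b : Fin 5) : ℝ :=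
  (gz i j k * (conj (az z i a) * az z j b + az z j a * conj (az z i b))).re

theorem Nc_T9 {D : ℕ} (t : ℕ → ℝ) (I : Vt D → Fin 9 → ℤ) (x y : Vt D → Fin 5 → ℤ)
    (z : Fin 3 → ℂ) (i j : Fin 3) :
    Nc D t (pG I i j) (yG x z i) (yG y z i) (yG x z j) (yG y z j) =
      ∑ k, ∑ a, ∑ b, nk z i j k a b * T9 t I x y k a b := by
  have e1 : ∀ (x : Vt D → Fin 5 → ℤ), (fun v => star (yG x z i v)) =
      fun u => ∑ a, conj (az z i a) * (((x u a : ℤ) : ℝ) : ℂ) := by
    intro x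
    funext u
    show star (∑ a, az z i a * (((x u a : ℤ) : ℝ) : ℂ)) = _
    rw [star_sum]
    refine Finset.sum_congr rfl fun a _ => ?_
    rw [star_mul']
    congr 1
    exact Complex.conj_ofReal _
  have h1 := comb3 D t (gz i j) (fun a => conj (az z i a)) (az z j)
    (fun k u => (I u k : ℝ)) (fun a u => (x u a : ℝ)) (fun b u => (y u b : ℝ))
  have h2 := comb3 D t (gz i j) (az z j) (fun a => conj (az z i a))
    (fun k u => (I u k : ℝ)) (fun a u => (x u a : ℝ)) (fun b u => (y u b : ℝ))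
  unfold Nc
  rw [e1 x, e1 y]
  have e2 : mulT D (fun u => ∑ a, conj (az z i a) * (((y u a : ℤ) : ℝ) : ℂ)) (yG x z j) =
      mulT D (yG x z j) (fun u => ∑ a, conj (az z i a) * (((y u a : ℤ) : ℝ) : ℂ)) :=
    mulT_comm _ _ _
  rw [e2]
  have h3 : avg (wtT D t) (mulT D (pG I i j) (mulT D (fun u => ∑ a, conj (az z i a) *
      (((x u a : ℤ) : ℝ) : ℂ)) (yG y z j))) = _ := h1
  have h4 : avg (wtT D t) (mulT D (pG I i j) (mulT D (yG x z j) (fun u => ∑ a,
      conj (az z i a) * (((y u a : ℤ) : ℝ) : ℂ)))) = _ := h2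
  rw [h3, h4, ← Finset.sum_add_distrib, Complex.re_sum]
  refine Finset.sum_congr rfl fun k _ => ?_
  rw [← Finset.sum_add_distrib, Complex.re_sum]
  refine Finset.sum_congr rfl fun a _ => ?_
  rw [← Finset.sum_add_distrib, Complex.re_sum]
  refine Finset.sum_congr rfl fun b _ => ?_
  unfold nk T9
  rw [← add_mul, ← mul_add, Complex.re_mul_ofReal]

/-- the real coefficients -/
def r5 (z : Fin 3 → ℂ) (k : Fin 9) (a b : Fin 5) : ℝ := rz z (toF (NBp (e5 a) (e5 b) (un9 k)))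

theorem c5_r5 (z : Fin 3 → ℂ) (k : Fin 9) (a b : Fin 5) : c5 z k a b = (r5 z k a b : ℂ) :=
  fz_rz _ _

theorem az_e5 (z : Fin 3 → ℂ) (a : Fin 5) :
    az z 0 a = (e5 a 0 : ℂ) * z 0 + 2 * ((e5 a 1 : ℂ) * z 1) + (e5 a 2 : ℂ) * z 2 ∧
    az z 1 a = (e5 a 1 : ℂ) * z 0 + (e5 a 2 : ℂ) * z 1 - (e5 a 4 : ℂ) * z 2 ∧
    az z 2 a = (e5 a 3 : ℂ) * z 0 := by
  fin_cases a <;> refine ⟨?_, ?_, ?_⟩ <;> simp [az, e5]

theorem nk_r5 (z : Fin 3 → ℂ) (k : Fin 9) (a b : Fin 5) :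
    nk z 0 0 k a b + nk z 1 1 k a b + nk z 2 2 k a b +
      2 * (nk z 0 1 k a b + nk z 0 2 k a b + nk z 1 2 k a b) = r5 z k a b := by
  have q0 : qz z 0 = normSq (z 0) := rfl
  have q1 : qz z 1 = normSq (z 1) := rfl
  have q2 : qz z 2 = normSq (z 2) := rfl
  have q3 : qz z 3 = 2 * (conj (z 0) * z 1).re := rfl
  have q4 : qz z 4 = -(2 * (conj (z 0) * z 1).im) := rfl
  have q5 : qz z 5 = 2 * (conj (z 0) * z 2).re := rfl
  have q6 : qz z 6 = -(2 * (conj (z 0) * z 2).im) := rfl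
  have q7 : qz z 7 = 2 * (conj (z 1) * z 2).re := rfl
  have q8 : qz z 8 = -(2 * (conj (z 1) * z 2).im) := rfl
  obtain ⟨h0, h1, h2⟩ := az_e5 z a
  obtain ⟨g0, g1, g2⟩ := az_e5 z b
  unfold r5 rz
  rw [sum9, q0, q1, q2, q3, q4, q5, q6, q7, q8]
  simp only [nk, h0, h1, h2, g0, g1, g2]
  clear h0 h1 h2 g0 g1 g2 q0 q1 q2 q3 q4 q5 q6 q7 q8
  simp only [toF, NBp, Matrix.cons_val_zero, Matrix.cons_val_one, Matrix.cons_val]
  generalize z 0 = u
  generalize z 1 = v
  generalize z 2 = w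
  generalize e5 a 0 = x0
  generalize e5 a 1 = x1
  generalize e5 a 2 = x2
  generalize e5 a 3 = x3
  generalize e5 a 4 = x4
  generalize e5 b 0 = y0
  generalize e5 b 1 = y1
  generalize e5 b 2 = y2
  generalize e5 b 3 = y3
  generalize e5 b 4 = y4
  fin_cases k <;>
  · simp [gz, un9, Complex.normSq_apply]
    try ring

/-- the leaf sum of a product with bilinear multipliers -/
theorem SN_gen {D : ℕ} (t : ℕ → ℝ) (I : Vt D → Fin 9 → ℤ) (J : Vt D → Fin 9 → Fin 9 → ℤ)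
    (x y : Vt D → Fin 5 → ℤ) (z : Fin 3 → ℂ) (c : ℝ)
    (h : ∀ k u, fz z (J u k) = c * ∑ a, ∑ b, (r5 z k a b : ℂ) *
      mulT D (fun u => (((x u a : ℤ) : ℝ) : ℂ)) (fun u => (((y u b : ℤ) : ℝ) : ℂ)) u) :
    SN D t I J z = c * ∑ k, ∑ a, ∑ b, r5 z k a b * T9 t I x y k a b := by
  have e1 : avg (wtT D t) (fun u => ∑ k, mulT D (fun u => (I u k : ℂ)) (fun u => fz z (J u k)) u) =
      ((c * ∑ k, ∑ a, ∑ b, r5 z k a b * T9 t I x y k a b : ℝ) : ℂ) := by
    rw [avg_sum]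
    push_cast
    rw [Finset.mul_sum]
    refine Finset.sum_congr rfl fun k _ => ?_
    simp only [h]
    rw [mulT_smul_right, avg_mulc]
    congr 1
    simp only [mulT_sum_right]
    rw [avg_sum]
    refine Finset.sum_congr rfl fun a _ => ?_
    rw [avg_sum]
    refine Finset.sum_congr rfl fun b _ => ?_
    rw [mulT_smul_right, avg_mulc]
    congr 1
    have h2 := avg_T3 D t (fun u => (I u k : ℝ)) (fun u => (x u a : ℝ)) (fun u => (y u b : ℝ))
    unfold T9
    rw [← h2]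
    simp only [Complex.ofReal_intCast]
  unfold SN
  rw [e1, Complex.ofReal_re]

theorem SN_add {D : ℕ} (t : ℕ → ℝ) (I : Vt D → Fin 9 → ℤ) (J J' : Vt D → Fin 9 → Fin 9 → ℤ)
    (z : Fin 3 → ℂ) : SN D t I (fun u => J u + J' u) z = SN D t I J z + SN D t I J' z := by
  unfold SN
  rw [← Complex.add_re, avg_sum, avg_sum, avg_sum, ← Finset.sum_add_distrib]
  congr 1
  refine Finset.sum_congr rfl fun k _ => ?_
  have e : (fun u => fz z ((J u + J' u) k)) = fun u => fz z (J u k) + fz z (J' u k) := by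
    funext u
    exact map_add (fz z) _ _
  rw [e, mulT_comm, mulT_add_left, mulT_comm D (fun u => fz z (J u k)),
    mulT_comm D (fun u => fz z (J' u k))]
  unfold avg
  rw [← Finset.sum_add_distrib]
  refine Finset.sum_congr rfl fun u _ => ?_
  ring

section

variable {α β p v γ : Type} {D : ℕ} {lC : α → Vt D → Cx} {lf : α → Vt D → ℂ}
  {mf : (ℕ → ℝ) → β → (ℕ → ℝ) → ℝ} {lp : p → Vt D → P9} {lv : v → Vt D → VR}
  {lg : γ → Vt D → ℕ} {Sp : p → List Bool → Prop} {Sv : v → List Bool → Prop}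
  {Sg : γ → List Bool → Prop} {M : Mc α β p v γ}

theorem re_cl (hc : CL D lC lf) (x : α) (u : Vt D) :
    (lf x u).re = (zv (lC x u).re : ℝ) ∧ (lf x u).im = (zv (lC x u).im : ℝ) := by
  rw [← hc]
  exact ⟨rfl, rfl⟩

/-- the entries of the lowered form -/
theorem mkIF_pG (hc : CL D lC lf) (P : KM α) :
    (fun u => (((mkIF lf P).a u : ℝ) : ℂ)) = pG (PI lC P) 0 0 ∧
    (fun u => (((mkIF lf P).b u : ℝ) : ℂ)) = pG (PI lC P) 1 1 ∧
    (fun u => (((mkIF lf P).c u : ℝ) : ℂ)) = pG (PI lC P) 2 2 ∧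
    (mkIF lf P).x = pG (PI lC P) 0 1 ∧ (mkIF lf P).y = pG (PI lC P) 0 2 ∧
    (mkIF lf P).w = pG (PI lC P) 1 2 := by
  have hx : ∀ x u, lf x u = ((zv (lC x u).re : ℝ) : ℂ) + ((zv (lC x u).im : ℝ) : ℂ) * I := by
    intro x u
    rw [← (re_cl hc x u).1, ← (re_cl hc x u).2]
    exact (Complex.re_add_im _).symm
  refine ⟨?_, ?_, ?_, ?_, ?_, ?_⟩
  · funext u
    simp only [pG, sum9, gz, PI, pI, mkIF, (re_cl hc _ u).1, Matrix.cons_val_zero,
      Matrix.cons_val_one, Matrix.cons_val]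
    push_cast
    ring
  · funext u
    simp only [pG, sum9, gz, PI, pI, mkIF, (re_cl hc _ u).1, Matrix.cons_val_zero,
      Matrix.cons_val_one, Matrix.cons_val]
    push_cast
    ring
  · funext u
    simp only [pG, sum9, gz, PI, pI, mkIF, (re_cl hc _ u).1, Matrix.cons_val_zero,
      Matrix.cons_val_one, Matrix.cons_val]
    push_cast
    ring
  · funext u
    simp only [pG, sum9, gz, PI, pI, mkIF, hx, Matrix.cons_val_zero,
      Matrix.cons_val_one, Matrix.cons_val]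
    ring
  · funext u
    simp only [pG, sum9, gz, PI, pI, mkIF, hx, Matrix.cons_val_zero,
      Matrix.cons_val_one, Matrix.cons_val]
    ring
  · funext u
    simp only [pG, sum9, gz, PI, pI, mkIF, hx, Matrix.cons_val_zero,
      Matrix.cons_val_one, Matrix.cons_val]
    ring

/-- `Np` in terms of the triple products -/
theorem Np_T9 (hc : CL D lC lf) (P : KM α) (t : ℕ → ℝ) (x y : Vt D → Fin 5 → ℤ)
    (z : Fin 3 → ℂ) : Np D t (mkIF lf P) (yG x z) (yG y z) =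
      ∑ k, ∑ a, ∑ b, r5 z k a b * T9 t (PI lC P) x y k a b := by
  obtain ⟨h1, h2, h3, h4, h5, h6⟩ := mkIF_pG hc P
  unfold Np
  rw [h1, h2, h3, h4, h5, h6, Nc_T9, Nc_T9, Nc_T9, Nc_T9, Nc_T9, Nc_T9]
  simp only [← nk_r5]
  simp only [Finset.mul_sum, ← Finset.sum_add_distrib]
  refine Finset.sum_congr rfl fun k _ => Finset.sum_congr rfl fun a _ =>
    Finset.sum_congr rfl fun b _ => ?_
  ring

/-- the rows of a matrix of models -/
theorem yF_yG (hc : CL D lC lf) (X : Qd α) (z : Fin 3 → ℂ) : yF lf X z = yG (qI lC X) z := by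
  have h := fun x u => (re_cl hc x u).1
  have hU : (UU : ℂ) = (((2 ^ 48 : ℤ) : ℝ) : ℂ) := by
    unfold UU
    push_cast
    norm_num
  funext i u
  unfold yG
  rw [sum5]
  fin_cases i
  · show (UU : ℂ) * z 0 + 2 * ((lf X.R.v u).re : ℂ) * z 1 + ((lf X.A.v u).re : ℂ) * z 2 = _
    rw [h, h, hU]
    simp only [az, qI, Matrix.cons_val_zero, Matrix.cons_val_one, Matrix.cons_val]
    simp only [Fin.zero_eta, Matrix.cons_val_zero, Matrix.cons_val_one, Matrix.cons_val]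
    push_cast
    ring
  · show ((lf X.R.v u).re : ℂ) * z 0 + ((lf X.A.v u).re : ℂ) * z 1 - ((lf X.T.v u).re : ℂ) * z 2 = _
    rw [h, h, h]
    simp only [az, qI, Matrix.cons_val_zero, Matrix.cons_val_one, Matrix.cons_val]
    simp only [Fin.mk_one, Matrix.cons_val_zero, Matrix.cons_val_one, Matrix.cons_val]
    push_cast
    ring
  · show ((lf X.W.v u).re : ℂ) * z 0 = _
    rw [h]
    simp only [az, qI, Matrix.cons_val_zero, Matrix.cons_val_one, Matrix.cons_val]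
    simp only [Fin.reduceFinMk, Matrix.cons_val_zero, Matrix.cons_val_one, Matrix.cons_val]
    push_cast
    ring

/-- **a tail star**: the leaf sum is `4 ^ m` times the polarised form -/
theorem SN_tail (hc : CL D lC lf) (P : KM α) {X Y : Qd α} {l l' : List Bool}
    (hX : FSh D l (qI lC X)) (hY : FSh D l' (qI lC Y)) (t : ℕ → ℝ) (z : Fin 3 → ℂ) :
    SN D t (PI lC P) (mulZ mu2 D (and2 l l') (qI lC X) (qI lC Y)) z =
      4 ^ cnt (and2 l l') * Np D t (mkIF lf P) (yF lf X z) (yF lf Y z) := by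
  rw [yF_yG hc, yF_yG hc, Np_T9 hc]
  refine SN_gen t _ _ _ _ z _ fun k u => ?_
  have h := eval_mulZ (fk_mu2 z k) hX hY u
  rw [fk_apply] at h
  rw [h, Fintype.sum_prod_type]
  push_cast
  congr 1
  refine Finset.sum_congr rfl fun a _ => Finset.sum_congr rfl fun b _ => ?_
  simp only [gf_apply, cf_apply]
  rw [mulT_smul_right, c5_r5]

/-- **a constant run** -/
theorem SN_const (hc : CL D lC lf) (P : KM α) (O R A W T : ℤ) (t : ℕ → ℝ) (z : Fin 3 → ℂ) :
    2 * SN D t (PI lC P) (fun _ k => toF (NBz O R A W T (un9 k))) z =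
      Np D t (mkIF lf P) (yG (fun _ => ![O, R, A, W, T]) z)
        (yG (fun _ => ![O, R, A, W, T]) z) := by
  rw [Np_T9 hc]
  have h1 : SN D t (PI lC P) (fun _ k => toF (NBz O R A W T (un9 k))) z = (1 / 2 : ℝ) *
      ∑ k, ∑ a, ∑ b, r5 z k a b * T9 t (PI lC P) (fun _ => ![O, R, A, W, T])
        (fun _ => ![O, R, A, W, T]) k a b := by
    refine SN_gen t _ _ _ _ z _ fun k u => ?_
    have e1 : rz z (toF (NBp ![O, R, A, W, T] ![O, R, A, W, T] (un9 k))) =
        2 * rz z (toF (NBz O R A W T (un9 k))) := by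
      rw [NBp_self]
      simp only [rz, sum9]
      simp only [toF, smulH, Matrix.cons_val_zero, Matrix.cons_val_one, Matrix.cons_val]
      push_cast
      ring
    have e2 : rz z (toF (NBp ![O, R, A, W, T] ![O, R, A, W, T] (un9 k))) =
        ∑ a, ∑ b, r5 z k a b * (((![O, R, A, W, T] : Fin 5 → ℤ) a : ℝ) *
          ((![O, R, A, W, T] : Fin 5 → ℤ) b : ℝ)) := by
      unfold r5 rz
      simp only [NBp_exp ![O, R, A, W, T] ![O, R, A, W, T]]
      push_cast
      simp only [Finset.sum_mul]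
      rw [Finset.sum_comm]
      refine Finset.sum_congr rfl fun a _ => ?_
      rw [Finset.sum_comm]
      refine Finset.sum_congr rfl fun b _ => Finset.sum_congr rfl fun i _ => ?_
      ring
    have e3 : ∀ a b, mulT D (fun _ => (((![O, R, A, W, T] : Fin 5 → ℤ) a : ℝ) : ℂ))
        (fun _ => (((![O, R, A, W, T] : Fin 5 → ℤ) b : ℝ) : ℂ)) u =
        (((![O, R, A, W, T] : Fin 5 → ℤ) a : ℝ) : ℂ) *
        (((![O, R, A, W, T] : Fin 5 → ℤ) b : ℝ) : ℂ) := fun a b =>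
      congrFun (Pool.Agent.Helper90.KMT.mulT_cc D _ _) u
    have e4 : fz z (toF (NBz O R A W T (un9 k))) = ((1 / 2 : ℝ) : ℂ) *
        ((∑ a, ∑ b, r5 z k a b * (((![O, R, A, W, T] : Fin 5 → ℤ) a : ℝ) *
          ((![O, R, A, W, T] : Fin 5 → ℤ) b : ℝ)) : ℝ) : ℂ) := by
      rw [← e2, e1, fz_rz]
      push_cast
      ring
    show fz z (toF (NBz O R A W T (un9 k))) = _
    rw [e4]
    push_cast
    congr 1
    refine Finset.sum_congr rfl fun a _ => Finset.sum_congr rfl fun b _ => ?_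
    have e5 := e3 a b
    push_cast at e5
    rw [e5]
  rw [h1]
  ring

end

end Pool.Agent.Helper17.KPT
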