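import Pool.Agent.Helper17.CT.KPT10
import Pool.Agent.Helper90.CX.KCT5

/-!
Row KPT of MP_c75db0 (tails), part 11: shapes, bounds, the six kinds of runs.
-/

set_option autoImplicit false
set_option exponentiation.threshold 4000
noncomputable section
namespace Pool.Agent.Helper17.KPT

open Pool.Agent.Helper86.C75 (Z)
open Pool.Agent.Helper86.CX (Hm P9 VR MM NG md psub ev andB Cx toM u32 kf psd SE mkH)
open Pool.Agent.Helper86.CT
open Pool.Agent.Helper90.C75 (Vt mulT avg wtT bt Wts sum_Vt_succ)
open Pool.Agent.Helper90.KMO (zv cz UU UU_pos)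
open Pool.Agent.Helper90.KMT (mf0 nmf sgv KTab nlf lf0 c3 KMK PT mkIF Ph low_ok Nc Np yF QOK)
open Pool.Agent.Helper17.PAK
open Complex ComplexConjugate

/-! ### shapes -/

theorem FSh.orl {A : Type} {D : ℕ} {l l' : List Bool} {I : Vt D → A} (h : FSh D l I)
    (hl : l'.length = D) : FSh D (or2 l l') I := by
  induction D generalizing l l' with
  | zero =>
    cases l with
    | cons b l => exact h.elim
    | nil => cases l' with
      | nil => trivial
      | cons b l => cases hl
  | succ D ih =>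
    cases l with
    | nil => exact h.elim
    | cons b l => cases l' with
      | nil => cases hl
      | cons b' l' =>
        have hl' : l'.length = D := by simpa using hl
        cases b with
        | true => exact fun i => ih (h.slice i) hl'
        | false => cases b' with
          | true => exact fun i => ih (h.slice i) hl'
          | false => exact ⟨h.1, ih (h.slice 0) hl'⟩

theorem or2_comm (l l' : List Bool) : or2 l l' = or2 l' l := by
  unfold or2
  rw [List.zipWith_comm]
  congr 1
  funext a b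
  exact Bool.or_comm _ _

theorem FSh.orr {A : Type} {D : ℕ} {l l' : List Bool} {I : Vt D → A} (h : FSh D l' I)
    (hl : l.length = D) : FSh D (or2 l l') I := by
  rw [or2_comm]
  exact h.orl hl

theorem or2_len {D : ℕ} {l l' : List Bool} (h : l.length = D) (h' : l'.length = D) :
    (or2 l l').length = D := by
  unfold or2
  rw [List.length_zipWith, h, h', min_self]

/-- shapes of trees give shapes of the leaf functions -/
def SF {α X : Type} (D : ℕ) (la : α → Vt D → X) (Sa : α → List Bool → Prop) : Prop :=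
  ∀ (x : α) (l : List Bool), Sa x l → FSh D l (la x)

theorem SF.zero {X : Type} : SF 0 (lz : X → Vt 0 → X) s0 := by
  intro x l h
  have h' : l = [] := h
  subst h'
  trivial

theorem SF.step {α X : Type} {D : ℕ} {la : α → Vt D → X} {Sa : α → List Bool → Prop}
    (h : SF D la Sa) : SF (D + 1) (lf3 la) (sh3 Sa) := by
  intro x l hx
  cases l with
  | nil => cases x <;> exact hx.elim
  | cons b l =>
    cases b with
    | true => exact fun i => h _ _ (hx.ct i)
    | false =>
      cases x with
      | q a c d => exact hx.elim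
      | k x => exact ⟨fun u i => rfl, h _ _ hx⟩

theorem sf_1 {X : Type} : SF 1 (l1 : N3 X → Vt 1 → X) s1 := SF.zero.step
theorem sf_2 {X : Type} : SF 2 (l2 : N3 (N3 X) → Vt 2 → X) s2 := SF.step sf_1
theorem sf_3 {X : Type} : SF 3 (l3 : N3 (N3 (N3 X)) → Vt 3 → X) s3 := SF.step sf_2
theorem sf_4 {X : Type} : SF 4 (l4 : N3 (N3 (N3 (N3 X))) → Vt 4 → X) s4 := SF.step sf_3

/-- the shape of the integer matrix -/
theorem qI_sh {α : Type} {D : ℕ} {lC : α → Vt D → Cx} {Sa : α → List Bool → Prop}
    (h : SF D lC Sa) {X : Qd α} {l : List Bool} (hX : QSh Sa X l) : FSh D l (qI lC X) := by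
  obtain ⟨a, b, c, d, h1, h2, h3, h4, rfl⟩ := hX
  have f1 := h _ _ h1
  have f2 := h _ _ h2
  have f3 := h _ _ h3
  have f4 := h _ _ h4
  have n1 := f1.len
  have n2 := f2.len
  have n3 := f3.len
  have n4 := f4.len
  have g1 := (f1.orl n2).orl (or2_len n3 n4)
  have g2 := (f2.orr n1).orl (or2_len n3 n4)
  have g3 := (f3.orl n4).orr (or2_len n1 n2)
  have g4 := (f4.orr n3).orr (or2_len n1 n2)
  have k := ((g1.map2 g2 Prod.mk).map2 (g3.map2 g4 Prod.mk) Prod.mk).map
    (fun p : (Cx × Cx) × (Cx × Cx) => (![2 ^ 48, zv p.1.1.re, zv p.1.2.re, zv p.2.1.re,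
      zv p.2.2.re] : Fin 5 → ℤ))
  exact k

/-! ### tests of shapes -/

/-- test of a shape, level zero -/
def sb0 {X : Type} (_ : X) (l : List Bool) : Bool :=
  match l with
  | [] => true
  | _ :: _ => false

/-- test of a shape, next level -/
def sbN {α : Type} (f : α → List Bool → Bool) (x : N3 α) (l : List Bool) : Bool :=
  match x, l with
  | .k x, false :: l => f x l
  | .q a c b, true :: l => andB (f a l) (andB (f c l) (f b l))
  | _, _ => false

theorem sb0_ok {X : Type} {x : X} {l : List Bool} (h : sb0 x l = true) : s0 x l := by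
  cases l with
  | nil => rfl
  | cons b l => cases h

theorem sbN_ok {α : Type} {f : α → List Bool → Bool} {S : α → List Bool → Prop}
    (hf : ∀ {x l}, f x l = true → S x l) {x : N3 α} {l : List Bool} (h : sbN f x l = true) :
    sh3 S x l := by
  cases x with
  | k x => cases l with
    | nil => cases h
    | cons b l => cases b with
      | true => cases h
      | false => exact hf h
  | q a c d => cases l with
    | nil => cases h
    | cons b l => cases b with
      | false => cases h
      | true =>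
        have h' : andB (f a l) (andB (f c l) (f d l)) = true := h
        obtain ⟨h1, h2, h3⟩ := andB3 h'
        exact ⟨hf h1, hf h2, hf h3⟩

def sb1 {X : Type} : N3 X → List Bool → Bool := sbN sb0
def sb2 {X : Type} : N3 (N3 X) → List Bool → Bool := sbN sb1
def sb3 {X : Type} : N3 (N3 (N3 X)) → List Bool → Bool := sbN sb2
def sb4 {X : Type} : N3 (N3 (N3 (N3 X))) → List Bool → Bool := sbN sb3

theorem sb1_ok {X : Type} {x : N3 X} {l : List Bool} (h : sb1 x l = true) : s1 x l :=
  sbN_ok (fun h => sb0_ok h) h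
theorem sb2_ok {X : Type} {x : N3 (N3 X)} {l : List Bool} (h : sb2 x l = true) : s2 x l :=
  sbN_ok (fun h => sb1_ok h) h
theorem sb3_ok {X : Type} {x : N3 (N3 (N3 X))} {l : List Bool} (h : sb3 x l = true) : s3 x l :=
  sbN_ok (fun h => sb2_ok h) h
theorem sb4_ok {X : Type} {x : N3 (N3 (N3 (N3 X)))} {l : List Bool} (h : sb4 x l = true) :
    s4 x l := sbN_ok (fun h => sb3_ok h) h

/-! ### bounds -/

/-- the sizes of a matrix of models are at most `2 ^ 56` -/
def qdB {α : Type} (X : Qd α) : Bool :=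
  andB (Nat.ble X.R.B 72057594037927936) (andB (Nat.ble X.A.B 72057594037927936)
    (andB (Nat.ble X.W.B 72057594037927936) (Nat.ble X.T.B 72057594037927936)))

/-- bounds of five integers -/
def Bq (b : ℤ) (x : Fin 5 → ℤ) : Prop := ∀ a, |x a| ≤ b

theorem qdB_ok {α : Type} {D : ℕ} {lC : α → Vt D → Cx} {lf : α → Vt D → ℂ} (hc : CL D lC lf)
    {t : ℕ → ℝ} {r a w τ : ℝ} {X : Qd α} (hX : QOK D lf t r a w τ X) (h : qdB X = true)
    (u : Vt D) : Bq (2 ^ 56) (qI lC X u) := by
  unfold qdB at h
  simp only [andB_iff] at h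
  obtain ⟨h1, h2, h3, h4⟩ := h
  have key : ∀ {m : Mo α}, (∀ u, ‖lf m.v u‖ ≤ m.B) → Nat.ble m.B 72057594037927936 = true →
      |zv (lC m.v u).re| ≤ 2 ^ 56 := by
    intro m hb hm
    have g1 := hb u
    rw [← hc] at g1
    have g2 := Complex.abs_re_le_norm (cz (lC m.v u))
    have e1 : (cz (lC m.v u)).re = ((zv (lC m.v u).re : ℤ) : ℝ) := rfl
    rw [e1] at g2
    have g3 : |zv (lC m.v u).re| ≤ (m.B : ℤ) := by exact_mod_cast g2.trans g1
    have g4 : m.B ≤ 2 ^ 56 := Nat.le_of_ble_eq_true hm
    have g5 : (m.B : ℤ) ≤ 2 ^ 56 := by exact_mod_cast g4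
    exact g3.trans g5
  intro i
  fin_cases i
  · show |(2 ^ 48 : ℤ)| ≤ 2 ^ 56
    norm_num
  · exact key hX.R.val.bd h1
  · exact key hX.A.val.bd h2
  · exact key hX.W.val.bd h3
  · exact key hX.T.val.bd h4

theorem mu2_cf : ∀ k i : Fin 9, ∑ a : Fin 5, ∑ b : Fin 5,
    |toF (NBp (e5 a) (e5 b) (un9 k)) i| ≤ 8 := by decide +kernel

theorem mu2_bd {a b : ℤ} {x y : Fin 5 → ℤ} (hx : Bq a x) (hy : Bq b y) (k : Fin 9) :
    Bf (8 * (a * b)) (mu2 x y k) := by
  have m : ∀ i j, |x i * y j| ≤ a * b := fun i j => abs_mul_le (hx i) (hy j)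
  have n : 0 ≤ a * b := (abs_nonneg _).trans (m 0 0)
  intro i
  show |toF (NBp x y (un9 k)) i| ≤ 8 * (a * b)
  rw [NBp_exp]
  have h1 : |∑ c, ∑ d, x c * y d * toF (NBp (e5 c) (e5 d) (un9 k)) i| ≤
      ∑ c, ∑ d, (a * b) * |toF (NBp (e5 c) (e5 d) (un9 k)) i| := by
    refine (Finset.abs_sum_le_sum_abs _ _).trans (Finset.sum_le_sum fun c _ => ?_)
    refine (Finset.abs_sum_le_sum_abs _ _).trans (Finset.sum_le_sum fun d _ => ?_)
    rw [abs_mul]
    exact mul_le_mul_of_nonneg_right (m c d) (abs_nonneg _)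
  refine h1.trans ?_
  simp only [← Finset.mul_sum]
  have h2 := mul_le_mul_of_nonneg_left (mu2_cf k i) n
  linarith

end Pool.Agent.Helper17.KPT
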