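import Pool.Agent.Helper17.CT.KPT11

/-!
Row KPT of MP_c75db0 (tails), part 12: the runs of a program: one run in a tail star, the five
Bernstein coefficients of a family, constant runs.
-/

set_option autoImplicit false
set_option exponentiation.threshold 4000
noncomputable section
namespace Pool.Agent.Helper17.KPT

open Pool.Agent.Helper86.C75 (Z)
open Pool.Agent.Helper86.CX (Hm P9 VR MM NG md psub ev andB Cx toM u32 kf psd SE mkH)
open Pool.Agent.Helper86.CT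
open Pool.Agent.Helper90.C75 (Vt mulT avg wtT bt Wts sum_Vt_succ)
open Pool.Agent.Helper90.KMO (zv cz UU UU_pos)
open Pool.Agent.Helper90.KMT (mf0 nmf sgv KTab nlf lf0 c3 KMK PT mkIF Ph low_ok Nc Np yF QOK)
open Pool.Agent.Helper17.PAK
open Complex ComplexConjugate

theorem and2_self (l : List Bool) : and2 l l = l := by
  induction l with
  | nil => rfl
  | cons b l ih =>
    show (b && b) :: and2 l l = b :: l
    rw [ih, Bool.and_self]

/-- the multipliers of two matrices of the same shape -/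
def Jq {α : Type} {D : ℕ} (lC : α → Vt D → Cx) (l : List Bool) (X Y : Qd α) :
    Vt D → Fin 9 → Fin 9 → ℤ := mulZ mu2 D l (qI lC X) (qI lC Y)

section

variable {α v : Type} {D : ℕ} {lC : α → Vt D → Cx} {lf : α → Vt D → ℂ} {lv : v → Vt D → VR}
  {Sa : α → List Bool → Prop} {Sv : v → List Bool → Prop} {M : Mq α v}

/-- everything about a control matrix: shape and size -/
structure QX (D : ℕ) (lC : α → Vt D → Cx) (Sa : α → List Bool → Prop) (X : Qd α)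
    (l : List Bool) : Prop where
  s : QSh Sa X l
  b : ∀ u, Bq (2 ^ 56) (qI lC X u)

theorem Jq_rt (hM : MQ D lC lv Sa Sv M) {X Y : Qd α} {l : List Bool} (hX : QX D lC Sa X l)
    (hY : QX D lC Sa Y l) : RT lv Rb (M.V X Y) (Jq lC l X Y) ∧ Sv (M.V X Y) l := by
  have h := hM.V hX.s hY.s
  rw [and2_self, or2_self] at h
  exact h

theorem Jq_sh (hS : SF D lC Sa) {X Y : Qd α} {l : List Bool} (hX : QX D lC Sa X l)
    (hY : QX D lC Sa Y l) : FSh D l (Jq lC l X Y) := by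
  have h := FSh.mulZ (μ := mu2) (qI_sh hS hX.s) (qI_sh hS hY.s)
  rw [and2_self, or2_self] at h
  exact h

theorem Jq_bd (hD : D ≤ 4) {X Y : Qd α} {l : List Bool} (hX : QX D lC Sa X l)
    (hY : QX D lC Sa Y l) (u : Vt D) (k : Fin 9) : Bf (2 ^ 127) (Jq lC l X Y u k) := by
  have h := mulZ_bd (NA := Bq) (NB := Bq) (NC := fun c J => ∀ k, Bf c (J k)) (μ := mu2) (c := 8)
    (m := l) (D := D) (a := 2 ^ 56) (b := 2 ^ 56) (I := qI lC X) (J := qI lC Y) ?_ ?_ ?_ ?_ ?_ ?_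
    (by norm_num) (by norm_num) (by norm_num) hX.b hY.b u
  · have p8 : (8 : ℤ) ^ D ≤ 2 ^ 12 := by
      calc (8 : ℤ) ^ D ≤ 8 ^ 4 := pow_le_pow_right₀ (by norm_num) hD
        _ = 2 ^ 12 := by norm_num
    refine (h k).mono ?_
    calc (8 : ℤ) ^ D * (8 * (2 ^ 56 * 2 ^ 56)) ≤ 2 ^ 12 * (8 * (2 ^ 56 * 2 ^ 56)) :=
          mul_le_mul_of_nonneg_right p8 (by norm_num)
      _ = 2 ^ 127 := by norm_num
  · intro a x y hx hy i
    refine (abs_sub _ _).trans ((add_le_add (hx i) (hy i)).trans ?_)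
    linarith
  · intro a x y hx hy i
    refine (abs_sub _ _).trans ((add_le_add (hx i) (hy i)).trans ?_)
    linarith
  · intro a a' x y hx hy k
    exact Bf.sub (hx k) (hy k)
  · intro a x hx k i
    show |(4 : ℤ) * x k i| ≤ 4 * a
    rw [abs_mul]
    have h4 : |(4 : ℤ)| = 4 := by norm_num
    rw [h4]
    have := hx k i
    linarith
  · intro a a' x hx h k
    exact (hx k).mono h
  · intro a b x y hx hy k
    exact mu2_bd hx hy k

/-- a run with the matrices `X`, `Y` -/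
theorem V_vk (hM : MQ D lC lv Sa Sv M) (hS : SF D lC Sa) (hD : D ≤ 4) {X Y : Qd α}
    {l : List Bool} (hX : QX D lC Sa X l) (hY : QX D lC Sa Y l) {V : VO v}
    (hV : V.V = M.V X Y) (hc : V.ca + V.cb ≤ 4) (hg : V.sg ≤ 128) :
    VK D lv Sv V (Jq lC l X Y) l := by
  refine ⟨?_, ?_, Jq_sh hS hX hY, fun u k => (Jq_bd hD hX hY u k).mono (by norm_num), hc, hg⟩
  · rw [hV]; exact (Jq_rt hM hX hY).1
  · rw [hV]; exact (Jq_rt hM hX hY).2

/-- one run in a tail star -/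
theorem vo1_vk (hM : MQ D lC lv Sa Sv M) (hS : SF D lC Sa) (hD : D ≤ 4) {X : Qd α}
    {l : List Bool} (hX : QX D lC Sa X l) : VK D lv Sv (vo1 M X) (Jq lC l X X) l :=
  V_vk hM hS hD hX hX rfl (by show 1 + 0 ≤ 4; norm_num) (by show 32 ≤ 128; norm_num)

theorem vo0_vk (hM : MQ D lC lv Sa Sv M) (hS : SF D lC Sa) (hD : D ≤ 4) {X Y Z : Qd α}
    {l : List Bool} (hX : QX D lC Sa X l) : VK D lv Sv (vo0 M X Y Z) (Jq lC l X X) l :=
  V_vk hM hS hD hX hX rfl (by show 4 + 0 ≤ 4; norm_num) (by show 32 ≤ 128; norm_num)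

theorem vo1'_vk (hM : MQ D lC lv Sa Sv M) (hS : SF D lC Sa) (hD : D ≤ 4) {X Y Z : Qd α}
    {l : List Bool} (hX : QX D lC Sa X l) (hY : QX D lC Sa Y l) :
    VK D lv Sv (vo1' M X Y Z) (Jq lC l X Y) l :=
  V_vk hM hS hD hX hY rfl (by show 3 + 1 ≤ 4; norm_num) (by show 32 ≤ 128; norm_num)

theorem vo3_vk (hM : MQ D lC lv Sa Sv M) (hS : SF D lC Sa) (hD : D ≤ 4) {X Y Z : Qd α}
    {l : List Bool} (hY : QX D lC Sa Y l) (hZ : QX D lC Sa Z l) :
    VK D lv Sv (vo3 M X Y Z) (Jq lC l Y Z) l :=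
  V_vk hM hS hD hY hZ rfl (by show 1 + 3 ≤ 4; norm_num) (by show 32 ≤ 128; norm_num)

theorem vo4_vk (hM : MQ D lC lv Sa Sv M) (hS : SF D lC Sa) (hD : D ≤ 4) {X Y Z : Qd α}
    {l : List Bool} (hZ : QX D lC Sa Z l) :
    VK D lv Sv (vo4 M X Y Z) (Jq lC l Z Z) l :=
  V_vk hM hS hD hZ hZ rfl (by show 0 + 4 ≤ 4; norm_num) (by show 32 ≤ 128; norm_num)

theorem vo2_vk (hM : MQ D lC lv Sa Sv M) (hS : SF D lC Sa) (hD : D ≤ 4) {X Y Z : Qd α}
    {l : List Bool} (hX : QX D lC Sa X l) (hY : QX D lC Sa Y l) (hZ : QX D lC Sa Z l) :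
    VK D lv Sv (vo2 M X Y Z) (fun u => Jq lC l X Z u + (Jq lC l Y Y u + Jq lC l Y Y u)) l := by
  obtain ⟨a1, a2⟩ := Jq_rt hM hX hZ
  obtain ⟨b1, b2⟩ := Jq_rt hM hY hY
  have sb := hM.as b2 b2
  have sa := hM.as a2 sb
  rw [or2_self, or2_self] at sa
  refine ⟨hM.a a1 (hM.a b1 b1), sa, ?_, fun u k => ?_, by show 2 + 2 ≤ 4; norm_num,
    by show 96 ≤ 128; norm_num⟩
  · exact (Jq_sh hS hX hZ).map2 ((Jq_sh hS hY hY).map2 (Jq_sh hS hY hY) (fun a b => a + b))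
      (fun a b => a + b)
  · have h1 := Jq_bd hD hX hZ u k
    have h2 := Jq_bd hD hY hY u k
    exact (h1.add (h2.add h2)).mono (by norm_num)

/-- the leaf sums of these runs -/
theorem SN_Jq (hc : CL D lC lf) (hS : SF D lC Sa) (P : KM α) {X Y : Qd α} {l : List Bool}
    (hX : QX D lC Sa X l) (hY : QX D lC Sa Y l) (t : ℕ → ℝ) (z : Fin 3 → ℂ) :
    SN D t (PI lC P) (Jq lC l X Y) z =
      4 ^ cnt l * Np D t (mkIF lf P) (yF lf X z) (yF lf Y z) := by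
  have h := SN_tail hc P (qI_sh hS hX.s) (qI_sh hS hY.s) t z
  rw [and2_self] at h
  exact h

theorem SN_vo2 (hc : CL D lC lf) (hS : SF D lC Sa) (P : KM α) {X Y Z : Qd α} {l : List Bool}
    (hX : QX D lC Sa X l) (hY : QX D lC Sa Y l) (hZ : QX D lC Sa Z l) (t : ℕ → ℝ)
    (z : Fin 3 → ℂ) :
    SN D t (PI lC P) (fun u => Jq lC l X Z u + (Jq lC l Y Y u + Jq lC l Y Y u)) z =
      4 ^ cnt l * (Np D t (mkIF lf P) (yF lf X z) (yF lf Z z) +
        2 * Np D t (mkIF lf P) (yF lf Y z) (yF lf Y z)) := by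
  rw [SN_add t _ (Jq lC l X Z) (fun u => Jq lC l Y Y u + Jq lC l Y Y u), SN_add,
    SN_Jq hc hS P hX hZ, SN_Jq hc hS P hY hY]
  ring

end

/-! ### constant runs -/

/-- the laws of constant trees -/
structure CK1 {v : Type} (D : ℕ) (lv : v → Vt D → VR) (Sv : v → List Bool → Prop)
    (k : VR → v) : Prop where
  lf : ∀ x u, lv (k x) u = x
  sh : ∀ x, Sv (k x) (List.replicate D false)

theorem ck_0 : CK1 0 lz s0 id := ⟨fun _ _ => rfl, fun _ => rfl⟩
theorem CK1.step {v : Type} {D : ℕ} {lv : v → Vt D → VR} {Sv : v → List Bool → Prop}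
    {k : VR → v} (h : CK1 D lv Sv k) : CK1 (D + 1) (lf3 lv) (sh3 Sv) (fun x => N3.k (k x)) :=
  ⟨fun x u => h.lf x u.1, fun x => h.sh x⟩
theorem ck_1 : CK1 1 l1 s1 (fun x => N3.k x) := ck_0.step
theorem ck_2 : CK1 2 l2 s2 (fun x => N3.k (N3.k x)) := ck_1.step
theorem ck_3 : CK1 3 l3 s3 (fun x => N3.k (N3.k (N3.k x))) := ck_2.step
theorem ck_4 : CK1 4 l4 s4 (fun x => N3.k (N3.k (N3.k (N3.k x)))) := ck_3.step

/-- the multipliers of a constant run -/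
def Jc {D : ℕ} (O R A W T : ℤ) : Vt D → Fin 9 → Fin 9 → ℤ :=
  fun _ k => toF (NBz O R A W T (un9 k))

theorem FSh.const {A : Type} : ∀ (D : ℕ) (c : A), FSh D (List.replicate D false) (fun _ => c)
  | 0, _ => trivial
  | D + 1, c => ⟨fun _ _ => rfl, FSh.const D c⟩

theorem cnt_false (D : ℕ) : cnt (List.replicate D false) = 0 := by
  unfold cnt
  rw [List.count_replicate]
  rfl

theorem Jc_bd {D : ℕ} {O R A W T : ℤ} (h : Bq (2 ^ 56) ![O, R, A, W, T]) (u : Vt D) (k : Fin 9) :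
    Bf (2 ^ 130) (Jc (D := D) O R A W T u k) := by
  intro i
  have h1 := mu2_bd h h k i
  have h2 : mu2 ![O, R, A, W, T] ![O, R, A, W, T] k i = 2 * toF (NBz O R A W T (un9 k)) i := by
    show toF (NBp ![O, R, A, W, T] ![O, R, A, W, T] (un9 k)) i = _
    rw [NBp_self]
    fin_cases i <;> rfl
  rw [h2, abs_mul] at h1
  have h3 : |(2 : ℤ)| = 2 := by norm_num
  rw [h3] at h1
  show |toF (NBz O R A W T (un9 k)) i| ≤ 2 ^ 130
  norm_num at h1 ⊢
  linarith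

/-- a constant run -/
theorem const_vk {v : Type} {D : ℕ} {lv : v → Vt D → VR} {Sv : v → List Bool → Prop}
    {k : VR → v} (hk : CK1 D lv Sv k) {V : VO v} {X : VR} {O R A W T : ℤ}
    (hX : EncV X O R A W T) (hb : Bq (2 ^ 56) ![O, R, A, W, T]) (hV : V.V = k X)
    (hc : V.ca + V.cb ≤ 4) (hg : V.sg ≤ 128) :
    VK D lv Sv V (Jc O R A W T) (List.replicate D false) := by
  refine ⟨fun u => ?_, ?_, FSh.const D _, fun u k => Jc_bd hb u k, hc, hg⟩
  · rw [hV, hk.lf]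
    exact encV_Rb hX
  · rw [hV]
    exact hk.sh X

/-! ### evaluation of tables -/

/-- the evaluation of a table is monotone -/
def MP {β : Type} (D : ℕ) (mf : (ℕ → ℝ) → β → (ℕ → ℝ) → ℝ) : Prop :=
  ∀ (f : ℕ → ℝ) (T : β) (t : ℕ → ℝ), (∀ x, 0 ≤ f x) → (∀ j < D, 0 ≤ t j) → (∀ j < D, t j ≤ 1) →
    0 ≤ mf f T t

theorem mp_0 : MP 0 mf0 := fun f T _ h _ _ => h T
theorem MP.step {β : Type} {D : ℕ} {mf : (ℕ → ℝ) → β → (ℕ → ℝ) → ℝ} (h : MP D mf) :
    MP (D + 1) (nmf D mf) := by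
  intro f T t hf h0 h1
  have a := h f T.a t hf (fun j hj => h0 j (by omega)) (fun j hj => h1 j (by omega))
  have b := h f T.b t hf (fun j hj => h0 j (by omega)) (fun j hj => h1 j (by omega))
  have c0 := h0 D (by omega)
  have c1 := h1 D (by omega)
  show 0 ≤ (1 - t D) * mf f T.a t + t D * mf f T.b t
  have := mul_nonneg (sub_nonneg.2 c1) a
  have := mul_nonneg c0 b
  linarith
theorem mp_1 : MP 1 (nmf 0 mf0) := mp_0.step
theorem mp_2 : MP 2 (nmf 1 (nmf 0 mf0)) := mp_1.step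
theorem mp_3 : MP 3 (nmf 2 (nmf 1 (nmf 0 mf0))) := mp_2.step
theorem mp_4 : MP 4 (nmf 3 (nmf 2 (nmf 1 (nmf 0 mf0)))) := mp_3.step

theorem lamI_nonneg {β : Type} {D : ℕ} {mf : (ℕ → ℝ) → β → (ℕ → ℝ) → ℝ} (h : MP D mf) (LT : β)
    (l : ℕ) {t : ℕ → ℝ} (ht : PT D t) : 0 ≤ lamI mf LT l t :=
  h _ LT t (fun _ => Nat.cast_nonneg _) ht.h0 ht.h1

end Pool.Agent.Helper17.KPT
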