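import Pool.Agent.Helper17.CT.KPT1
import Pool.Agent.Helper90.CX.KT0

/-!
Row KPT of MP_c75db0 (tails), part 2: evaluation of the scaled products of control values.
-/

set_option autoImplicit false
noncomputable section
namespace Pool.Agent.Helper17.KPT

open Pool.Agent.Helper90.C75 (Vt mulT avg wtT)
open Pool.Agent.Helper90.KMT (mulT_zero_left mulT_zero_right)
open Finset

/-- number of quadratic directions -/
def cnt (l : List Bool) : ℕ := l.count true

section

variable {A B C : Type}

/-- the shape of a function on the vertices: constant in the directions `false` -/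
def FSh : (D : ℕ) → List Bool → (Vt D → A) → Prop
  | 0, [], _ => True
  | 0, _ :: _, _ => False
  | _ + 1, [], _ => False
  | D + 1, true :: l, I => ∀ i : Fin 3, FSh D l (fun u => I (u, i))
  | D + 1, false :: l, I => (∀ u i, I (u, i) = I (u, 0)) ∧ FSh D l (fun u => I (u, 0))

theorem FSh.true_all : ∀ (D : ℕ) (I : Vt D → A), FSh D (List.replicate D true) I
  | 0, _ => trivial
  | D + 1, I => fun i => FSh.true_all D (fun u => I (u, i))

theorem FSh.slice {D : ℕ} {b : Bool} {l : List Bool} {I : Vt (D + 1) → A}
    (h : FSh (D + 1) (b :: l) I) (i : Fin 3) : FSh D l (fun u => I (u, i)) := by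
  cases b with
  | true => exact h i
  | false =>
    have e : (fun u => I (u, i)) = fun u => I (u, 0) := funext fun u => h.1 u i
    rw [e]
    exact h.2

theorem FSh.map {D : ℕ} {l : List Bool} {I : Vt D → A} (h : FSh D l I) (f : A → B) :
    FSh D l (fun u => f (I u)) := by
  induction D generalizing l with
  | zero =>
    cases l with
    | nil => trivial
    | cons b l => exact h.elim
  | succ D ih =>
    cases l with
    | nil => exact h.elim
    | cons b l => cases b with
      | true => exact fun i => ih (h i)
      | false => exact ⟨fun u i => congrArg f (h.1 u i), ih h.2⟩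

theorem FSh.map2 {D : ℕ} {l : List Bool} {I : Vt D → A} {J : Vt D → B} (h : FSh D l I)
    (h' : FSh D l J) (f : A → B → C) : FSh D l (fun u => f (I u) (J u)) := by
  induction D generalizing l with
  | zero =>
    cases l with
    | nil => trivial
    | cons b l => exact h.elim
  | succ D ih =>
    cases l with
    | nil => exact h.elim
    | cons b l => cases b with
      | true => exact fun i => ih (h i) (h' i)
      | false =>
        refine ⟨fun u i => ?_, ih h.2 h'.2⟩
        show f (I (u, i)) (J (u, i)) = _
        rw [h.1 u i, h'.1 u i]

end

section

variable {A B C : Type} [AddCommGroup A] [AddCommGroup B] [AddCommGroup C]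

theorem mulT_neg_right (D : ℕ) (F G : Vt D → ℂ) : mulT D F (fun u => -G u) = fun u => -mulT D F G u := by
  induction D with
  | zero =>
    funext v
    simp [mulT]
  | succ D ih =>
    funext v
    simp only [mulT]
    by_cases h : v.2 = 1
    · rw [if_pos h, if_pos h]
      have e : (fun u => -G (u, 2) - -G (u, 0)) = fun u => -(G (u, 2) - G (u, 0)) := by
        funext u; ring
      rw [e, ih, ih]
      ring
    · rw [if_neg h, if_neg h, ih]

/-- EVALUATION: the scaled product is `4 ^ m` times the product of control values -/
theorem eval_mulZ {ι : Type} [Fintype ι] {μ : A → B → C} {φ : C →+ ℂ} {f : ι → A →+ ℂ}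
    {g : ι → B →+ ℂ} (hμ : ∀ a b, φ (μ a b) = ∑ k, f k a * g k b) {D : ℕ} {l l' : List Bool}
    {I : Vt D → A} {J : Vt D → B} (hI : FSh D l I) (hJ : FSh D l' J) (v : Vt D) :
    φ (mulZ μ D (and2 l l') I J v) =
      4 ^ cnt (and2 l l') * ∑ k, mulT D (fun u => f k (I u)) (fun u => g k (J u)) v := by
  induction D generalizing l l' with
  | zero =>
    cases l with
    | cons b l => exact hI.elim
    | nil =>
      simp only [mulZ, mulT, and2, cnt, List.zipWith_nil_left, List.count_nil, pow_zero, one_mul]
      exact hμ _ _
  | succ D ih =>
    cases l with
    | nil => exact hI.elim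
    | cons b l => cases l' with
      | nil => exact hJ.elim
      | cons b' l' =>
        obtain ⟨u, i⟩ := v
        have hand : and2 (b :: l) (b' :: l') = (b && b') :: and2 l l' := rfl
        by_cases hb : (b && b') = true
        · rw [hand, hb]
          have hc : cnt (true :: and2 l l') = cnt (and2 l l') + 1 := by
            simp [cnt]
          rw [hc, pow_succ]
          by_cases hi : i = 1
          · subst hi
            simp only [mulZ, mulT, if_true]
            rw [map_sub, map_zsmul, ih (hI.slice 1) (hJ.slice 1),
              ih ((hI.slice 2).map2 (hI.slice 0) (fun a b => a - b))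
                ((hJ.slice 2).map2 (hJ.slice 0) (fun a b => a - b))]
            have e1 : ∀ k, (fun u => f k (I (u, 2) - I (u, 0))) =
                fun u => f k (I (u, 2)) - f k (I (u, 0)) := fun k => funext fun u => map_sub _ _ _
            have e2 : ∀ k, (fun u => g k (J (u, 2) - J (u, 0))) =
                fun u => g k (J (u, 2)) - g k (J (u, 0)) := fun k => funext fun u => map_sub _ _ _
            simp only [e1, e2]
            rw [Finset.sum_sub_distrib, ← Finset.sum_div]
            simp only [zsmul_eq_mul]
            push_cast
            ring
          · simp only [mulZ, mulT, hi, if_false]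
            rw [map_zsmul, ih (hI.slice i) (hJ.slice i)]
            simp only [zsmul_eq_mul]
            push_cast
            ring
        · have hb' : (b && b') = false := by
            revert hb; cases b <;> cases b' <;> decide
          rw [hand, hb']
          have hc : cnt (false :: and2 l l') = cnt (and2 l l') := by
            simp [cnt]
          rw [hc]
          simp only [mulZ]
          rw [ih (hI.slice i) (hJ.slice i)]
          congr 1
          refine Finset.sum_congr rfl fun k _ => ?_
          by_cases hi : i = 1
          · subst hi
            simp only [mulT, if_true]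
            have hz : (fun u => f k (I (u, 2)) - f k (I (u, 0))) = (fun _ => (0 : ℂ)) ∨
                (fun u => g k (J (u, 2)) - g k (J (u, 0))) = fun _ => (0 : ℂ) := by
              cases b with
              | false =>
                left
                funext u
                rw [hI.1 u 2, sub_self]
              | true => cases b' with
                | false =>
                  right
                  funext u
                  rw [hJ.1 u 2, sub_self]
                | true => exact absurd hb' (by decide)
            rcases hz with hz | hz
            · rw [hz, mulT_zero_left]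
              simp
            · rw [hz, mulT_zero_right]
              simp
          · simp only [mulT, hi, if_false]

/-- the shape of a scaled product -/
theorem FSh.mulZ {μ : A → B → C} {D : ℕ} {l l' : List Bool} {I : Vt D → A} {J : Vt D → B}
    (hI : FSh D l I) (hJ : FSh D l' J) :
    FSh D (or2 l l') (Pool.Agent.Helper17.KPT.mulZ μ D (and2 l l') I J) := by
  induction D generalizing l l' with
  | zero =>
    cases l with
    | cons b l => exact hI.elim
    | nil => cases l' with
      | nil => trivial
      | cons b l' => exact hJ.elim
  | succ D ih =>
    cases l with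
    | nil => exact hI.elim
    | cons b l => cases l' with
      | nil => exact hJ.elim
      | cons b' l' =>
        have sl : ∀ i : Fin 3, FSh D (or2 l l') (fun u =>
            Pool.Agent.Helper17.KPT.mulZ μ (D + 1) (and2 (b :: l) (b' :: l')) I J (u, i)) := by
          intro i
          have hand : and2 (b :: l) (b' :: l') = (b && b') :: and2 l l' := rfl
          rw [hand]
          cases hbb : (b && b') with
          | false => exact ih (hI.slice i) (hJ.slice i)
          | true =>
            by_cases hi : i = 1
            · subst hi
              simp only [Pool.Agent.Helper17.KPT.mulZ, if_true]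
              exact (ih (hI.slice 1) (hJ.slice 1)).map2
                (ih ((hI.slice 2).map2 (hI.slice 0) (fun a b => a - b))
                  ((hJ.slice 2).map2 (hJ.slice 0) (fun a b => a - b)))
                (fun x y => (4 : ℤ) • x - y)
            · simp only [Pool.Agent.Helper17.KPT.mulZ, hi, if_false]
              exact (ih (hI.slice i) (hJ.slice i)).map (fun x => (4 : ℤ) • x)
        cases b with
        | true => exact sl
        | false => cases b' with
          | true => exact sl
          | false =>
            refine ⟨fun u i => ?_, sl 0⟩
            show Pool.Agent.Helper17.KPT.mulZ μ D (and2 l l') (fun u => I (u, i))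
              (fun u => J (u, i)) u = Pool.Agent.Helper17.KPT.mulZ μ D (and2 l l')
              (fun u => I (u, 0)) (fun u => J (u, 0)) u
            have e1 : (fun u => I (u, i)) = fun u => I (u, 0) := funext fun u => hI.1 u i
            have e2 : (fun u => J (u, i)) = fun u => J (u, 0) := funext fun u => hJ.1 u i
            rw [e1, e2]

/-- bounds of a scaled product -/
theorem mulZ_bd {NA : ℤ → A → Prop} {NB : ℤ → B → Prop} {NC : ℤ → C → Prop} {μ : A → B → C}
    {c : ℤ} (ha : ∀ {a x y}, NA a x → NA a y → NA (2 * a) (x - y))
    (hb : ∀ {a x y}, NB a x → NB a y → NB (2 * a) (x - y))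
    (hc : ∀ {a a' x y}, NC a x → NC a' y → NC (a + a') (x - y))
    (hc4 : ∀ {a x}, NC a x → NC (4 * a) ((4 : ℤ) • x))
    (hm : ∀ {a a' x}, NC a x → a ≤ a' → NC a' x)
    (hμ : ∀ {a b x y}, NA a x → NB b y → NC (c * (a * b)) (μ x y))
    {D : ℕ} {m : List Bool} {a b : ℤ} {I : Vt D → A} {J : Vt D → B} (hc0 : 0 ≤ c) (ha0 : 0 ≤ a)
    (hb0 : 0 ≤ b) (hI : ∀ v, NA a (I v)) (hJ : ∀ v, NB b (J v)) (v : Vt D) :
    NC (8 ^ D * (c * (a * b))) (Pool.Agent.Helper17.KPT.mulZ μ D m I J v) := by
  induction D generalizing m a b with
  | zero =>
    rw [pow_zero, one_mul]
    cases m <;> exact hμ (hI v) (hJ v)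
  | succ D ih =>
    obtain ⟨u, i⟩ := v
    have h0 : (0 : ℤ) ≤ 8 ^ D * (c * (a * b)) := by positivity
    have e : (8 : ℤ) ^ (D + 1) * (c * (a * b)) = 8 * (8 ^ D * (c * (a * b))) := by
      rw [pow_succ]; ring
    have base : ∀ (m' : List Bool) (j : Fin 3), NC (8 ^ D * (c * (a * b)))
        (Pool.Agent.Helper17.KPT.mulZ μ D m' (fun u => I (u, j)) (fun u => J (u, j)) u) :=
      fun m' j => ih ha0 hb0 (fun w => hI (w, j)) (fun w => hJ (w, j)) u
    rw [e]
    cases m with
    | nil => exact hm (base [] i) (by linarith)
    | cons b' m => cases b' with
      | false => exact hm (base m i) (by linarith)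
      | true =>
        by_cases hi : i = 1
        · subst hi
          simp only [Pool.Agent.Helper17.KPT.mulZ, if_true]
          have h1 := hc4 (base m 1)
          have h2 := ih (m := m) (a := 2 * a) (b := 2 * b) (by linarith) (by linarith)
            (I := fun u => I (u, 2) - I (u, 0)) (J := fun u => J (u, 2) - J (u, 0))
            (fun w => ha (hI (w, 2)) (hI (w, 0))) (fun w => hb (hJ (w, 2)) (hJ (w, 0))) u
          refine hm (hc h1 h2) (le_of_eq ?_)
          ring
        · simp only [Pool.Agent.Helper17.KPT.mulZ, hi, if_false]
          exact hm (hc4 (base m i)) (by linarith)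

end

end Pool.Agent.Helper17.KPT
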