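import Pool.Agent.Helper17.CT.KPT2
import Pool.Agent.Helper21.CX.KCA

/-!
Row KPT of MP_c75db0 (tails), part 3: the leaf operations: forms, packed multipliers, products.
-/

set_option autoImplicit false
set_option exponentiation.threshold 4000
noncomputable section
namespace Pool.Agent.Helper17.KPT

open Pool.Agent.Helper86.CX (Hm P9 VR MM NG md psub ev andB)
open Pool.Agent.Helper86.CT (N3 Bil nxB Q4 B0 B0q vp vsub vadd v4 msub m4 dot qsub)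
open Pool.Agent.Helper90.C75 (Vt)
open Pool.Agent.Helper17.PAK
open Pool.Agent.Helper21.KCE (Rp RepP)

/-- the form of nine integers -/
def toH (f : Fin 9 → ℤ) : Hm ℤ := ⟨f 0, f 1, f 2, f 3, f 4, f 5, f 6, f 7, f 8⟩
/-- the nine integers of a form -/
def toF (N : Hm ℤ) : Fin 9 → ℤ := ![N.a, N.b, N.c, N.d, N.e, N.f, N.g, N.h, N.i]

/-- leaf relation of forms -/
def Ra (P : P9) (I : Fin 9 → ℤ) : Prop := EncP P (toH I)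
/-- leaf relation of packed forms -/
def Rc (n : ℕ) (N : Fin 9 → ℤ) : Prop := Rep MM n (pk9 (2 ^ 256) (toH N))
/-- leaf relation of packed multipliers -/
def Rb (V : VR) (J : Fin 9 → Fin 9 → ℤ) : Prop :=
  Rc V.a (J 0) ∧ Rc V.b (J 1) ∧ Rc V.c (J 2) ∧ Rc V.d (J 3) ∧ Rc V.e (J 4) ∧ Rc V.f (J 5) ∧
    Rc V.g (J 6) ∧ Rc V.h (J 7) ∧ Rc V.i (J 8)
/-- leaf relation of the entries of a run matrix -/
def Rq (q : Q4) (x : Fin 5 → ℤ) : Prop :=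
  Rp q.O (x 0) ∧ Rp q.R (x 1) ∧ Rp q.A (x 2) ∧ Rp q.W (x 3) ∧ Rp q.T (x 4)

theorem sum9 {M : Type*} [AddCommMonoid M] (f : Fin 9 → M) :
    ∑ k, f k = f 0 + f 1 + f 2 + f 3 + f 4 + f 5 + f 6 + f 7 + f 8 := by
  rw [Fin.sum_univ_castSucc, Fin.sum_univ_eight]
  rfl

theorem rep_eq {M n : ℕ} {x y : ℤ} (h : Rep M n x) (e : x = y) : Rep M n y := by
  rw [← e]; exact h

theorem msub_rep {x y : ℕ} {i j : ℤ} (hx : Rp x i) (hy : Rp y j) : Rp (msub x y) (i - j) := by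
  have h := (hx.add hy.neg).md
  have e : i + -j = i - j := by ring
  rw [e] at h
  exact h

theorem pk9_toH_sub (X : ℤ) (f g : Fin 9 → ℤ) :
    pk9 X (toH f) - pk9 X (toH g) = pk9 X (toH (fun i => f i - g i)) := by
  simp only [pk9, toH]; ring

theorem pk9_toH_add (X : ℤ) (f g : Fin 9 → ℤ) :
    pk9 X (toH f) + pk9 X (toH g) = pk9 X (toH (fun i => f i + g i)) := by
  simp only [pk9, toH]; ring

theorem pk9_toH_smul (X r : ℤ) (f : Fin 9 → ℤ) :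
    r * pk9 X (toH f) = pk9 X (toH (fun i => r * f i)) := by
  simp only [pk9, toH]; ring

theorem Rc.sub {x y : ℕ} {f g : Fin 9 → ℤ} (hx : Rc x f) (hy : Rc y g) : Rc (msub x y) (f - g) := by
  have h := msub_rep hx hy
  rw [pk9_toH_sub] at h
  exact h

theorem Rc.add {x y : ℕ} {f g : Fin 9 → ℤ} (hx : Rc x f) (hy : Rc y g) :
    Rc (md (Nat.add x y)) (f + g) := by
  have h := (Rp.add hx hy).md
  rw [pk9_toH_add] at h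
  exact h

theorem Rc.m4 {x : ℕ} {f : Fin 9 → ℤ} (hx : Rc x f) :
    Rc (Helper86.CT.m4 x) ((4 : ℤ) • f) := by
  have h := Rp.mul (Rp.nat 4) hx
  push_cast at h
  rw [pk9_toH_smul] at h
  exact h

theorem Rc.v4 {x : ℕ} {f : Fin 9 → ℤ} (hx : Rc x f) :
    Rc (md (Helper86.CT.m4 x)) ((4 : ℤ) • f) := Rp.md hx.m4

/-! ### instance 1 -/

/-- the product of a form and a multiplier -/
def mu1 (I : Fin 9 → ℤ) (J : Fin 9 → Fin 9 → ℤ) : Fin 9 → ℤ := fun j => ∑ k, I k * J k j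

theorem dot_rep {P : P9} {V : VR} {I : Fin 9 → ℤ} {J : Fin 9 → Fin 9 → ℤ} (hP : Ra P I)
    (hV : Rb V J) : Rc (dot P V) (mu1 I J) := by
  obtain ⟨a1, a2, a3, a4, a5, a6, a7, a8, a9⟩ := hP
  obtain ⟨b1, b2, b3, b4, b5, b6, b7, b8, b9⟩ := hV
  have h := (((((((((Rp.mul a1 b1).add (Rp.mul a2 b2)).add (Rp.mul a3 b3)).add
    (Rp.mul a4 b4)).add (Rp.mul a5 b5)).add (Rp.mul a6 b6)).add (Rp.mul a7 b7)).add
    (Rp.mul a8 b8)).add (Rp.mul a9 b9)).md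
  refine rep_eq h ?_
  simp only [toH, pk9, mu1, sum9]
  ring

theorem bl1 : BL 0 (fun (x : P9) (_ : Vt 0) => x) (fun (x : VR) (_ : Vt 0) => x)
    (fun (x : ℕ) (_ : Vt 0) => x) Ra Rb Rc (fun _ l => l = []) (fun _ l => l = [])
    (fun _ l => l = []) mu1 B0 := by
  refine ⟨?_, fun h _ => h, ?_, fun h _ => h, ?_, fun h _ => h, ?_, fun h => h, ?_, ?_⟩
  · intro x y I J hx hy v
    obtain ⟨a1, a2, a3, a4, a5, a6, a7, a8, a9⟩ := hx v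
    obtain ⟨b1, b2, b3, b4, b5, b6, b7, b8, b9⟩ := hy v
    have key : ∀ {x y : ℕ} {i j : ℤ}, Rep MM x i → Rep MM y j →
        Rep MM (Nat.add x (Nat.mul NG y)) (i - j) := by
      intro x y i j hx hy
      exact rep_eq (Rp.add hx (Rp.neg hy)) (by ring)
    exact ⟨key a1 b1, key a2 b2, key a3 b3, key a4 b4, key a5 b5, key a6 b6, key a7 b7,
      key a8 b8, key a9 b9⟩
  · intro x y I J hx hy v
    obtain ⟨a1, a2, a3, a4, a5, a6, a7, a8, a9⟩ := hx v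
    obtain ⟨b1, b2, b3, b4, b5, b6, b7, b8, b9⟩ := hy v
    exact ⟨a1.sub b1, a2.sub b2, a3.sub b3, a4.sub b4, a5.sub b5, a6.sub b6, a7.sub b7,
      a8.sub b8, a9.sub b9⟩
  · intro x y I J hx hy v
    exact (hx v).sub (hy v)
  · intro x I hx v
    exact (hx v).m4
  · intro x y l l' I J hl hl' hx hy v
    subst hl hl'
    exact dot_rep (hx v) (hy v)
  · intro x y l l' hl hl'
    subst hl hl'
    rfl

/-! ### instance 2 -/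

/-- the polarised form of a run -/
def NBp (x y : Fin 5 → ℤ) (P : Hm ℤ) : Hm ℤ :=
  ⟨2 * x 0 * y 0 * P.a + 2 * x 1 * y 1 * P.b + 2 * x 3 * y 3 * P.c +
      2 * (x 0 * y 1 + x 1 * y 0) * P.d + 2 * (x 0 * y 3 + x 3 * y 0) * P.f +
      2 * (x 1 * y 3 + x 3 * y 1) * P.h,
   8 * x 1 * y 1 * P.a + 2 * x 2 * y 2 * P.b + 4 * (x 1 * y 2 + x 2 * y 1) * P.d,
   2 * x 2 * y 2 * P.a + 2 * x 4 * y 4 * P.b - 2 * (x 2 * y 4 + x 4 * y 2) * P.d,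
   2 * (x 0 * y 1 + x 1 * y 0) * P.a + (x 1 * y 2 + x 2 * y 1) * P.b +
      (x 0 * y 2 + x 2 * y 0 + 4 * x 1 * y 1) * P.d + 2 * (x 1 * y 3 + x 3 * y 1) * P.f +
      (x 3 * y 2 + x 2 * y 3) * P.h,
   (x 0 * y 2 + x 2 * y 0 - 4 * x 1 * y 1) * P.e - 2 * (x 1 * y 3 + x 3 * y 1) * P.g -
      (x 3 * y 2 + x 2 * y 3) * P.i,
   (x 0 * y 2 + x 2 * y 0) * P.a - (x 1 * y 4 + x 4 * y 1) * P.b +
      (x 1 * y 2 + x 2 * y 1 - (x 0 * y 4 + x 4 * y 0)) * P.d + (x 3 * y 2 + x 2 * y 3) * P.f -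
      (x 3 * y 4 + x 4 * y 3) * P.h,
   -(x 0 * y 4 + x 4 * y 0 + (x 1 * y 2 + x 2 * y 1)) * P.e - (x 3 * y 2 + x 2 * y 3) * P.g +
      (x 3 * y 4 + x 4 * y 3) * P.i,
   2 * (x 1 * y 2 + x 2 * y 1) * P.a - (x 2 * y 4 + x 4 * y 2) * P.b +
      (2 * x 2 * y 2 - 2 * (x 1 * y 4 + x 4 * y 1)) * P.d,
   -(2 * (x 1 * y 4 + x 4 * y 1) + 2 * x 2 * y 2) * P.e⟩

/-- the unit forms -/
def un9 : Fin 9 → Hm ℤ :=
  ![⟨1, 0, 0, 0, 0, 0, 0, 0, 0⟩, ⟨0, 1, 0, 0, 0, 0, 0, 0, 0⟩, ⟨0, 0, 1, 0, 0, 0, 0, 0, 0⟩,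
    ⟨0, 0, 0, 1, 0, 0, 0, 0, 0⟩, ⟨0, 0, 0, 0, 1, 0, 0, 0, 0⟩, ⟨0, 0, 0, 0, 0, 1, 0, 0, 0⟩,
    ⟨0, 0, 0, 0, 0, 0, 1, 0, 0⟩, ⟨0, 0, 0, 0, 0, 0, 0, 1, 0⟩, ⟨0, 0, 0, 0, 0, 0, 0, 0, 1⟩]

/-- the multipliers of two matrices -/
def mu2 (x y : Fin 5 → ℤ) : Fin 9 → Fin 9 → ℤ := fun k => toF (NBp x y (un9 k))

theorem NBp_self (O R A W T : ℤ) (P : Hm ℤ) :
    NBp ![O, R, A, W, T] ![O, R, A, W, T] P = smulH 2 (NBz O R A W T P) := by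
  simp only [NBp, NBz, smulH, Hm.mk.injEq, Matrix.cons_val_zero, Matrix.cons_val_one,
    Matrix.cons_val]
  refine ⟨?_, ?_, ?_, ?_, ?_, ?_, ?_, ?_, ?_⟩ <;> ring

theorem vp_eq (x y : Q4) : vp x y =
  ⟨md (Nat.add (Nat.add (Nat.add (Nat.add (Nat.add (Nat.mul (Nat.mul 2 x.O) y.O) (Nat.mul (2 ^ 256) (Nat.mul (Nat.mul 8 x.R) y.R))) (Nat.mul ((2 ^ 256) ^ 2) (Nat.mul (Nat.mul 2 x.A) y.A))) (Nat.mul ((2 ^ 256) ^ 3) (Nat.add (Nat.mul (Nat.mul 2 x.R) y.O) (Nat.mul (Nat.mul 2 x.O) y.R)))) (Nat.mul ((2 ^ 256) ^ 5) (Nat.add (Nat.mul x.A y.O) (Nat.mul x.O y.A)))) (Nat.mul ((2 ^ 256) ^ 7) (Nat.add (Nat.mul (Nat.mul 2 x.A) y.R) (Nat.mul (Nat.mul 2 x.R) y.A)))),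
    md (Nat.add (Nat.add (Nat.add (Nat.add (Nat.add (Nat.mul (Nat.mul 2 x.R) y.R) (Nat.mul (2 ^ 256) (Nat.mul (Nat.mul 2 x.A) y.A))) (Nat.mul ((2 ^ 256) ^ 2) (Nat.mul (Nat.mul 2 x.T) y.T))) (Nat.mul ((2 ^ 256) ^ 3) (Nat.add (Nat.mul x.A y.R) (Nat.mul x.R y.A)))) (Nat.mul ((2 ^ 256) ^ 5) (Nat.mul NG (Nat.add (Nat.mul x.R y.T) (Nat.mul x.T y.R))))) (Nat.mul ((2 ^ 256) ^ 7) (Nat.mul NG (Nat.add (Nat.mul x.A y.T) (Nat.mul x.T y.A))))),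
    md (Nat.mul (Nat.mul 2 x.W) y.W),
    md (Nat.add (Nat.add (Nat.add (Nat.add (Nat.add (Nat.add (Nat.mul (Nat.mul 2 x.R) y.O) (Nat.mul (Nat.mul 2 x.O) y.R)) (Nat.mul (2 ^ 256) (Nat.add (Nat.mul (Nat.mul 4 x.A) y.R) (Nat.mul (Nat.mul 4 x.R) y.A)))) (Nat.mul ((2 ^ 256) ^ 2) (Nat.mul NG (Nat.add (Nat.mul (Nat.mul 2 x.A) y.T) (Nat.mul (Nat.mul 2 x.T) y.A))))) (Nat.mul ((2 ^ 256) ^ 3) (Nat.add (Nat.add (Nat.mul x.A y.O) (Nat.mul (Nat.mul 4 x.R) y.R)) (Nat.mul x.O y.A)))) (Nat.mul ((2 ^ 256) ^ 5) (Nat.add (Nat.add (Nat.mul x.A y.R) (Nat.mul x.R y.A)) (Nat.mul NG (Nat.add (Nat.mul x.T y.O) (Nat.mul x.O y.T)))))) (Nat.mul ((2 ^ 256) ^ 7) (Nat.add (Nat.mul (Nat.mul 2 x.A) y.A) (Nat.mul NG (Nat.add (Nat.mul (Nat.mul 2 x.R) y.T) (Nat.mul (Nat.mul 2 x.T) y.R)))))),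
    md (Nat.add (Nat.add (Nat.mul ((2 ^ 256) ^ 4) (Nat.add (Nat.add (Nat.mul x.A y.O) (Nat.mul x.O y.A)) (Nat.mul NG (Nat.mul (Nat.mul 4 x.R) y.R)))) (Nat.mul ((2 ^ 256) ^ 6) (Nat.mul NG (Nat.add (Nat.add (Nat.add (Nat.mul x.A y.R) (Nat.mul x.R y.A)) (Nat.mul x.T y.O)) (Nat.mul x.O y.T))))) (Nat.mul ((2 ^ 256) ^ 8) (Nat.mul NG (Nat.add (Nat.add (Nat.mul (Nat.mul 2 x.A) y.A) (Nat.mul (Nat.mul 2 x.R) y.T)) (Nat.mul (Nat.mul 2 x.T) y.R))))),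
    md (Nat.add (Nat.add (Nat.add (Nat.mul (Nat.mul 2 x.W) y.O) (Nat.mul (Nat.mul 2 x.O) y.W)) (Nat.mul ((2 ^ 256) ^ 3) (Nat.add (Nat.mul (Nat.mul 2 x.R) y.W) (Nat.mul (Nat.mul 2 x.W) y.R)))) (Nat.mul ((2 ^ 256) ^ 5) (Nat.add (Nat.mul x.A y.W) (Nat.mul x.W y.A)))),
    md (Nat.add (Nat.mul ((2 ^ 256) ^ 4) (Nat.mul NG (Nat.add (Nat.mul (Nat.mul 2 x.R) y.W) (Nat.mul (Nat.mul 2 x.W) y.R)))) (Nat.mul ((2 ^ 256) ^ 6) (Nat.mul NG (Nat.add (Nat.mul x.A y.W) (Nat.mul x.W y.A))))),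
    md (Nat.add (Nat.add (Nat.add (Nat.mul (Nat.mul 2 x.R) y.W) (Nat.mul (Nat.mul 2 x.W) y.R)) (Nat.mul ((2 ^ 256) ^ 3) (Nat.add (Nat.mul x.A y.W) (Nat.mul x.W y.A)))) (Nat.mul ((2 ^ 256) ^ 5) (Nat.mul NG (Nat.add (Nat.mul x.T y.W) (Nat.mul x.W y.T))))),
    md (Nat.add (Nat.mul ((2 ^ 256) ^ 4) (Nat.mul NG (Nat.add (Nat.mul x.A y.W) (Nat.mul x.W y.A)))) (Nat.mul ((2 ^ 256) ^ 6) (Nat.add (Nat.mul x.T y.W) (Nat.mul x.W y.T))))⟩ := rfl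

theorem rX (k : ℕ) : Rp ((2 ^ 256) ^ k) ((2 ^ 256) ^ k) := by
  have h := Rp.nat ((2 ^ 256) ^ k)
  push_cast at h
  exact h

theorem rX1 : Rp (2 ^ 256) (2 ^ 256) := by
  have h := Rp.nat (2 ^ 256)
  push_cast at h
  exact h

theorem r2 : Rp 2 2 := by
  have h := Rp.nat 2
  push_cast at h
  exact h
theorem r4 : Rp 4 4 := by
  have h := Rp.nat 4
  push_cast at h
  exact h
theorem r8 : Rp 8 8 := by
  have h := Rp.nat 8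
  push_cast at h
  exact h

theorem vp_rep {x y : Q4} {I J : Fin 5 → ℤ} (hx : Rq x I) (hy : Rq y J) :
    Rb (vp x y) (mu2 I J) := by
  obtain ⟨o, r, a, w, t⟩ := hx
  obtain ⟨o', r', a', w', t'⟩ := hy
  rw [vp_eq]
  refine ⟨?_, ?_, ?_, ?_, ?_, ?_, ?_, ?_, ?_⟩ <;>
  · apply rep_eq
    · apply Rp.md
      repeat' first
        | exact o | exact r | exact a | exact w | exact t
        | exact o' | exact r' | exact a' | exact w' | exact t'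
        | exact rX1 | exact rX 2 | exact rX 3 | exact rX 4 | exact rX 5 | exact rX 6
        | exact rX 7 | exact rX 8 | exact r2 | exact r4 | exact r8
        | apply Rp.neg | apply Rp.mul | apply Rp.add
    · simp only [mu2, un9, toH, toF, NBp, pk9, Matrix.cons_val_zero, Matrix.cons_val_one,
        Matrix.cons_val]
      generalize (2 : ℤ) ^ 256 = X
      ring

theorem bl2 : BL 0 (fun (x : Q4) (_ : Vt 0) => x) (fun (x : Q4) (_ : Vt 0) => x)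
    (fun (x : VR) (_ : Vt 0) => x) Rq Rq Rb (fun _ l => l = []) (fun _ l => l = [])
    (fun _ l => l = []) mu2 B0q := by
  have hq : ∀ {x y : Q4} {I J : Vt 0 → Fin 5 → ℤ},
      RT (fun (x : Q4) (_ : Vt 0) => x) Rq x I → RT (fun (x : Q4) (_ : Vt 0) => x) Rq y J →
      RT (fun (x : Q4) (_ : Vt 0) => x) Rq (qsub x y) (fun v => I v - J v) := by
    intro x y I J hx hy v
    obtain ⟨a1, a2, a3, a4, a5⟩ := hx v
    obtain ⟨b1, b2, b3, b4, b5⟩ := hy v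
    exact ⟨msub_rep a1 b1, msub_rep a2 b2, msub_rep a3 b3, msub_rep a4 b4, msub_rep a5 b5⟩
  refine ⟨hq, fun h _ => h, hq, fun h _ => h, ?_, fun h _ => h, ?_, fun h => h, ?_, ?_⟩
  · intro x y I J hx hy v
    obtain ⟨a1, a2, a3, a4, a5, a6, a7, a8, a9⟩ := hx v
    obtain ⟨b1, b2, b3, b4, b5, b6, b7, b8, b9⟩ := hy v
    exact ⟨a1.sub b1, a2.sub b2, a3.sub b3, a4.sub b4, a5.sub b5, a6.sub b6, a7.sub b7,
      a8.sub b8, a9.sub b9⟩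
  · intro x I hx v
    obtain ⟨a1, a2, a3, a4, a5, a6, a7, a8, a9⟩ := hx v
    exact ⟨a1.v4, a2.v4, a3.v4, a4.v4, a5.v4, a6.v4, a7.v4, a8.v4, a9.v4⟩
  · intro x y l l' I J hl hl' hx hy v
    subst hl hl'
    exact vp_rep (hx v) (hy v)
  · intro x y l l' hl hl'
    subst hl hl'
    rfl

theorem vadd_rep {x y : VR} {I J : Fin 9 → Fin 9 → ℤ} (hx : Rb x I) (hy : Rb y J) :
    Rb (vadd x y) (I + J) := by
  obtain ⟨a1, a2, a3, a4, a5, a6, a7, a8, a9⟩ := hx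
  obtain ⟨b1, b2, b3, b4, b5, b6, b7, b8, b9⟩ := hy
  exact ⟨a1.add b1, a2.add b2, a3.add b3, a4.add b4, a5.add b5, a6.add b6, a7.add b7,
    a8.add b8, a9.add b9⟩

/-- a constant multiplier of row KPD -/
theorem encV_Rb {V : VR} {O R A W T : ℤ} (h : EncV V O R A W T) :
    Rb V (fun k => toF (NBz O R A W T (un9 k))) := h

end Pool.Agent.Helper17.KPT
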