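import Pool.Agent.Helper17.CT.KPT3
import Pool.Agent.Helper90.CX.CT3

/-!
Row KPT of MP_c75db0 (tails), part 4: value functionals, the laws of zipP, F2, lk, Ps, Sv.
-/

set_option autoImplicit false
set_option exponentiation.threshold 4000
noncomputable section
namespace Pool.Agent.Helper17.KPT

open Pool.Agent.Helper86.C75 (Z)
open Pool.Agent.Helper86.CX (Hm P9 VR MM NG md psub ev andB Cx toM u32 kf psd)
open Pool.Agent.Helper86.CT (N3 Pr Bil nxB Q4 B0 B0q vp vsub vadd v4 msub m4 dot qsub Zp zp0 nxZ fa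
  fb fc F2 nxF Q2 F0 G0 H0 LK lk0 mkK0 Ad nxD lkN1 nxL Ps ps0 nxP Sv nxS bi un)
open Pool.Agent.Helper90.C75 (Vt mulT avg wtT bt Wts sum_Vt_succ)
open Pool.Agent.Helper90.KMO (zv cz)
open Pool.Agent.Helper90.KMT (mf0 nmf sgv KTab nlf lf0 c3)
open Pool.Agent.Helper17.PAK
open Pool.Agent.Helper21.KCE (Rp toM_rep)
open Complex ComplexConjugate

/-! ### the value of a form -/

/-- the nine quadratic monomials of a vector -/
def qz (z : Fin 3 → ℂ) : Fin 9 → ℝ :=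
  ![normSq (z 0), normSq (z 1), normSq (z 2), 2 * (conj (z 0) * z 1).re,
    -(2 * (conj (z 0) * z 1).im), 2 * (conj (z 0) * z 2).re, -(2 * (conj (z 0) * z 2).im),
    2 * (conj (z 1) * z 2).re, -(2 * (conj (z 1) * z 2).im)]

theorem ev_qz (K : Hm ℝ) (z : Fin 3 → ℂ) : ev K z = K.a * qz z 0 + K.b * qz z 1 + K.c * qz z 2 +
    K.d * qz z 3 + K.e * qz z 4 + K.f * qz z 5 + K.g * qz z 6 + K.h * qz z 7 + K.i * qz z 8 := by
  rw [ev_lin]
  simp only [qz, Matrix.cons_val_zero, Matrix.cons_val_one, Matrix.cons_val]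
  ring

/-- value of nine integers -/
def fz (z : Fin 3 → ℂ) : (Fin 9 → ℤ) →+ ℂ where
  toFun N := ∑ i, (N i : ℂ) * qz z i
  map_zero' := by simp
  map_add' f g := by
    rw [← Finset.sum_add_distrib]
    refine Finset.sum_congr rfl fun i _ => ?_
    rw [Pi.add_apply]
    push_cast
    ring

theorem fz_apply (z : Fin 3 → ℂ) (N : Fin 9 → ℤ) : fz z N = ∑ i, (N i : ℂ) * qz z i := rfl

theorem fz_ev (z : Fin 3 → ℂ) (N : Fin 9 → ℤ) : fz z N = ((ev (sc 1 (toH N)) z : ℝ) : ℂ) := by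
  rw [fz_apply, ev_qz, sum9]
  simp only [sc, toH, div_one]
  push_cast
  ring

theorem fz_toF (z : Fin 3 → ℂ) (N : Hm ℤ) : fz z (toF N) = ((ev (sc 1 N) z : ℝ) : ℂ) := by
  rw [fz_ev]
  rfl

/-- the coordinate functional -/
def cf {n : ℕ} (k : Fin n) : (Fin n → ℤ) →+ ℂ := (Int.castAddHom ℂ).comp (Pi.evalAddMonoidHom _ k)

theorem cf_apply {n : ℕ} (k : Fin n) (I : Fin n → ℤ) : cf k I = (I k : ℂ) := rfl

/-- the value of the multiplier `k` -/
def fk (z : Fin 3 → ℂ) (k : Fin 9) : (Fin 9 → Fin 9 → ℤ) →+ ℂ :=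
  (fz z).comp (Pi.evalAddMonoidHom _ k)

theorem fk_apply (z : Fin 3 → ℂ) (k : Fin 9) (J : Fin 9 → Fin 9 → ℤ) : fk z k J = fz z (J k) := rfl

theorem fz_mu1 (z : Fin 3 → ℂ) (I : Fin 9 → ℤ) (J : Fin 9 → Fin 9 → ℤ) :
    fz z (mu1 I J) = ∑ k, cf k I * fk z k J := by
  simp only [fk_apply, cf_apply, fz_apply, mu1]
  simp only [Finset.mul_sum]
  rw [Finset.sum_comm]
  refine Finset.sum_congr rfl fun i _ => ?_
  push_cast
  rw [Finset.sum_mul]
  refine Finset.sum_congr rfl fun k _ => ?_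
  ring

/-- the unit vectors of five -/
def e5 (a : Fin 5) : Fin 5 → ℤ := fun b => if b = a then 1 else 0

/-- the coefficients of the trilinear form of a run -/
def c5 (z : Fin 3 → ℂ) (k : Fin 9) (a b : Fin 5) : ℂ := fz z (toF (NBp (e5 a) (e5 b) (un9 k)))

/-- `c y_b` -/
def gf (c : ℂ) (b : Fin 5) : (Fin 5 → ℤ) →+ ℂ := (AddMonoidHom.mulLeft c).comp (cf b)

theorem gf_apply (c : ℂ) (b : Fin 5) (y : Fin 5 → ℤ) : gf c b y = c * (y b : ℂ) := rfl

theorem sum5 {M : Type*} [AddCommMonoid M] (f : Fin 5 → M) :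
    ∑ k, f k = f 0 + f 1 + f 2 + f 3 + f 4 := by
  rw [Fin.sum_univ_castSucc, Fin.sum_univ_four]
  rfl

/-- expansion of the polarised form in the unit vectors -/
theorem NBp_exp (x y : Fin 5 → ℤ) (P : Hm ℤ) (i : Fin 9) :
    toF (NBp x y P) i = ∑ a, ∑ b, x a * y b * toF (NBp (e5 a) (e5 b) P) i := by
  simp only [sum5]
  fin_cases i <;>
  · simp only [toF, NBp, e5, Matrix.cons_val_zero, Matrix.cons_val_one, Matrix.cons_val,
      Fin.isValue, Fin.zero_eta, Fin.mk_one, Fin.reduceFinMk]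
    simp
    ring

theorem fk_mu2 (z : Fin 3 → ℂ) (k : Fin 9) (x y : Fin 5 → ℤ) :
    fk z k (mu2 x y) = ∑ p : Fin 5 × Fin 5, cf p.1 x * gf (c5 z k p.1 p.2) p.2 y := by
  rw [Fintype.sum_prod_type]
  simp only [fk_apply, mu2, cf_apply, gf_apply, c5, fz_apply]
  simp only [NBp_exp x y]
  push_cast
  simp only [Finset.sum_mul, Finset.mul_sum]
  rw [Finset.sum_comm]
  refine Finset.sum_congr rfl fun a _ => ?_
  rw [Finset.sum_comm]
  refine Finset.sum_congr rfl fun b _ => Finset.sum_congr rfl fun i _ => ?_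
  ring

end Pool.Agent.Helper17.KPT
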