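import Pool.Agent.Helper17.CT.KPT4

/-!
Row KPT of MP_c75db0 (tails), part 5: the laws of zipP, F2, lk, Ps, Sv.
-/

set_option autoImplicit false
set_option exponentiation.threshold 4000
noncomputable section
namespace Pool.Agent.Helper17.KPT

open Pool.Agent.Helper86.C75 (Z)
open Pool.Agent.Helper86.CX (Hm P9 VR MM NG md psub ev andB Cx toM u32 kf psd)
open Pool.Agent.Helper86.CT (N3 Pr Bil nxB Q4 B0 B0q vp vsub vadd v4 msub m4 dot qsub Zp zp0 nxZ fa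
  fb fc F2 nxF Q2 F0 G0 H0 LK lk0 mkK0 Ad nxD lkN1 nxL Ps ps0 nxP Sv nxS bi un)
open Pool.Agent.Helper90.C75 (Vt mulT avg wtT bt Wts sum_Vt_succ)
open Pool.Agent.Helper90.KMO (zv cz)
open Pool.Agent.Helper90.KMT (mf0 nmf sgv KTab nlf lf0 c3)
open Pool.Agent.Helper17.PAK
open Pool.Agent.Helper21.KCE (Rp toM_rep)
open Complex ComplexConjugate

theorem andB3 {x y z : Bool} (h : andB x (andB y z) = true) : x = true ∧ y = true ∧ z = true := by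
  rw [andB_iff, andB_iff] at h
  exact h

/-! ### leaves of complex trees -/

theorem c3_ct {α : Type} (x : N3 α) : c3 x = ct x := by cases x <;> rfl

/-- leaves as complex numbers -/
def CL {α : Type} (D : ℕ) (lC : α → Vt D → Cx) (lf : α → Vt D → ℂ) : Prop :=
  ∀ x v, cz (lC x v) = lf x v

theorem CL.zero : CL 0 (fun (x : Cx) (_ : Vt 0) => x) lf0 := fun _ _ => rfl

theorem CL.step {α : Type} {D : ℕ} {lC : α → Vt D → Cx} {lf : α → Vt D → ℂ} (h : CL D lC lf) :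
    CL (D + 1) (lf3 lC) (nlf lf) := by
  intro x v
  show cz (lC (ct x v.2) v.1) = lf (c3 x v.2) v.1
  rw [h, c3_ct]

/-! ### zipP -/

/-- the laws of the zip of six trees -/
structure ZL {α β : Type} (D : ℕ) (lC : α → Vt D → Cx) (lp : β → Vt D → P9)
    (Sp : β → List Bool → Prop) (F : Zp α β) : Prop where
  lf : ∀ (r s t : ℕ) (a b c x y w : α) (v : Vt D), lp (F.z r s t a b c x y w) v =
    zp0 r s t (lC a v) (lC b v) (lC c v) (lC x v) (lC y v) (lC w v)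
  sh : ∀ (r s t : ℕ) (a b c x y w : α), Sp (F.z r s t a b c x y w) (List.replicate D true)

theorem ZL.zero : ZL 0 (fun (x : Cx) (_ : Vt 0) => x) (fun (x : P9) (_ : Vt 0) => x)
    (fun _ l => l = []) ⟨zp0⟩ :=
  ⟨fun _ _ _ _ _ _ _ _ _ _ => rfl, fun _ _ _ _ _ _ _ _ _ => rfl⟩

theorem ZL.step {α β : Type} {D : ℕ} {lC : α → Vt D → Cx} {lp : β → Vt D → P9}
    {Sp : β → List Bool → Prop} {F : Zp α β} (h : ZL D lC lp Sp F) :
    ZL (D + 1) (lf3 lC) (lf3 lp) (sh3 Sp) (nxZ F) := by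
  refine ⟨fun r s t a b c x y w v => ?_, fun r s t a b c x y w => ?_⟩
  · obtain ⟨u, i⟩ := v
    show lp (ct ((nxZ F).z r s t a b c x y w) i) u = zp0 r s t (lC (ct a i) u) (lC (ct b i) u)
      (lC (ct c i) u) (lC (ct x i) u) (lC (ct y i) u) (lC (ct w i) u)
    rw [← h.lf]
    fin_cases i
    · show lp (F.z r s t (fa a) (fa b) (fa c) (fa x) (fa y) (fa w)) u = _
      simp only [fa_ct]
      rfl
    · show lp (F.z r s t (fc a) (fc b) (fc c) (fc x) (fc y) (fc w)) u = _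
      simp only [fc_ct]
      rfl
    · show lp (F.z r s t (fb a) (fb b) (fb c) (fb x) (fb y) (fb w)) u = _
      simp only [fb_ct]
      rfl
  · exact ⟨h.sh _ _ _ _ _ _ _ _ _, h.sh _ _ _ _ _ _ _ _ _, h.sh _ _ _ _ _ _ _ _ _⟩

/-- the nine integers of a leaf -/
def pI (r s t : ℕ) (a b c x y w : Cx) : Fin 9 → ℤ :=
  ![zv a.re - r, zv b.re - s, zv c.re - t, zv x.re, zv x.im, zv y.re, zv y.im, zv w.re, zv w.im]

theorem zp0_rep (r s t : ℕ) (a b c x y w : Cx) : Ra (zp0 r s t a b c x y w)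
    (pI r s t a b c x y w) := by
  have key : ∀ (z : Z) (n : ℕ), Rep MM (Nat.add (toM z) (Nat.mul NG n)) (zv z - n) := by
    intro z n
    refine rep_eq (Rp.add (toM_rep z) (Rp.neg (Rp.nat n))) ?_
    ring
  exact ⟨key a.re r, key b.re s, key c.re t, toM_rep _, toM_rep _, toM_rep _, toM_rep _,
    toM_rep _, toM_rep _⟩

/-! ### F2 -/

theorem F2_step {α β γ : Type} {D : ℕ} {La Lb Lc A B C : Type} {la : α → Vt D → La}
    {lb : β → Vt D → Lb} {lc : γ → Vt D → Lc} {Ra : La → A → Prop} {Rb : Lb → B → Prop}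
    {Rc : Lc → C → Prop} {F : F2 α β γ} {g : A → B → C}
    (h : ∀ {x y I J}, RT la Ra x I → RT lb Rb y J → RT lc Rc (F.f x y) (fun v => g (I v) (J v)))
    {x : N3 α} {y : N3 β} {I : Vt (D + 1) → A} {J : Vt (D + 1) → B} (hx : RT (lf3 la) Ra x I)
    (hy : RT (lf3 lb) Rb y J) : RT (lf3 lc) Rc ((nxF F).f x y) (fun v => g (I v) (J v)) := by
  refine RT.of_slice fun i => ?_
  show RT lc Rc (ct (bi F.f x y) i) _
  rw [ct_bi]
  exact h (hx.slice i) (hy.slice i)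

theorem F2_shape {α β γ : Type} {Sa : α → List Bool → Prop} {Sb : β → List Bool → Prop}
    {Sc : γ → List Bool → Prop} {F : F2 α β γ}
    (h : ∀ {x y l l'}, Sa x l → Sb y l' → Sc (F.f x y) (or2 l l')) {x : N3 α} {y : N3 β}
    {l l' : List Bool} (hx : sh3 Sa x l) (hy : sh3 Sb y l') :
    sh3 Sc ((nxF F).f x y) (or2 l l') :=
  sh3.bi (S := Sa) (S' := Sb) (S'' := Sc) (f := F.f) (fun h1 h2 => h h1 h2) hx hy

/-! ### Ps and Sv -/

theorem ps_step {γ : Type} {D : ℕ} {lg : γ → Vt D → ℕ} {P : Ps γ}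
    (h : ∀ {u v w ca cb x y z}, P.t u v w ca cb x y z = true →
      ∀ q, ps0 u v w ca cb (lg x q) (lg y q) (lg z q) = true) {u v w ca cb : ℕ} {x y z : N3 γ}
    (H : (nxP P).t u v w ca cb x y z = true) (q : Vt (D + 1)) :
    ps0 u v w ca cb (lf3 lg x q) (lf3 lg y q) (lf3 lg z q) = true := by
  obtain ⟨p, i⟩ := q
  obtain ⟨h1, h2, h3⟩ := andB3 (show andB (P.t u v w ca cb (fa x) (fa y) (fa z))
    (andB (P.t u v w ca cb (fc x) (fc y) (fc z)) (P.t u v w ca cb (fb x) (fb y) (fb z))) = true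
    from H)
  rw [fa_ct, fa_ct, fa_ct] at h1
  rw [fc_ct, fc_ct, fc_ct] at h2
  rw [fb_ct, fb_ct, fb_ct] at h3
  show ps0 u v w ca cb (lg (ct x i) p) (lg (ct y i) p) (lg (ct z i) p) = true
  fin_cases i
  · exact h h1 p
  · exact h h2 p
  · exact h h3 p

theorem sv_step {p : Type} {D : ℕ} {lp : p → Vt D → P9} {S : Sv p}
    (h : ∀ {f : P9 → Bool} {x}, S.t f x = true → ∀ v, f (lp x v) = true) {f : P9 → Bool}
    {x : N3 p} (H : (nxS S).t f x = true) (v : Vt (D + 1)) : f (lf3 lp x v) = true := by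
  obtain ⟨u, i⟩ := v
  obtain ⟨h1, h2, h3⟩ := andB3 (show andB (S.t f (fa x)) (andB (S.t f (fc x)) (S.t f (fb x))) =
    true from H)
  rw [fa_ct] at h1
  rw [fc_ct] at h2
  rw [fb_ct] at h3
  show f (lp (ct x i) u) = true
  fin_cases i
  · exact h h1 u
  · exact h h2 u
  · exact h h3 u

/-! ### lk -/

theorem ad_step {γ : Type} {D : ℕ} {lg : γ → Vt D → ℕ} {A : Ad γ}
    (h : ∀ {x y I J}, RT lg Rc x I → RT lg Rc y J → RT lg Rc (A.ad x y) (fun v => I v + J v))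
    {x y : N3 γ} {I J : Vt (D + 1) → Fin 9 → ℤ} (hx : RT (lf3 lg) Rc x I)
    (hy : RT (lf3 lg) Rc y J) : RT (lf3 lg) Rc ((nxD A).ad x y) (fun v => I v + J v) := by
  refine RT.of_slice fun i => ?_
  show RT lg Rc (ct (bi A.ad x y) i) _
  rw [ct_bi]
  exact h (hx.slice i) (hy.slice i)

/-- all nine integers are bounded -/
def Bf (b : ℤ) (N : Fin 9 → ℤ) : Prop := ∀ i, |N i| ≤ b

theorem Bf.bd {b : ℤ} {N : Fin 9 → ℤ} (h : Bf b N) : Bd b (toH N) :=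
  ⟨h 0, h 1, h 2, h 3, h 4, h 5, h 6, h 7, h 8⟩

theorem Bf.mono {b c : ℤ} {N : Fin 9 → ℤ} (h : Bf b N) (hc : b ≤ c) : Bf c N :=
  fun i => (h i).trans hc

theorem Bf.add {b c : ℤ} {M N : Fin 9 → ℤ} (hM : Bf b M) (hN : Bf c N) : Bf (b + c) (M + N) :=
  fun i => (abs_add_le _ _).trans (add_le_add (hM i) (hN i))

theorem Bf.sub {b c : ℤ} {M N : Fin 9 → ℤ} (hM : Bf b M) (hN : Bf c N) : Bf (b + c) (M - N) :=
  fun i => (abs_sub _ _).trans (add_le_add (hM i) (hN i))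

/-- the laws of the trees `lk` -/
structure LL {β γ : Type} (D : ℕ) (mf : (ℕ → ℝ) → β → (ℕ → ℝ) → ℝ) (lg : γ → Vt D → ℕ)
    (L : LK β γ) : Prop where
  ex : ∀ (k l : ℕ) (T S : β), ∃ N : Vt D → Fin 9 → ℤ, RT lg Rc (L.lk k l T S) N ∧
    (∀ v, Bf (2 ^ D * 2 ^ 63) (N v)) ∧ ∀ (t : ℕ → ℝ) (i : Fin 9),
      ∑ v, wtT D t v * (N v i : ℝ) = -(2 ^ D * (mf (fun x => (u32 x (Nat.mul 32 l) : ℝ)) S t *
        mf (fun x => (toF (kz (kf x k)) i : ℝ)) T t))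

theorem LL.step {β γ : Type} {D : ℕ} {mf : (ℕ → ℝ) → β → (ℕ → ℝ) → ℝ} {lg : γ → Vt D → ℕ}
    {L : LK β γ} {A : Ad γ} (h : LL D mf lg L)
    (hA : ∀ {x y I J}, RT lg Rc x I → RT lg Rc y J → RT lg Rc (A.ad x y) (fun v => I v + J v)) :
    LL (D + 1) (nmf D mf) (lf3 lg) (nxL A L) := by
  refine ⟨fun k l T S => ?_⟩
  obtain ⟨X, x1, x2, x3⟩ := h.ex k l T.a S.a
  obtain ⟨Y, y1, y2, y3⟩ := h.ex k l T.b S.a
  obtain ⟨W, w1, w2, w3⟩ := h.ex k l T.a S.b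
  obtain ⟨V, v1, v2, v3⟩ := h.ex k l T.b S.b
  have hpow : (2 : ℤ) ^ (D + 1) * 2 ^ 63 = 2 ^ D * 2 ^ 63 + 2 ^ D * 2 ^ 63 := by rw [pow_succ]; ring
  refine ⟨fun v => (![fun u => X u + X u, fun u => Y u + W u, fun u => V u + V u] :
    Fin 3 → Vt D → Fin 9 → ℤ) v.2 v.1, ?_, ?_, ?_⟩
  · refine RT.of_slice fun i => ?_
    fin_cases i
    · exact hA x1 x1
    · exact hA y1 w1
    · exact hA v1 v1
  · rintro ⟨u, i⟩
    rw [hpow]
    fin_cases i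
    · exact (x2 u).add (x2 u)
    · exact (y2 u).add (w2 u)
    · exact (v2 u).add (v2 u)
  · intro t i
    rw [sum_Vt_succ]
    have e : ∀ v : Vt D, ∑ j : Fin 3, wtT (D + 1) t (v, j) *
        (((![fun u => X u + X u, fun u => Y u + W u, fun u => V u + V u] :
          Fin 3 → Vt D → Fin 9 → ℤ) (v, j).2 (v, j).1 i : ℤ) : ℝ) =
        2 * (1 - t D) ^ 2 * (wtT D t v * (X v i : ℝ)) +
        2 * t D * (1 - t D) * (wtT D t v * (Y v i : ℝ) + wtT D t v * (W v i : ℝ)) +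
        2 * t D ^ 2 * (wtT D t v * (V v i : ℝ)) := by
      intro v
      rw [Fin.sum_univ_three]
      show wtT D t v * bt (t D) 0 * ((X v i + X v i : ℤ) : ℝ) +
        wtT D t v * bt (t D) 1 * ((Y v i + W v i : ℤ) : ℝ) +
        wtT D t v * bt (t D) 2 * ((V v i + V v i : ℤ) : ℝ) = _
      simp only [bt, Matrix.cons_val_zero, Matrix.cons_val_one, Matrix.cons_val]
      push_cast
      ring
    rw [Finset.sum_congr rfl fun v _ => e v]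
    simp only [Finset.sum_add_distrib, ← Finset.mul_sum]
    rw [x3, y3, w3, v3]
    simp only [nmf]
    ring

/-! ### level zero -/

theorem mkK0_eq (K : ℕ) : mkK0 K = Nat.sub (2 ^ 2304 + (2 ^ 31 + 2 ^ 31 * 2 ^ 256 +
    2 ^ 31 * (2 ^ 256) ^ 2 + 2 ^ 31 * (2 ^ 256) ^ 3 + 2 ^ 31 * (2 ^ 256) ^ 4 +
    2 ^ 31 * (2 ^ 256) ^ 5 + 2 ^ 31 * (2 ^ 256) ^ 6 + 2 ^ 31 * (2 ^ 256) ^ 7 +
    2 ^ 31 * (2 ^ 256) ^ 8)) (Nat.add (Nat.add (Nat.add (Nat.add (Nat.add (Nat.add (Nat.add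
      (Nat.add (Nat.mod K 4294967296) (Nat.mul (2 ^ 256) (u32 K 32)))
      (Nat.mul ((2 ^ 256) ^ 2) (u32 K 64))) (Nat.mul ((2 ^ 256) ^ 3) (u32 K 96)))
      (Nat.mul ((2 ^ 256) ^ 4) (u32 K 128))) (Nat.mul ((2 ^ 256) ^ 5) (u32 K 160)))
      (Nat.mul ((2 ^ 256) ^ 6) (u32 K 192))) (Nat.mul ((2 ^ 256) ^ 7) (u32 K 224)))
      (Nat.mul ((2 ^ 256) ^ 8) (u32 K 256))) := rfl

theorem mkK0_rep (K : ℕ) : Rc (mkK0 K) (fun i => -toF (kz K) i) := by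
  have h1 : ∀ k, u32 K k ≤ 2 ^ 32 - 1 := fun k => Nat.le_sub_one_of_lt (u32_lt K k)
  rw [mkK0_eq, ← u32_zero]
  have g0 := h1 0
  have g1 := h1 32
  have g2 := h1 64
  have g3 := h1 96
  have g4 := h1 128
  have g5 := h1 160
  have g6 := h1 192
  have g7 := h1 224
  have g8 := h1 256
  unfold Rc PAK.Rep
  simp only [toF, kz, pk9, toH, Matrix.cons_val_zero, Matrix.cons_val_one, Matrix.cons_val]
  generalize u32 K 0 = a0 at *
  generalize u32 K 32 = a1 at *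
  generalize u32 K 64 = a2 at *
  generalize u32 K 96 = a3 at *
  generalize u32 K 128 = a4 at *
  generalize u32 K 160 = a5 at *
  generalize u32 K 192 = a6 at *
  generalize u32 K 224 = a7 at *
  generalize u32 K 256 = a8 at *
  clear h1
  have e : Nat.add (Nat.add (Nat.add (Nat.add (Nat.add (Nat.add (Nat.add
      (Nat.add a0 (Nat.mul (2 ^ 256) a1))
      (Nat.mul ((2 ^ 256) ^ 2) a2)) (Nat.mul ((2 ^ 256) ^ 3) a3))
      (Nat.mul ((2 ^ 256) ^ 4) a4)) (Nat.mul ((2 ^ 256) ^ 5) a5))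
      (Nat.mul ((2 ^ 256) ^ 6) a6)) (Nat.mul ((2 ^ 256) ^ 7) a7))
      (Nat.mul ((2 ^ 256) ^ 8) a8) = a0 + 2 ^ 256 * a1 + (2 ^ 256) ^ 2 * a2 +
      (2 ^ 256) ^ 3 * a3 + (2 ^ 256) ^ 4 * a4 + (2 ^ 256) ^ 5 * a5 + (2 ^ 256) ^ 6 * a6 +
      (2 ^ 256) ^ 7 * a7 + (2 ^ 256) ^ 8 * a8 := rfl
  rw [e]
  have hle : a0 + 2 ^ 256 * a1 + (2 ^ 256) ^ 2 * a2 +
      (2 ^ 256) ^ 3 * a3 + (2 ^ 256) ^ 4 * a4 + (2 ^ 256) ^ 5 * a5 + (2 ^ 256) ^ 6 * a6 +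
      (2 ^ 256) ^ 7 * a7 + (2 ^ 256) ^ 8 * a8 ≤ 2 ^ 2304 + (2 ^ 31 + 2 ^ 31 * 2 ^ 256 +
    2 ^ 31 * (2 ^ 256) ^ 2 + 2 ^ 31 * (2 ^ 256) ^ 3 + 2 ^ 31 * (2 ^ 256) ^ 4 +
    2 ^ 31 * (2 ^ 256) ^ 5 + 2 ^ 31 * (2 ^ 256) ^ 6 + 2 ^ 31 * (2 ^ 256) ^ 7 +
    2 ^ 31 * (2 ^ 256) ^ 8) := by
    have t1 : a0 + 2 ^ 256 * a1 + (2 ^ 256) ^ 2 * a2 +
      (2 ^ 256) ^ 3 * a3 + (2 ^ 256) ^ 4 * a4 + (2 ^ 256) ^ 5 * a5 + (2 ^ 256) ^ 6 * a6 +
      (2 ^ 256) ^ 7 * a7 + (2 ^ 256) ^ 8 * a8 ≤ (2 ^ 32 - 1) + 2 ^ 256 * (2 ^ 32 - 1) +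
      (2 ^ 256) ^ 2 * (2 ^ 32 - 1) + (2 ^ 256) ^ 3 * (2 ^ 32 - 1) + (2 ^ 256) ^ 4 * (2 ^ 32 - 1) +
      (2 ^ 256) ^ 5 * (2 ^ 32 - 1) + (2 ^ 256) ^ 6 * (2 ^ 32 - 1) +
      (2 ^ 256) ^ 7 * (2 ^ 32 - 1) + (2 ^ 256) ^ 8 * (2 ^ 32 - 1) := by
      gcongr
    refine t1.trans ?_
    decide +kernel
  have e2 : ∀ a b : ℕ, b ≤ a → ((Nat.sub a b : ℕ) : ℤ) = (a : ℤ) - b := by
    intro a b h
    exact Nat.cast_sub h
  rw [e2 _ _ hle]
  have e3 : (MM : ℤ) = 2 ^ 2304 := by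
    rw [MM_eq]
    push_cast
  rw [e3]
  refine (Int.modEq_iff_dvd.2 ⟨-1, ?_⟩)
  push_cast
  generalize (2 : ℤ) ^ 2304 = Y
  generalize (2 : ℤ) ^ 256 = X
  ring

theorem toF_bd (K : ℕ) (i : Fin 9) : |toF (kz K) i| ≤ 2 ^ 31 := by
  obtain ⟨h0, h1, h2, h3, h4, h5, h6, h7, h8⟩ := kz_bd K
  fin_cases i
  · exact h0
  · exact h1
  · exact h2
  · exact h3
  · exact h4
  · exact h5
  · exact h6
  · exact h7
  · exact h8

theorem LL.zero : LL 0 mf0 (fun (x : ℕ) (_ : Vt 0) => x) ⟨lk0⟩ := by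
  refine ⟨fun k l T S => ⟨fun _ i => (u32 S (Nat.mul 32 l) : ℤ) * (-toF (kz (kf T k)) i), ?_, ?_,
    ?_⟩⟩
  · intro v
    have h := Rp.mul (Rp.nat (u32 S (Nat.mul 32 l))) (mkK0_rep (kf T k))
    rw [pk9_toH_smul] at h
    exact h
  · intro v i
    have h1 : |(u32 S (Nat.mul 32 l) : ℤ)| ≤ 2 ^ 32 := by
      have := u32_lt S (Nat.mul 32 l)
      rw [Nat.abs_cast]
      exact_mod_cast this.le
    have h2 : |-toF (kz (kf T k)) i| ≤ 2 ^ 31 := by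
      rw [abs_neg]; exact toF_bd _ _
    have h3 := abs_mul_le h1 h2
    refine h3.trans (by norm_num)
  · intro t i
    have e : ∀ f : Vt 0 → ℝ, ∑ v, f v = f () := fun f => Finset.sum_singleton _ _
    rw [e]
    show (1 : ℝ) * _ = _
    simp only [mf0]
    push_cast
    ring

theorem ad_zero {x y : ℕ} {I J : Vt 0 → Fin 9 → ℤ} (hx : RT (fun (x : ℕ) (_ : Vt 0) => x) Rc x I)
    (hy : RT (fun (x : ℕ) (_ : Vt 0) => x) Rc y J) :
    RT (fun (x : ℕ) (_ : Vt 0) => x) Rc (Helper86.CT.D0.ad x y) (fun v => I v + J v) :=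
  fun v => (hx v).add (hy v)

end Pool.Agent.Helper17.KPT
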