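import Pool.Agent.Helper17.CT.KPT5

/-!
Row KPT of MP_c75db0 (tails), part 6: the test of one source.
-/

set_option autoImplicit false
set_option exponentiation.threshold 4000
noncomputable section
namespace Pool.Agent.Helper17.KPT

open Pool.Agent.Helper86.C75 (Z)
open Pool.Agent.Helper86.CX (Hm P9 VR MM NG md psub ev andB Cx toM u32 kf psd SE)
open Pool.Agent.Helper86.CT
open Pool.Agent.Helper90.C75 (Vt mulT avg wtT bt Wts sum_Vt_succ)
open Pool.Agent.Helper90.KMO (zv cz)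
open Pool.Agent.Helper90.KMT (mf0 nmf sgv KTab nlf lf0 c3)
open Pool.Agent.Helper17.PAK
open Pool.Agent.Helper21.KCE (Rp toM_rep)
open Complex ComplexConjugate

/-- the laws of a machine of depth `D` -/
structure MK {α β p v γ : Type} (D : ℕ) (lC : α → Vt D → Cx) (lf : α → Vt D → ℂ)
    (mf : (ℕ → ℝ) → β → (ℕ → ℝ) → ℝ) (lp : p → Vt D → P9) (lv : v → Vt D → VR)
    (lg : γ → Vt D → ℕ) (Sp : p → List Bool → Prop) (Sv : v → List Bool → Prop)
    (Sg : γ → List Bool → Prop) (M : Mc α β p v γ) : Prop where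
  cl : CL D lC lf
  z : ZL D lC lp Sp M.Z
  b : BL D lp lv lg Ra Rb Rc Sp Sv Sg mu1 M.B
  l : LL D mf lg M.L
  p : ∀ {u v w ca cb x y z}, M.P.t u v w ca cb x y z = true →
    ∀ q, ps0 u v w ca cb (lg x q) (lg y q) (lg z q) = true
  s : M.s = 2 ^ D
  hD : D ≤ 4

/-- a run: the laws of the tree of multipliers -/
structure VK {v : Type} (D : ℕ) (lv : v → Vt D → VR) (Sv : v → List Bool → Prop) (V : VO v)
    (J : Vt D → Fin 9 → Fin 9 → ℤ) (l : List Bool) : Prop where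
  r : RT lv Rb V.V J
  s : Sv V.V l
  f : FSh D l J
  b : ∀ u k, Bf (2 ^ 130) (J u k)
  c : V.ca + V.cb ≤ 4
  g : V.sg ≤ 128

/-- the integers of the leaves of the tree of a form -/
def PI {α : Type} {D : ℕ} (lC : α → Vt D → Cx) (P : KM α) (v : Vt D) : Fin 9 → ℤ :=
  pI (P.a.r + P.x.r + P.y.r) (P.b.r + P.x.r + P.w.r) (P.c.r + P.y.r + P.w.r) (lC P.a.v v)
    (lC P.b.v v) (lC P.c.v v) (lC P.x.v v) (lC P.y.v v) (lC P.w.v v)

section

variable {α β p v γ : Type} {D : ℕ} {lC : α → Vt D → Cx} {lf : α → Vt D → ℂ}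
  {mf : (ℕ → ℝ) → β → (ℕ → ℝ) → ℝ} {lp : p → Vt D → P9} {lv : v → Vt D → VR}
  {lg : γ → Vt D → ℕ} {Sp : p → List Bool → Prop} {Sv : v → List Bool → Prop}
  {Sg : γ → List Bool → Prop} {M : Mc α β p v γ}

theorem zipP_rt (hM : MK D lC lf mf lp lv lg Sp Sv Sg M) (P : KM α) :
    RT lp Ra (zipP M.Z P) (PI lC P) := by
  intro u
  show Ra (lp (M.Z.z _ _ _ _ _ _ _ _ _) u) _
  rw [hM.z.lf]
  exact zp0_rep _ _ _ _ _ _ _ _ _

theorem zipP_sh (hM : MK D lC lf mf lp lv lg Sp Sv Sg M) (P : KM α) :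
    Sp (zipP M.Z P) (List.replicate D true) := hM.z.sh _ _ _ _ _ _ _ _ _

theorem FSh.len {A : Type} {D : ℕ} {l : List Bool} {I : Vt D → A} (h : FSh D l I) :
    l.length = D := by
  induction D generalizing l with
  | zero => cases l with
    | nil => rfl
    | cons b l => exact h.elim
  | succ D ih => cases l with
    | nil => exact h.elim
    | cons b l => rw [List.length_cons, ih (h.slice 0)]

theorem and2_true {D : ℕ} {l : List Bool} (h : l.length = D) :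
    and2 (List.replicate D true) l = l := by
  induction D generalizing l with
  | zero => cases l with
    | nil => rfl
    | cons b l => cases h
  | succ D ih => cases l with
    | nil => cases h
    | cons b l =>
      show (true && b) :: and2 (List.replicate D true) l = b :: l
      rw [ih (by simpa using h), Bool.true_and]

/-- the form of a leaf of the product -/
def NI (D : ℕ) (l : List Bool) (I : Vt D → Fin 9 → ℤ) (J : Vt D → Fin 9 → Fin 9 → ℤ) :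
    Vt D → Fin 9 → ℤ := mulZ mu1 D l I J

theorem mu_rt (hM : MK D lC lf mf lp lv lg Sp Sv Sg M) {V : VO v}
    {J : Vt D → Fin 9 → Fin 9 → ℤ} {l : List Bool} (hV : VK D lv Sv V J l) (P : KM α) :
    RT lg Rc (M.B.mu (zipP M.Z P) V.V) (NI D l (PI lC P) J) := by
  have h := hM.b.mu (zipP_sh hM P) hV.s (zipP_rt hM P) hV.r
  rw [and2_true hV.f.len] at h
  exact h

/-- the value of a leaf of the product -/
theorem NI_val {J : Vt D → Fin 9 → Fin 9 → ℤ} {l : List Bool} (I : Vt D → Fin 9 → ℤ)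
    (hf : FSh D l J) (z : Fin 3 → ℂ) (u : Vt D) : fz z (NI D l I J u) =
      4 ^ cnt l * ∑ k, mulT D (fun u => (I u k : ℂ)) (fun u => fz z (J u k)) u := by
  have h := eval_mulZ (fz_mu1 z) (FSh.true_all D I) hf u
  rw [and2_true hf.len] at h
  exact h

theorem mu1_bd {a b : ℤ} {I : Fin 9 → ℤ} {J : Fin 9 → Fin 9 → ℤ} (hI : Bf a I)
    (hJ : ∀ k, Bf b (J k)) : Bf (9 * (a * b)) (mu1 I J) := by
  intro j
  have h : |∑ k, I k * J k j| ≤ ∑ k : Fin 9, a * b :=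
    (Finset.abs_sum_le_sum_abs _ _).trans (Finset.sum_le_sum fun k _ => abs_mul_le (hI k) (hJ k j))
  refine h.trans ?_
  rw [Finset.sum_const, Finset.card_univ, Fintype.card_fin]
  simp

theorem NI_bd {J : Vt D → Fin 9 → Fin 9 → ℤ} {l : List Bool} {I : Vt D → Fin 9 → ℤ} {a b : ℤ}
    (ha : 0 ≤ a) (hb : 0 ≤ b) (hI : ∀ u, Bf a (I u)) (hJ : ∀ u k, Bf b (J u k)) (u : Vt D) :
    Bf (8 ^ D * (9 * (a * b))) (NI D l I J u) := by
  refine mulZ_bd (NA := Bf) (NB := fun b J => ∀ k, Bf b (J k)) (NC := Bf) ?_ ?_ ?_ ?_ ?_ ?_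
    (by norm_num) ha hb hI hJ u
  · intro a x y hx hy
    have := Bf.sub hx hy
    rw [← two_mul] at this
    exact this
  · intro a x y hx hy k
    have := Bf.sub (hx k) (hy k)
    rw [← two_mul] at this
    exact this
  · intro a a' x y hx hy
    exact Bf.sub hx hy
  · intro a x hx i
    show |(4 : ℤ) * x i| ≤ 4 * a
    rw [abs_mul]
    have h4 : |(4 : ℤ)| = 4 := by norm_num
    rw [h4]
    have := hx i
    linarith
  · intro a a' x hx h
    exact hx.mono h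
  · intro a b x y hx hy
    exact mu1_bd hx hy

/-! ### the word `w` -/

theorem w_eq (e : ℕ) : (Nat.add (nat_lit 1871026825446066716183999886769161229612964411763787934673629221857388127239586241236997880575614864626694998997878668093460198064341887307173708030584713089751434338833145753991855834341641635817078791323944486323653560896858453107221646736647080365267476951252133001328457872097694522420600377928767186716688278330708865686161029267144657449407487701311690973716443035965661022999314253327687828776410995801788781156965587263609715326599328293187017518987303885722372280682885301503915558342964973492047287451599068995659787742790895207638722168769866005616869112421885399924975074859139562836571418106717640748641020347763944440483085523393832772204956743819877359460055035121445025236385792) (Nat.mul NG (Nat.mul e (nat_lit 13407807929942597099574024998205846127479365820592393377723561443721764030073662768891111614362326998675040546094339320838419523375986027530441562135724033))))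 =
    Nat.add (2 ^ 255 + 2 ^ 255 * 2 ^ 256 + 2 ^ 255 * (2 ^ 256) ^ 2 + 2 ^ 255 * (2 ^ 256) ^ 3 +
      2 ^ 255 * (2 ^ 256) ^ 4 + 2 ^ 255 * (2 ^ 256) ^ 5 + 2 ^ 255 * (2 ^ 256) ^ 6 +
      2 ^ 255 * (2 ^ 256) ^ 7 + 2 ^ 255 * (2 ^ 256) ^ 8)
      (Nat.mul NG (Nat.mul e (1 + 2 ^ 256 + (2 ^ 256) ^ 2))) := rfl

theorem w_rep (e : ℕ) : Rp (Nat.add (2 ^ 255 + 2 ^ 255 * 2 ^ 256 + 2 ^ 255 * (2 ^ 256) ^ 2 +
      2 ^ 255 * (2 ^ 256) ^ 3 +
      2 ^ 255 * (2 ^ 256) ^ 4 + 2 ^ 255 * (2 ^ 256) ^ 5 + 2 ^ 255 * (2 ^ 256) ^ 6 +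
      2 ^ 255 * (2 ^ 256) ^ 7 + 2 ^ 255 * (2 ^ 256) ^ 8)
      (Nat.mul NG (Nat.mul e (1 + 2 ^ 256 + (2 ^ 256) ^ 2))))
    (pk9 (2 ^ 256) (addH (idH (-(e : ℤ))) (cstH (2 ^ 255)))) := by
  have h1 := Rp.nat (2 ^ 255 + 2 ^ 255 * 2 ^ 256 + 2 ^ 255 * (2 ^ 256) ^ 2 +
      2 ^ 255 * (2 ^ 256) ^ 3 +
      2 ^ 255 * (2 ^ 256) ^ 4 + 2 ^ 255 * (2 ^ 256) ^ 5 + 2 ^ 255 * (2 ^ 256) ^ 6 +
      2 ^ 255 * (2 ^ 256) ^ 7 + 2 ^ 255 * (2 ^ 256) ^ 8)
  have h2 := Rp.nat (1 + 2 ^ 256 + (2 ^ 256) ^ 2)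
  have h3 := Rp.add h1 (Rp.neg (Rp.mul (Rp.nat e) h2))
  refine rep_eq h3 ?_
  simp only [pk9, addH, idH, cstH]
  push_cast
  generalize (2 : ℤ) ^ 256 = X
  generalize (2 : ℤ) ^ 255 = Y
  ring

/-! ### the test at a leaf -/

/-- the real value of nine integers -/
def rz (z : Fin 3 → ℂ) (N : Fin 9 → ℤ) : ℝ := ∑ i, (N i : ℝ) * qz z i

theorem fz_rz (z : Fin 3 → ℂ) (N : Fin 9 → ℤ) : fz z N = (rz z N : ℂ) := by
  rw [fz_apply, rz]
  push_cast
  rfl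

/-- the integers of the leaf of the test -/
def HI (u v ca cb : ℕ) (N X Y : Fin 9 → ℤ) : Fin 9 → ℤ :=
  fun i => u * N i + v * (ca * X i + cb * Y i)

theorem nrm_qz (z : Fin 3 → ℂ) : nrm z = qz z 0 + qz z 1 + qz z 2 := rfl

theorem ev_HI (z : Fin 3 → ℂ) (e : ℤ) (F : Fin 9 → ℤ) :
    ev (sc 1 (addH (toH F) (idH (-e)))) z = rz z F - e * nrm z := by
  rw [ev_qz, nrm_qz, rz, sum9]
  simp only [sc, addH, idH, toH, div_one]
  push_cast
  ring

theorem ps0_leaf {u v e ca cb x y z : ℕ} {N X Y : Fin 9 → ℤ} (hN : Rc x N) (hX : Rc y X)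
    (hY : Rc z Y) (hb : Bf (2 ^ 250) (HI u v ca cb N X Y)) (he : e ≤ 2 ^ 200)
    (h : ps0 u v (Nat.add (2 ^ 255 + 2 ^ 255 * 2 ^ 256 + 2 ^ 255 * (2 ^ 256) ^ 2 +
      2 ^ 255 * (2 ^ 256) ^ 3 +
      2 ^ 255 * (2 ^ 256) ^ 4 + 2 ^ 255 * (2 ^ 256) ^ 5 + 2 ^ 255 * (2 ^ 256) ^ 6 +
      2 ^ 255 * (2 ^ 256) ^ 7 + 2 ^ 255 * (2 ^ 256) ^ 8)
      (Nat.mul NG (Nat.mul e (1 + 2 ^ 256 + (2 ^ 256) ^ 2)))) ca cb x y z = true)
    (w : Fin 3 → ℂ) : 0 ≤ rz w (HI u v ca cb N X Y) - e * nrm w := by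
  have h1 := Rp.add (Rp.add (Rp.mul (Rp.nat u) hN) (Rp.mul (Rp.nat v)
    (Rp.add (Rp.mul (Rp.nat ca) hX) (Rp.mul (Rp.nat cb) hY)))) (w_rep e)
  have h2 := rep_eq (y := pk9 (2 ^ 256) (addH (addH (toH (HI u v ca cb N X Y)) (idH (-(e : ℤ))))
      (cstH (2 ^ 255)))) h1 (by
    simp only [pk9, addH, idH, cstH, toH, HI]
    generalize (2 : ℤ) ^ 256 = X
    generalize (2 : ℤ) ^ 255 = Y
    ring)
  have h3 : Bd (2 ^ 255 - 1) (addH (toH (HI u v ca cb N X Y)) (idH (-(e : ℤ)))) := by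
    have he' : |-(e : ℤ)| ≤ 2 ^ 200 := by
      rw [abs_neg, Nat.abs_cast]
      exact_mod_cast he
    have h0 : |(0 : ℤ)| ≤ 2 ^ 200 := by norm_num
    have h4 : Bd (2 ^ 200) (idH (-(e : ℤ))) := ⟨he', he', he', h0, h0, h0, h0, h0, h0⟩
    exact (hb.bd.add h4).mono (by norm_num)
  have h5 := PDz_ev (psd_sound h2 h3 h) w
  rw [ev_HI] at h5
  exact h5

/-- THE TEST OF ONE SOURCE -/
theorem chS_leaf (hM : MK D lC lf mf lp lv lg Sp Sv Sg M) {V : VO v}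
    {J : Vt D → Fin 9 → Fin 9 → ℤ} {l : List Bool} (hV : VK D lv Sv V J l) {P : KM α}
    (hP : ∀ u, Bf (2 ^ 64) (PI lC P u)) {e : ℕ} (he : e ≤ 2 ^ 200) {KT LT : β} {x : SE}
    (h : chS M KT LT V e (M.B.mu (zipP M.Z P) V.V) x = true) :
    ∃ X Y : Vt D → Fin 9 → ℤ,
      (∀ (t : ℕ → ℝ) (i : Fin 9), ∑ u, wtT D t u * (X u i : ℝ) =
        -(2 ^ D * (mf (fun y => (u32 y (Nat.mul 32 x.l) : ℝ)) LT t *
          mf (fun y => (toF (kz (kf y x.k)) i : ℝ)) KT t))) ∧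
      (∀ (t : ℕ → ℝ) (i : Fin 9), ∑ u, wtT D t u * (Y u i : ℝ) =
        -(2 ^ D * (mf (fun y => (u32 y (Nat.mul 32 (Nat.add x.l V.dl)) : ℝ)) LT t *
          mf (fun y => (toF (kz (kf y x.k)) i : ℝ)) KT t))) ∧
      ∀ (w : Fin 3 → ℂ) (u : Vt D), 0 ≤ rz w (HI ((V.ca + V.cb) * 2 ^ D) (V.sg * 2 ^ 100) V.ca V.cb
        (NI D l (PI lC P) J u) (X u) (Y u)) - e * nrm w := by
  obtain ⟨X, x1, x2, x3⟩ := hM.l.ex x.k x.l KT LT
  obtain ⟨Y, y1, y2, y3⟩ := hM.l.ex x.k (Nat.add x.l V.dl) KT LT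
  refine ⟨X, Y, x3, y3, fun w u => ?_⟩
  have h1 := hM.p h u
  rw [w_eq] at h1
  have hs : (Nat.mul (Nat.add V.ca V.cb) M.s) = (V.ca + V.cb) * 2 ^ D := by
    rw [hM.s]; rfl
  have hg : Nat.mul V.sg (nat_lit 1267650600228229401496703205376) = V.sg * 2 ^ 100 := rfl
  rw [hs, hg] at h1
  refine ps0_leaf (mu_rt hM hV P u) (x1 u) (y1 u) ?_ he h1 w
  -- the bound
  have hD := hM.hD
  have p8 : (8 : ℤ) ^ D ≤ 2 ^ 12 := by
    calc (8 : ℤ) ^ D ≤ 8 ^ 4 := pow_le_pow_right₀ (by norm_num) hD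
      _ = 2 ^ 12 := by norm_num
  have p2 : (2 : ℤ) ^ D ≤ 2 ^ 4 := pow_le_pow_right₀ (by norm_num) hD
  have n1 : Bf (2 ^ 210) (NI D l (PI lC P) J u) := by
    refine (NI_bd (l := l) (a := 2 ^ 64) (b := 2 ^ 130) (by norm_num) (by norm_num) hP hV.b
      u).mono ?_
    calc (8 : ℤ) ^ D * (9 * (2 ^ 64 * 2 ^ 130)) ≤ 2 ^ 12 * (9 * (2 ^ 64 * 2 ^ 130)) :=
          mul_le_mul_of_nonneg_right p8 (by norm_num)
      _ ≤ 2 ^ 210 := by norm_num
  have k1 : ∀ {N : Fin 9 → ℤ}, Bf (2 ^ D * 2 ^ 63) N → Bf (2 ^ 67) N := by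
    intro N hN
    refine hN.mono ?_
    calc (2 : ℤ) ^ D * 2 ^ 63 ≤ 2 ^ 4 * 2 ^ 63 := mul_le_mul_of_nonneg_right p2 (by norm_num)
      _ = 2 ^ 67 := by norm_num
  have hx := k1 (x2 u)
  have hy := k1 (y2 u)
  intro i
  have c1 := hV.c
  have c2 : (V.ca : ℤ) ≤ 4 := by
    have : V.ca ≤ 4 := by omega
    exact_mod_cast this
  have c3 : (V.cb : ℤ) ≤ 4 := by
    have : V.cb ≤ 4 := by omega
    exact_mod_cast this
  have c4 : (V.sg : ℤ) ≤ 128 := by exact_mod_cast hV.g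
  have c5 : ((V.ca + V.cb : ℕ) : ℤ) ≤ 4 := by exact_mod_cast c1
  have a1 : |(V.ca : ℤ)| ≤ 4 := by rw [Nat.abs_cast]; exact c2
  have a2 : |(V.cb : ℤ)| ≤ 4 := by rw [Nat.abs_cast]; exact c3
  have a3 : |((V.sg * 2 ^ 100 : ℕ) : ℤ)| ≤ 2 ^ 107 := by
    rw [Nat.abs_cast]
    push_cast
    calc (V.sg : ℤ) * 2 ^ 100 ≤ 128 * 2 ^ 100 := mul_le_mul_of_nonneg_right c4 (by norm_num)
      _ = 2 ^ 107 := by norm_num
  have a4 : |(((V.ca + V.cb) * 2 ^ D : ℕ) : ℤ)| ≤ 2 ^ 6 := by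
    rw [Nat.abs_cast]
    rw [Nat.cast_mul]
    push_cast at c5 ⊢
    calc ((V.ca : ℤ) + V.cb) * 2 ^ D ≤ 4 * 2 ^ 4 :=
          mul_le_mul c5 p2 (by positivity) (by norm_num)
      _ = 2 ^ 6 := by norm_num
  have b1 := abs_mul_le a1 (hx i)
  have b2 := abs_mul_le a2 (hy i)
  have b3 := abs_add_le ((V.ca : ℤ) * X u i) ((V.cb : ℤ) * Y u i)
  have b4 : |(V.ca : ℤ) * X u i + (V.cb : ℤ) * Y u i| ≤ 2 ^ 70 := by
    refine b3.trans ((add_le_add b1 b2).trans ?_)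
    norm_num
  have b5 := abs_mul_le a3 b4
  have b6 := abs_mul_le a4 (n1 i)
  refine (abs_add_le _ _).trans ((add_le_add b6 b5).trans ?_)
  norm_num

end

end Pool.Agent.Helper17.KPT
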