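import Pool.Agent.Helper17.CT.KPT6

/-!
Row KPT of MP_c75db0 (tails), part 7: the test of one source, averaged over the leaves.
-/

set_option autoImplicit false
set_option exponentiation.threshold 4000
noncomputable section
namespace Pool.Agent.Helper17.KPT

open Pool.Agent.Helper86.C75 (Z)
open Pool.Agent.Helper86.CX (Hm P9 VR MM NG md psub ev andB Cx toM u32 kf psd SE)
open Pool.Agent.Helper86.CT
open Pool.Agent.Helper90.C75 (Vt mulT avg wtT bt Wts sum_Vt_succ)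
open Pool.Agent.Helper90.KMO (zv cz)
open Pool.Agent.Helper90.KMT (mf0 nmf sgv KTab nlf lf0 c3 KMK PT)
open Pool.Agent.Helper17.PAK
open Pool.Agent.Helper21.KCE (Rp toM_rep)
open Complex ComplexConjugate

section

variable {α β p v γ : Type} {D : ℕ} {lC : α → Vt D → Cx} {lf : α → Vt D → ℂ}
  {mf : (ℕ → ℝ) → β → (ℕ → ℝ) → ℝ} {lp : p → Vt D → P9} {lv : v → Vt D → VR}
  {lg : γ → Vt D → ℕ} {Sp : p → List Bool → Prop} {Sv : v → List Bool → Prop}
  {Sg : γ → List Bool → Prop} {M : Mc α β p v γ}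

/-- the multiplier number `l` of the table, as an integer in units `2 ^ (-24)` -/
def lamI {β : Type} (mf : (ℕ → ℝ) → β → (ℕ → ℝ) → ℝ) (LT : β) (l : ℕ) (t : ℕ → ℝ) : ℝ :=
  mf (fun y => (u32 y (32 * l) : ℝ)) LT t

/-- the leaf sum of the product of a form and a run -/
def SN (D : ℕ) (t : ℕ → ℝ) (I : Vt D → Fin 9 → ℤ) (J : Vt D → Fin 9 → Fin 9 → ℤ)
    (w : Fin 3 → ℂ) : ℝ :=
  (avg (wtT D t) (fun u => ∑ k, mulT D (fun u => (I u k : ℂ)) (fun u => fz w (J u k)) u)).re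

/-- a table form from its entries -/
theorem ktab_sum (KT : β) (k : ℕ) (t : ℕ → ℝ) (w : Fin 3 → ℂ) :
    ∑ i, mf (fun y => (toF (kz (kf y k)) i : ℝ)) KT t * qz w i =
      2 ^ 20 * ev (KTab mf KT k t) w := by
  have key : ∀ j, (fun y => (((u32 (kf y k) j : ℤ) - 2 ^ 31 : ℤ) : ℝ)) = sgv k j := by
    intro j
    funext y
    unfold sgv
    push_cast
    norm_num
  have e0 : (fun y => (toF (kz (kf y k)) 0 : ℝ)) = sgv k 0 := key 0
  have e1 : (fun y => (toF (kz (kf y k)) 1 : ℝ)) = sgv k 32 := key 32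
  have e2 : (fun y => (toF (kz (kf y k)) 2 : ℝ)) = sgv k 64 := key 64
  have e3 : (fun y => (toF (kz (kf y k)) 3 : ℝ)) = sgv k 96 := key 96
  have e4 : (fun y => (toF (kz (kf y k)) 4 : ℝ)) = sgv k 128 := key 128
  have e5 : (fun y => (toF (kz (kf y k)) 5 : ℝ)) = sgv k 160 := key 160
  have e6 : (fun y => (toF (kz (kf y k)) 6 : ℝ)) = sgv k 192 := key 192
  have e7 : (fun y => (toF (kz (kf y k)) 7 : ℝ)) = sgv k 224 := key 224
  have e8 : (fun y => (toF (kz (kf y k)) 8 : ℝ)) = sgv k 256 := key 256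
  rw [sum9, e0, e1, e2, e3, e4, e5, e6, e7, e8, ev_qz]
  simp only [KTab]
  ring

theorem rz_sum {ι : Type} (s : Finset ι) (c : ι → ℝ) (w : Fin 3 → ℂ) (X : ι → Fin 9 → ℤ) :
    ∑ u ∈ s, c u * rz w (X u) = ∑ i, (∑ u ∈ s, c u * (X u i : ℝ)) * qz w i := by
  simp only [rz, Finset.mul_sum, Finset.sum_mul]
  rw [Finset.sum_comm]
  refine Finset.sum_congr rfl fun i _ => Finset.sum_congr rfl fun u _ => ?_
  ring

theorem rz_HI (w : Fin 3 → ℂ) (u v ca cb : ℕ) (N X Y : Fin 9 → ℤ) : rz w (HI u v ca cb N X Y) =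
    u * rz w N + v * (ca * rz w X + cb * rz w Y) := by
  simp only [rz, HI, Finset.mul_sum, ← Finset.sum_add_distrib]
  refine Finset.sum_congr rfl fun i _ => ?_
  push_cast
  ring

theorem NI_sum {J : Vt D → Fin 9 → Fin 9 → ℤ} {l : List Bool} (I : Vt D → Fin 9 → ℤ)
    (hf : FSh D l J) (t : ℕ → ℝ) (w : Fin 3 → ℂ) :
    ∑ u, wtT D t u * rz w (NI D l I J u) = 4 ^ cnt l * SN D t I J w := by
  have h1 : ((∑ u, wtT D t u * rz w (NI D l I J u) : ℝ) : ℂ) =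
      4 ^ cnt l * avg (wtT D t) (fun u => ∑ k, mulT D (fun u => (I u k : ℂ))
        (fun u => fz w (J u k)) u) := by
    unfold avg
    rw [Finset.mul_sum]
    push_cast
    refine Finset.sum_congr rfl fun u _ => ?_
    rw [← fz_rz, NI_val I hf w u]
    ring
  have h2 := congrArg Complex.re h1
  rw [Complex.ofReal_re] at h2
  rw [h2, SN]
  have e : (4 : ℂ) ^ cnt l = ((4 ^ cnt l : ℝ) : ℂ) := by push_cast; rfl
  rw [e, Complex.re_ofReal_mul]

/-- **THE TEST OF ONE SOURCE** (row KPT) -/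
theorem chS_sound (hM : MK D lC lf mf lp lv lg Sp Sv Sg M) {V : VO v}
    {J : Vt D → Fin 9 → Fin 9 → ℤ} {l : List Bool} (hV : VK D lv Sv V J l) {P : KM α}
    (hP : ∀ u, Bf (2 ^ 64) (PI lC P u)) {e : ℕ} (he : e ≤ 2 ^ 200) {KT LT : β} {x : SE}
    (h : chS M KT LT V e (M.B.mu (zipP M.Z P) V.V) x = true) {t : ℕ → ℝ} (ht : PT D t)
    (w : Fin 3 → ℂ) :
    V.sg * 2 ^ 120 * 2 ^ D * ((V.ca * lamI mf LT x.l t + V.cb * lamI mf LT (x.l + V.dl) t) *
      ev (KTab mf KT x.k t) w) + e * nrm w ≤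
      (V.ca + V.cb) * 2 ^ D * 4 ^ cnt l * SN D t (PI lC P) J w := by
  obtain ⟨X, Y, hX, hY, hL⟩ := chS_leaf hM hV hP he h
  have hw := ht.w
  have h0 : 0 ≤ ∑ u, wtT D t u * (rz w (HI ((V.ca + V.cb) * 2 ^ D) (V.sg * 2 ^ 100) V.ca V.cb
      (NI D l (PI lC P) J u) (X u) (Y u)) - e * nrm w) :=
    Finset.sum_nonneg fun u _ => mul_nonneg (hw.nonneg u) (hL w u)
  have e1 : ∀ u : Vt D, wtT D t u * (rz w (HI ((V.ca + V.cb) * 2 ^ D) (V.sg * 2 ^ 100) V.ca V.cb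
      (NI D l (PI lC P) J u) (X u) (Y u)) - e * nrm w) =
      ((V.ca + V.cb) * 2 ^ D) * (wtT D t u * rz w (NI D l (PI lC P) J u)) +
      (V.sg * 2 ^ 100 * V.ca) * (wtT D t u * rz w (X u)) +
      (V.sg * 2 ^ 100 * V.cb) * (wtT D t u * rz w (Y u)) - (e * nrm w) * wtT D t u := by
    intro u
    rw [rz_HI]
    push_cast
    ring
  rw [Finset.sum_congr rfl fun u _ => e1 u, Finset.sum_sub_distrib, Finset.sum_add_distrib,
    Finset.sum_add_distrib, ← Finset.mul_sum, ← Finset.mul_sum, ← Finset.mul_sum,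
    ← Finset.mul_sum, hw.sum, NI_sum (PI lC P) hV.f t w, rz_sum, rz_sum] at h0
  simp only [hX, hY] at h0
  have e2 : ∀ (a : ℝ), ∑ i, -(2 ^ D * (a * mf (fun y => (toF (kz (kf y x.k)) i : ℝ)) KT t)) *
      qz w i = -(2 ^ D * a * (2 ^ 20 * ev (KTab mf KT x.k t) w)) := by
    intro a
    rw [← ktab_sum, Finset.mul_sum, ← Finset.sum_neg_distrib]
    refine Finset.sum_congr rfl fun i _ => ?_
    ring
  rw [e2, e2] at h0
  have e3 : mf (fun y => (u32 y (Nat.mul 32 x.l) : ℝ)) LT t = lamI mf LT x.l t := rfl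
  have e4 : mf (fun y => (u32 y (Nat.mul 32 (Nat.add x.l V.dl)) : ℝ)) LT t =
      lamI mf LT (x.l + V.dl) t := rfl
  rw [e3, e4] at h0
  have e5 : (2 : ℝ) ^ 120 = 2 ^ 100 * 2 ^ 20 := by norm_num
  rw [e5]
  generalize (2 : ℝ) ^ 100 = a at h0 ⊢
  generalize (2 : ℝ) ^ 20 = b at h0 ⊢
  linarith

/-! ### bounds of the leaves -/

theorem mokT_bd {m : Mo α} (h : mokT m = true) : m.r + m.B ≤ 2 ^ 62 := by
  unfold mokT at h
  have := Nat.le_of_ble_eq_true h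
  exact this

theorem zv_bd (hM : MK D lC lf mf lp lv lg Sp Sv Sg M) {m : Mo α} (hb : ∀ u, ‖lf m.v u‖ ≤ m.B)
    (u : Vt D) : |zv (lC m.v u).re| ≤ m.B ∧ |zv (lC m.v u).im| ≤ m.B := by
  have h1 := hb u
  rw [← hM.cl] at h1
  have h2 := Complex.abs_re_le_norm (cz (lC m.v u))
  have h3 := Complex.abs_im_le_norm (cz (lC m.v u))
  have e1 : (cz (lC m.v u)).re = ((zv (lC m.v u).re : ℤ) : ℝ) := rfl
  have e2 : (cz (lC m.v u)).im = ((zv (lC m.v u).im : ℤ) : ℝ) := rfl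
  rw [e1] at h2
  rw [e2] at h3
  exact ⟨by exact_mod_cast h2.trans h1, by exact_mod_cast h3.trans h1⟩

/-- the leaves of a form whose sizes passed the test -/
theorem kmOK_bd (hM : MK D lC lf mf lp lv lg Sp Sv Sg M) {t : ℕ → ℝ} {K : Hm ℝ} {P : KM α}
    (hK : KMK D lf t K P) (h : kmOK P = true) (u : Vt D) : Bf (2 ^ 64) (PI lC P u) := by
  unfold kmOK at h
  simp only [andB_iff] at h
  obtain ⟨h1, h2, h3, h4, h5, h6⟩ := h
  have a1 := mokT_bd h1
  have a2 := mokT_bd h2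
  have a3 := mokT_bd h3
  have a4 := mokT_bd h4
  have a5 := mokT_bd h5
  have a6 := mokT_bd h6
  have b1 := (zv_bd hM hK.a.val.bd u).1
  have b2 := (zv_bd hM hK.b.val.bd u).1
  have b3 := (zv_bd hM hK.c.val.bd u).1
  have b4 := zv_bd hM hK.x.val.bd u
  have b5 := zv_bd hM hK.y.val.bd u
  have b6 := zv_bd hM hK.w.val.bd u
  have key : ∀ {x : ℤ} {B : ℕ}, |x| ≤ B → B ≤ 2 ^ 62 → |x| ≤ 2 ^ 64 := by
    intro x B hx hB
    have : (B : ℤ) ≤ 2 ^ 62 := by exact_mod_cast hB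
    linarith
  have key2 : ∀ {x : ℤ} {B r s t : ℕ}, |x| ≤ B → r + B ≤ 2 ^ 62 → s ≤ 2 ^ 62 → t ≤ 2 ^ 62 →
      |x - ((r + s + t : ℕ) : ℤ)| ≤ 2 ^ 64 := by
    intro x B r s t hx hB hs ht
    have h1 := abs_le.1 hx
    rw [abs_le]
    push_cast
    constructor <;> omega
  intro i
  fin_cases i
  · exact key2 b1 a1 (by omega) (by omega)
  · exact key2 b2 a2 (by omega) (by omega)
  · exact key2 b3 a3 (by omega) (by omega)
  · exact key b4.1 (by omega)
  · exact key b4.2 (by omega)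
  · exact key b5.1 (by omega)
  · exact key b5.2 (by omega)
  · exact key b6.1 (by omega)
  · exact key b6.2 (by omega)

end

end Pool.Agent.Helper17.KPT
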