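import Pool.Agent.Helper17.CT.KPT7

/-!
Row KPT of MP_c75db0 (tails), part 8: the machines of depth 1 to 4, the matrices of tail stars.
-/

set_option autoImplicit false
set_option exponentiation.threshold 4000
noncomputable section
namespace Pool.Agent.Helper17.KPT

open Pool.Agent.Helper86.C75 (Z)
open Pool.Agent.Helper86.CX (Hm P9 VR MM NG md psub ev andB Cx toM u32 kf psd SE)
open Pool.Agent.Helper86.CT
open Pool.Agent.Helper90.C75 (Vt mulT avg wtT bt Wts sum_Vt_succ)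
open Pool.Agent.Helper90.KMO (zv cz)
open Pool.Agent.Helper90.KMT (mf0 nmf sgv KTab nlf lf0 c3 KMK PT)
open Pool.Agent.Helper17.PAK
open Pool.Agent.Helper21.KCE (Rp toM_rep)
open Complex ComplexConjugate

/-! ### leaves and shapes of the depths 0 to 4 -/

def lz {X : Type} : X → Vt 0 → X := fun x _ => x
def l1 {X : Type} : N3 X → Vt 1 → X := lf3 lz
def l2 {X : Type} : N3 (N3 X) → Vt 2 → X := lf3 l1
def l3 {X : Type} : N3 (N3 (N3 X)) → Vt 3 → X := lf3 l2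
def l4 {X : Type} : N3 (N3 (N3 (N3 X))) → Vt 4 → X := lf3 l3
def s0 {X : Type} : X → List Bool → Prop := fun _ l => l = []
def s1 {X : Type} : N3 X → List Bool → Prop := sh3 s0
def s2 {X : Type} : N3 (N3 X) → List Bool → Prop := sh3 s1
def s3 {X : Type} : N3 (N3 (N3 X)) → List Bool → Prop := sh3 s2
def s4 {X : Type} : N3 (N3 (N3 (N3 X))) → List Bool → Prop := sh3 s3

theorem bl_0 : BL 0 lz lz lz Ra Rb Rc s0 s0 s0 mu1 B0 := bl1
theorem bl_1 : BL 1 l1 l1 l1 Ra Rb Rc s1 s1 s1 mu1 Pool.Agent.Helper86.CT.B1 := bl_0.step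
theorem bl_2 : BL 2 l2 l2 l2 Ra Rb Rc s2 s2 s2 mu1 Pool.Agent.Helper86.CT.B2 := bl_1.step
theorem bl_3 : BL 3 l3 l3 l3 Ra Rb Rc s3 s3 s3 mu1 Pool.Agent.Helper86.CT.B3 := bl_2.step
theorem bl_4 : BL 4 l4 l4 l4 Ra Rb Rc s4 s4 s4 mu1 Pool.Agent.Helper86.CT.B4 := bl_3.step

theorem zl_0 : ZL 0 lz lz s0 Z0 := ZL.zero
theorem zl_1 : ZL 1 l1 l1 s1 Z1 := zl_0.step
theorem zl_2 : ZL 2 l2 l2 s2 Z2 := zl_1.step
theorem zl_3 : ZL 3 l3 l3 s3 Z3 := zl_2.step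
theorem zl_4 : ZL 4 l4 l4 s4 Z4 := zl_3.step

theorem ad_1 {x y : N3 ℕ} {I J : Vt 1 → Fin 9 → ℤ} (hx : RT l1 Rc x I) (hy : RT l1 Rc y J) :
    RT l1 Rc (D1.ad x y) (fun v => I v + J v) := ad_step (fun h h' => ad_zero h h') hx hy
theorem ad_2 {x y : N3 (N3 ℕ)} {I J : Vt 2 → Fin 9 → ℤ} (hx : RT l2 Rc x I) (hy : RT l2 Rc y J) :
    RT l2 Rc (D2.ad x y) (fun v => I v + J v) := ad_step (fun h h' => ad_1 h h') hx hy
theorem ad_3 {x y : N3 (N3 (N3 ℕ))} {I J : Vt 3 → Fin 9 → ℤ} (hx : RT l3 Rc x I)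
    (hy : RT l3 Rc y J) :
    RT l3 Rc (D3.ad x y) (fun v => I v + J v) := ad_step (fun h h' => ad_2 h h') hx hy

theorem ll_0 : LL 0 mf0 lz L0 := LL.zero
theorem ll_1 : LL 1 (nmf 0 mf0) l1 L1 := ll_0.step (A := D0) (fun h h' => ad_zero h h')
theorem ll_2 : LL 2 (nmf 1 (nmf 0 mf0)) l2 L2 := ll_1.step (A := D1) (fun h h' => ad_1 h h')
theorem ll_3 : LL 3 (nmf 2 (nmf 1 (nmf 0 mf0))) l3 L3 :=
  ll_2.step (A := D2) (fun h h' => ad_2 h h')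
theorem ll_4 : LL 4 (nmf 3 (nmf 2 (nmf 1 (nmf 0 mf0)))) l4 L4 :=
  ll_3.step (A := D3) (fun h h' => ad_3 h h')

theorem ps_0 {u v w ca cb x y z : ℕ} (h : P0.t u v w ca cb x y z = true) (q : Vt 0) :
    ps0 u v w ca cb (lz x q) (lz y q) (lz z q) = true := by
  simpa only [P0, lz] using h
theorem ps_1 {u v w ca cb : ℕ} {x y z : N3 ℕ} (h : P1.t u v w ca cb x y z = true) (q : Vt 1) :
    ps0 u v w ca cb (l1 x q) (l1 y q) (l1 z q) = true := ps_step (fun h => ps_0 h) h q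
theorem ps_2 {u v w ca cb : ℕ} {x y z : N3 (N3 ℕ)} (h : P2.t u v w ca cb x y z = true)
    (q : Vt 2) : ps0 u v w ca cb (l2 x q) (l2 y q) (l2 z q) = true :=
  ps_step (fun h => ps_1 h) h q
theorem ps_3 {u v w ca cb : ℕ} {x y z : N3 (N3 (N3 ℕ))} (h : P3.t u v w ca cb x y z = true)
    (q : Vt 3) : ps0 u v w ca cb (l3 x q) (l3 y q) (l3 z q) = true :=
  ps_step (fun h => ps_2 h) h q
theorem ps_4 {u v w ca cb : ℕ} {x y z : N3 (N3 (N3 (N3 ℕ)))}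
    (h : P4.t u v w ca cb x y z = true) (q : Vt 4) :
    ps0 u v w ca cb (l4 x q) (l4 y q) (l4 z q) = true := ps_step (fun h => ps_3 h) h q

theorem cl_0 : CL 0 lz lf0 := CL.zero
theorem cl_1 : CL 1 l1 (nlf lf0) := cl_0.step
theorem cl_2 : CL 2 l2 (nlf (nlf lf0)) := cl_1.step
theorem cl_3 : CL 3 l3 (nlf (nlf (nlf lf0))) := cl_2.step
theorem cl_4 : CL 4 l4 (nlf (nlf (nlf (nlf lf0)))) := cl_3.step

/-! ### the machines -/

theorem K1_ok : MK 1 l1 (nlf lf0) (nmf 0 mf0) l1 l1 l1 s1 s1 s1 K1 :=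
  ⟨cl_1, zl_1, bl_1, ll_1, fun h q => ps_1 h q, rfl, by norm_num⟩
theorem K2_ok : MK 2 l2 (nlf (nlf lf0)) (nmf 1 (nmf 0 mf0)) l2 l2 l2 s2 s2 s2 K2 :=
  ⟨cl_2, zl_2, bl_2, ll_2, fun h q => ps_2 h q, rfl, by norm_num⟩
theorem K3_ok : MK 3 l3 (nlf (nlf (nlf lf0))) (nmf 2 (nmf 1 (nmf 0 mf0))) l3 l3 l3 s3 s3 s3 K3 :=
  ⟨cl_3, zl_3, bl_3, ll_3, fun h q => ps_3 h q, rfl, by norm_num⟩
theorem K4_ok : MK 4 l4 (nlf (nlf (nlf (nlf lf0)))) (nmf 3 (nmf 2 (nmf 1 (nmf 0 mf0)))) l4 l4 l4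
    s4 s4 s4 K4 :=
  ⟨cl_4, zl_4, bl_4, ll_4, fun h q => ps_4 h q, rfl, by norm_num⟩

/-! ### tests of reference vectors -/

theorem sv_0 {f : P9 → Bool} {x : P9} (h : S0.t f x = true) (v : Vt 0) : f (lz x v) = true := h
theorem sv_1 {f : P9 → Bool} {x : N3 P9} (h : S1.t f x = true) (v : Vt 1) :
    f (l1 x v) = true := sv_step (fun h => sv_0 h) h v
theorem sv_2 {f : P9 → Bool} {x : N3 (N3 P9)} (h : S2.t f x = true) (v : Vt 2) :
    f (l2 x v) = true := sv_step (fun h => sv_1 h) h v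
theorem sv_3 {f : P9 → Bool} {x : N3 (N3 (N3 P9))} (h : S3.t f x = true) (v : Vt 3) :
    f (l3 x v) = true := sv_step (fun h => sv_2 h) h v
theorem sv_4 {f : P9 → Bool} {x : N3 (N3 (N3 (N3 P9)))} (h : S4.t f x = true) (v : Vt 4) :
    f (l4 x v) = true := sv_step (fun h => sv_3 h) h v

/-! ### matrices of tail stars -/

/-- the real part of a leaf -/
def Rr (c : Cx) (n : ℤ) : Prop := zv c.re = n
def R2 (q : Q2) (p : ℤ × ℤ) : Prop := Rp q.a p.1 ∧ Rp q.b p.2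
def g5 (p q : ℤ × ℤ) : Fin 5 → ℤ := ![2 ^ 48, p.1, p.2, q.1, q.2]

/-- the laws of the trees of matrices -/
structure QS {α δ ε v : Type} (D : ℕ) (lC : α → Vt D → Cx) (ld : δ → Vt D → Q2)
    (le : ε → Vt D → Q4) (lv : v → Vt D → VR) (Sa : α → List Bool → Prop)
    (Sd : δ → List Bool → Prop) (Se : ε → List Bool → Prop) (Sv : v → List Bool → Prop)
    (F : F2 α α δ) (G : F2 δ δ ε) (B : Bil ε ε v) (H : F2 v v v) : Prop where
  f : ∀ {x y : α} {I J : Vt D → ℤ}, RT lC Rr x I → RT lC Rr y J →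
    RT ld R2 (F.f x y) (fun u => (I u, J u))
  fs : ∀ {x y : α} {l l' : List Bool}, Sa x l → Sa y l' → Sd (F.f x y) (or2 l l')
  g : ∀ {x y : δ} {I J : Vt D → ℤ × ℤ}, RT ld R2 x I → RT ld R2 y J →
    RT le Rq (G.f x y) (fun u => g5 (I u) (J u))
  gs : ∀ {x y : δ} {l l' : List Bool}, Sd x l → Sd y l' → Se (G.f x y) (or2 l l')
  b : BL D le le lv Rq Rq Rb Se Se Sv mu2 B
  h : ∀ {x y : v} {I J : Vt D → Fin 9 → Fin 9 → ℤ}, RT lv Rb x I → RT lv Rb y J →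
    RT lv Rb (H.f x y) (fun u => I u + J u)
  hs : ∀ {x y : v} {l l' : List Bool}, Sv x l → Sv y l' → Sv (H.f x y) (or2 l l')

theorem QS.zero : QS 0 lz lz lz lz s0 s0 s0 s0 F0 G0 B0q H0 := by
  refine ⟨?_, ?_, ?_, ?_, bl2, ?_, ?_⟩
  · intro x y I J hx hy u
    have h1 : zv x.re = I u := hx u
    have h2 : zv y.re = J u := hy u
    show Rp (toM x.re) (I u) ∧ Rp (toM y.re) (J u)
    rw [← h1, ← h2]
    exact ⟨toM_rep _, toM_rep _⟩
  · intro x y l l' hx hy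
    have h1 : l = [] := hx
    have h2 : l' = [] := hy
    subst h1 h2
    rfl
  · intro x y I J hx hy u
    obtain ⟨a1, a2⟩ := hx u
    obtain ⟨b1, b2⟩ := hy u
    exact ⟨Rp.nat (2 ^ 48), a1, a2, b1, b2⟩
  · intro x y l l' hx hy
    have h1 : l = [] := hx
    have h2 : l' = [] := hy
    subst h1 h2
    rfl
  · intro x y I J hx hy u
    exact vadd_rep (hx u) (hy u)
  · intro x y l l' hx hy
    have h1 : l = [] := hx
    have h2 : l' = [] := hy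
    subst h1 h2
    rfl

theorem QS.step {α δ ε v : Type} {D : ℕ} {lC : α → Vt D → Cx} {ld : δ → Vt D → Q2}
    {le : ε → Vt D → Q4} {lv : v → Vt D → VR} {Sa : α → List Bool → Prop}
    {Sd : δ → List Bool → Prop} {Se : ε → List Bool → Prop} {Sv : v → List Bool → Prop}
    {F : F2 α α δ} {G : F2 δ δ ε} {B : Bil ε ε v} {H : F2 v v v}
    (h : QS D lC ld le lv Sa Sd Se Sv F G B H) :
    QS (D + 1) (lf3 lC) (lf3 ld) (lf3 le) (lf3 lv) (sh3 Sa) (sh3 Sd) (sh3 Se) (sh3 Sv)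
      (nxF F) (nxF G) (nxB B) (nxF H) := by
  refine ⟨?_, ?_, ?_, ?_, h.b.step, ?_, ?_⟩
  · intro x y I J hx hy
    exact F2_step (g := fun a b => (a, b)) (fun h1 h2 => h.f h1 h2) hx hy
  · intro x y l l' hx hy
    exact F2_shape (fun h1 h2 => h.fs h1 h2) hx hy
  · intro x y I J hx hy
    exact F2_step (g := g5) (fun h1 h2 => h.g h1 h2) hx hy
  · intro x y l l' hx hy
    exact F2_shape (fun h1 h2 => h.gs h1 h2) hx hy
  · intro x y I J hx hy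
    exact F2_step (g := fun a b => a + b) (fun h1 h2 => h.h h1 h2) hx hy
  · intro x y l l' hx hy
    exact F2_shape (fun h1 h2 => h.hs h1 h2) hx hy

theorem qs_1 : QS 1 l1 l1 l1 l1 s1 s1 s1 s1 F1 G1 B1q H1 := QS.zero.step
theorem qs_2 : QS 2 l2 l2 l2 l2 s2 s2 s2 s2 F2' G2 B2q H2 := qs_1.step
theorem qs_3 : QS 3 l3 l3 l3 l3 s3 s3 s3 s3 F3 G3 B3q H3 := qs_2.step
theorem qs_4 : QS 4 l4 l4 l4 l4 s4 s4 s4 s4 F4 G4 B4q H4 := qs_3.step

/-- the integers of the leaves of a matrix of models -/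
def qI {α : Type} {D : ℕ} (lC : α → Vt D → Cx) (X : Qd α) (u : Vt D) : Fin 5 → ℤ :=
  ![2 ^ 48, zv (lC X.R.v u).re, zv (lC X.A.v u).re, zv (lC X.W.v u).re, zv (lC X.T.v u).re]

/-- the shapes of the four entries -/
structure QSh {α : Type} (Sa : α → List Bool → Prop) (X : Qd α) (l : List Bool) : Prop where
  ex : ∃ a b c d, Sa X.R.v a ∧ Sa X.A.v b ∧ Sa X.W.v c ∧ Sa X.T.v d ∧
    l = or2 (or2 a b) (or2 c d)

theorem mkV_ok {α δ ε v : Type} {D : ℕ} {lC : α → Vt D → Cx} {ld : δ → Vt D → Q2}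
    {le : ε → Vt D → Q4} {lv : v → Vt D → VR} {Sa : α → List Bool → Prop}
    {Sd : δ → List Bool → Prop} {Se : ε → List Bool → Prop} {Sv : v → List Bool → Prop}
    {F : F2 α α δ} {G : F2 δ δ ε} {B : Bil ε ε v} {H : F2 v v v}
    (h : QS D lC ld le lv Sa Sd Se Sv F G B H) {X Y : Qd α} {l l' : List Bool}
    (hX : QSh Sa X l) (hY : QSh Sa Y l') :
    RT lv Rb (mkV F G B X Y) (mulZ mu2 D (and2 l l') (qI lC X) (qI lC Y)) ∧
      Sv (mkV F G B X Y) (or2 l l') := by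
  obtain ⟨a, b, c, d, h1, h2, h3, h4, rfl⟩ := hX
  obtain ⟨a', b', c', d', h1', h2', h3', h4', rfl⟩ := hY
  have key : ∀ x : α, RT lC Rr x (fun u => zv (lC x u).re) := fun x u => rfl
  have sx := h.gs (h.fs h1 h2) (h.fs h3 h4)
  have sy := h.gs (h.fs h1' h2') (h.fs h3' h4')
  have rx := h.g (h.f (key X.R.v) (key X.A.v)) (h.f (key X.W.v) (key X.T.v))
  have ry := h.g (h.f (key Y.R.v) (key Y.A.v)) (h.f (key Y.W.v) (key Y.T.v))
  exact ⟨h.b.mu sx sy rx ry, h.b.mus sx sy⟩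

/-- the laws of the machine of matrices -/
structure MQ {α v : Type} (D : ℕ) (lC : α → Vt D → Cx) (lv : v → Vt D → VR)
    (Sa : α → List Bool → Prop) (Sv : v → List Bool → Prop) (M : Mq α v) : Prop where
  V : ∀ {X Y : Qd α} {l l' : List Bool}, QSh Sa X l → QSh Sa Y l' →
    RT lv Rb (M.V X Y) (mulZ mu2 D (and2 l l') (qI lC X) (qI lC Y)) ∧ Sv (M.V X Y) (or2 l l')
  a : ∀ {x y : v} {I J : Vt D → Fin 9 → Fin 9 → ℤ}, RT lv Rb x I → RT lv Rb y J →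
    RT lv Rb (M.a x y) (fun u => I u + J u)
  as : ∀ {x y : v} {l l' : List Bool}, Sv x l → Sv y l' → Sv (M.a x y) (or2 l l')

theorem Q1m_ok : MQ 1 l1 l1 s1 s1 Q1m :=
  ⟨fun h h' => mkV_ok qs_1 h h', fun h h' => qs_1.h h h', fun h h' => qs_1.hs h h'⟩
theorem Q2m_ok : MQ 2 l2 l2 s2 s2 Q2m :=
  ⟨fun h h' => mkV_ok qs_2 h h', fun h h' => qs_2.h h h', fun h h' => qs_2.hs h h'⟩
theorem Q3m_ok : MQ 3 l3 l3 s3 s3 Q3m :=
  ⟨fun h h' => mkV_ok qs_3 h h', fun h h' => qs_3.h h h', fun h h' => qs_3.hs h h'⟩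
theorem Q4m_ok : MQ 4 l4 l4 s4 s4 Q4m :=
  ⟨fun h h' => mkV_ok qs_4 h h', fun h h' => qs_4.h h h', fun h h' => qs_4.hs h h'⟩

end Pool.Agent.Helper17.KPT
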