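import Pool.Agent.Helper17.CT.KPT8
import Pool.Agent.Helper17.C75.Kp9
import Pool.Agent.Helper90.CX.KCT4

/-!
Row KPT of MP_c75db0 (tails), part 9: the lists of a program, reference vectors.
-/

set_option autoImplicit false
set_option exponentiation.threshold 4000
noncomputable section
namespace Pool.Agent.Helper17.KPT

open Pool.Agent.Helper86.C75 (Z)
open Pool.Agent.Helper86.CX (Hm P9 VR MM NG md psub ev andB Cx toM u32 kf psd SE mkH tst tsl stv)
open Pool.Agent.Helper86.CT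
open Pool.Agent.Helper90.C75 (Vt mulT avg wtT bt Wts sum_Vt_succ)
open Pool.Agent.Helper90.KMO (zv cz UU UU_pos)
open Pool.Agent.Helper90.KMT (mf0 nmf sgv KTab nlf lf0 c3 KMK PT mkIF Ph low_ok)
open Pool.Agent.Helper17.PAK
open Pool.Agent.Helper21.KCE (Rp toM_rep)
open Complex ComplexConjugate

section

variable {α β p v γ : Type} {D : ℕ} {lC : α → Vt D → Cx} {lf : α → Vt D → ℂ}
  {mf : (ℕ → ℝ) → β → (ℕ → ℝ) → ℝ} {lp : p → Vt D → P9} {lv : v → Vt D → VR}
  {lg : γ → Vt D → ℕ} {Sp : p → List Bool → Prop} {Sv : v → List Bool → Prop}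
  {Sg : γ → List Bool → Prop} {M : Mc α β p v γ}

/-! ### lists -/

theorem chB1_mem {KT LT : β} {V : VO v} {e : ℕ} {N : γ} {s : List SE}
    (h : chB1 M KT LT V e N s = true) : ∀ x ∈ s, chS M KT LT V e N x = true := by
  induction s with
  | nil => intro x hx; cases hx
  | cons y s ih =>
    have h' : andB (chS M KT LT V e N y) (chB1 M KT LT V e N s) = true := h
    rw [andB_iff] at h'
    intro x hx
    rcases List.mem_cons.1 hx with rfl | hx
    · exact h'.1
    · exact ih h'.2 x hx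

/-- the error of a run -/
def eB (M : Mc α β p v γ) (P : KM α) (V : VO v) : ℕ :=
  Nat.add (Nat.mul (nat_lit 3) (Nat.mul (Nat.mul (Nat.mul (Nat.add V.ca V.cb) M.s) V.sg) (eN P V)))
    (nat_lit 1)

theorem eB_eq (hM : MK D lC lf mf lp lv lg Sp Sv Sg M) (P : KM α) (V : VO v) :
    ((eB M P V : ℕ) : ℝ) = 3 * ((V.ca + V.cb) * 2 ^ D * V.sg * (eN P V : ℕ)) + 1 := by
  have h : eB M P V = 3 * ((V.ca + V.cb) * M.s * V.sg * eN P V) + 1 := rfl
  rw [h, hM.s]
  push_cast
  ring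

theorem chP1_mem {KT LT : β} {b : List (BT v)} {P : KM α} {Q : p}
    (h : chP1 M KT LT b P Q = true) : ∀ B ∈ b, eB M P B.V ≤ 2 ^ 200 ∧
      ∀ y ∈ B.s, chS M KT LT B.V (eB M P B.V) (M.B.mu Q B.V.V) y = true := by
  induction b with
  | nil => intro x hx; cases hx
  | cons y b ih =>
    have h' : andB (chB2 M KT LT y.V (eB M P y.V) (M.B.mu Q y.V.V) y.s)
      (chP1 M KT LT b P Q) = true := h
    rw [andB_iff] at h'
    intro x hx
    rcases List.mem_cons.1 hx with rfl | hx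
    · have h2 : andB (Nat.ble (eB M P x.V)
          (nat_lit 1606938044258990275541962092341162602522202993782792835301376))
          (chB1 M KT LT x.V (eB M P x.V) (M.B.mu Q x.V.V) x.s) = true := h'.1
      rw [andB_iff] at h2
      exact ⟨Nat.le_of_ble_eq_true h2.1, chB1_mem h2.2⟩
    · exact ih h'.2 x hx

/-- a target form, its runs and its sources -/
theorem chP_mem {KT LT : β} {b : List (BT v)} {P : KM α} (h : chP M KT LT b P = true) :
    kmOK P = true ∧ ∀ B ∈ b, eB M P B.V ≤ 2 ^ 200 ∧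
      ∀ y ∈ B.s, chS M KT LT B.V (eB M P B.V) (M.B.mu (zipP M.Z P) B.V.V) y = true := by
  have h' : andB (kmOK P) (chP1 M KT LT b P (zipP M.Z P)) = true := h
  rw [andB_iff] at h'
  exact ⟨h'.1, chP1_mem h'.2⟩

theorem chE_mem {KT LT : β} {C : CE α} {l : List (PT v)} (h : chE M KT LT C l = true) :
    ∀ x ∈ l, chP M KT LT x.b (PE M.A C (mkKM M.A M.U M.w KT x.k)) = true := by
  induction l with
  | nil => intro x hx; cases hx
  | cons y l ih =>
    have h' : andB (chP M KT LT y.b (PE M.A C (mkKM M.A M.U M.w KT y.k))) (chE M KT LT C l) =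
      true := h
    rw [andB_iff] at h'
    intro x hx
    rcases List.mem_cons.1 hx with rfl | hx
    · exact h'.1
    · exact ih h'.2 x hx

theorem chO_mem {KT LT : β} {C : CO α} {l : List (PT v)} (h : chO M KT LT C l = true) :
    ∀ x ∈ l, chP M KT LT x.b (PO M.A C (mkKM M.A M.U M.w KT x.k)) = true := by
  induction l with
  | nil => intro x hx; cases hx
  | cons y l ih =>
    have h' : andB (chP M KT LT y.b (PO M.A C (mkKM M.A M.U M.w KT y.k))) (chO M KT LT C l) =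
      true := h
    rw [andB_iff] at h'
    intro x hx
    rcases List.mem_cons.1 hx with rfl | hx
    · exact h'.1
    · exact ih h'.2 x hx

theorem chR_mem {S : Pool.Agent.Helper86.CT.Sv p} {f : P9 → Bool} {KT : β} {C : CE α} {l : List ℕ}
    (h : chR M S f KT C l = true) : ∀ k ∈ l, kmOK (PE M.A C (mkKM M.A M.U M.w KT k)) = true ∧
      S.t f (zipP M.Z (PE M.A C (mkKM M.A M.U M.w KT k))) = true := by
  induction l with
  | nil => intro x hx; cases hx
  | cons y l ih =>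
    have h' : andB (andB (kmOK (PE M.A C (mkKM M.A M.U M.w KT y)))
      (S.t f (zipP M.Z (PE M.A C (mkKM M.A M.U M.w KT y))))) (chR M S f KT C l) = true := h
    rw [andB_iff, andB_iff] at h'
    intro x hx
    rcases List.mem_cons.1 hx with rfl | hx
    · exact h'.1
    · exact ih h'.2 x hx

/-- **one source of a program** -/
theorem src_sound (hM : MK D lC lf mf lp lv lg Sp Sv Sg M) {t : ℕ → ℝ} (ht : PT D t) {K : Hm ℝ}
    {P : KM α} (hK : KMK D lf t K P) {KT LT : β} {b : List (BT v)}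
    (h : chP M KT LT b P = true) {B : BT v} (hB : B ∈ b) {J : Vt D → Fin 9 → Fin 9 → ℤ}
    {l : List Bool} (hV : VK D lv Sv B.V J l) {y : SE} (hy : y ∈ B.s) (w : Fin 3 → ℂ) :
    B.V.sg * 2 ^ 120 * 2 ^ D * ((B.V.ca * lamI mf LT y.l t + B.V.cb * lamI mf LT (y.l + B.V.dl) t) *
      ev (KTab mf KT y.k t) w) +
      (3 * ((B.V.ca + B.V.cb) * 2 ^ D * B.V.sg * (eN P B.V : ℕ)) + 1) * nrm w ≤
      (B.V.ca + B.V.cb) * 2 ^ D * 4 ^ cnt l * SN D t (PI lC P) J w := by
  obtain ⟨h1, h2⟩ := chP_mem h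
  obtain ⟨h3, h4⟩ := h2 B hB
  have h5 := chS_sound hM hV (kmOK_bd hM hK h1) h3 (h4 y hy) ht w
  rw [eB_eq hM] at h5
  exact h5

/-! ### reference vectors -/

theorem re_lf (hM : MK D lC lf mf lp lv lg Sp Sv Sg M) (x : α) (u : Vt D) :
    (lf x u).re = (zv (lC x u).re : ℝ) ∧ (lf x u).im = (zv (lC x u).im : ℝ) := by
  rw [← hM.cl]
  exact ⟨rfl, rfl⟩

theorem avg_re {ι : Type} [Fintype ι] (w : ι → ℝ) (f : ι → ℂ) :
    (avg w f).re = ∑ u, w u * (f u).re ∧ (avg w f).im = ∑ u, w u * (f u).im := by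
  unfold avg
  constructor
  · rw [Complex.re_sum]
    exact Finset.sum_congr rfl fun u _ => Complex.re_ofReal_mul _ _
  · rw [Complex.im_sum]
    exact Finset.sum_congr rfl fun u _ => Complex.im_ofReal_mul _ _

/-- the averaged lowered form -/
theorem Ph_rz (hM : MK D lC lf mf lp lv lg Sp Sv Sg M) (P : KM α) (t : ℕ → ℝ) (w : Fin 3 → ℂ) :
    ev (Ph D t (mkIF lf P)) w = ∑ u, wtT D t u * rz w (PI lC P u) := by
  have h := fun x u => re_lf hM x u
  rw [rz_sum, sum9, ev_qz]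
  simp only [Ph, mkH, avg_re, mkIF, h, Complex.ofReal_re]
  simp only [PI, pI, Matrix.cons_val_zero, Matrix.cons_val_one, Matrix.cons_val]
  push_cast
  rfl

/-- **a reference vector** -/
theorem ref_sound (hM : MK D lC lf mf lp lv lg Sp Sv Sg M) {S : Pool.Agent.Helper86.CT.Sv p}
    (hS : ∀ {f : P9 → Bool} {x : p}, S.t f x = true → ∀ u, f (lp x u) = true) {t : ℕ → ℝ}
    (ht : PT D t) {K : Hm ℝ} {P : KM α} (hK : KMK D lf t K P) (h : kmOK P = true)
    {f : P9 → Bool} (hf : S.t f (zipP M.Z P) = true) {w : Fin 3 → ℂ}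
    (hw : ∀ {X : P9} {Q : Hm ℤ}, EncP X Q → Bd (2 ^ 2200) Q → f X = true → 0 < ev (sc 1 Q) w) :
    0 < ev K w := by
  have h1 : ∀ u, 0 < rz w (PI lC P u) := by
    intro u
    have e1 : EncP (lp (zipP M.Z P) u) (toH (PI lC P u)) := zipP_rt hM P u
    have b1 : Bd (2 ^ 2200) (toH (PI lC P u)) := (kmOK_bd hM hK h u).bd.mono (by norm_num)
    have e2 := hw e1 b1 (hS hf u)
    have e3 := fz_ev w (PI lC P u)
    rw [fz_rz] at e3
    have e4 : rz w (PI lC P u) = ev (sc 1 (toH (PI lC P u))) w := by exact_mod_cast e3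
    rw [e4]
    exact e2
  have h2 := low_ok ht hK w
  rw [Ph_rz hM] at h2
  have hwt := ht.w
  have h3 : 0 < ∑ u, wtT D t u * rz w (PI lC P u) := by
    have h4 : ∃ u ∈ Finset.univ, 0 < wtT D t u := by
      by_contra hc
      push Not at hc
      have h5 : ∑ u, wtT D t u ≤ 0 := Finset.sum_nonpos hc
      rw [hwt.sum] at h5
      linarith
    obtain ⟨u, hu, hp⟩ := h4
    refine Finset.sum_pos' (fun u _ => mul_nonneg (hwt.nonneg u) (h1 u).le) ⟨u, hu, ?_⟩
    exact mul_pos hp (h1 u)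
  have hU := UU_pos
  by_contra hc
  have h6 : UU * ev K w ≤ 0 := mul_nonpos_of_nonneg_of_nonpos hU.le (not_lt.1 hc)
  linarith

/-- the test `tst` -/
theorem tst_sound (hM : MK D lC lf mf lp lv lg Sp Sv Sg M) {S : Pool.Agent.Helper86.CT.Sv p}
    (hS : ∀ {f : P9 → Bool} {x : p}, S.t f x = true → ∀ u, f (lp x u) = true) {t : ℕ → ℝ}
    (ht : PT D t) {K : Hm ℝ} {P : KM α} (hK : KMK D lf t K P) (h : kmOK P = true)
    (hf : S.t tst (zipP M.Z P) = true) :
    0 < ev K (vpq 192 640) ∧ 0 < ev K (vpq 197 640) ∧ 0 < ev K (vpq 192 645) :=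
  ⟨ref_sound hM hS ht hK h hf fun h1 h2 h3 => (tst_ev h1 h2 h3 one_pos).1,
    ref_sound hM hS ht hK h hf fun h1 h2 h3 => (tst_ev h1 h2 h3 one_pos).2.1,
    ref_sound hM hS ht hK h hf fun h1 h2 h3 => (tst_ev h1 h2 h3 one_pos).2.2⟩

/-- the test `tsl` -/
theorem tsl_sound (hM : MK D lC lf mf lp lv lg Sp Sv Sg M) {S : Pool.Agent.Helper86.CT.Sv p}
    (hS : ∀ {f : P9 → Bool} {x : p}, S.t f x = true → ∀ u, f (lp x u) = true) {t : ℕ → ℝ}
    (ht : PT D t) {K : Hm ℝ} {P : KM α} (hK : KMK D lf t K P) (h : kmOK P = true)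
    (hf : S.t tsl (zipP M.Z P) = true) : 0 < ev K ![1, 1, 1] := by
  rw [← vpq_640]
  refine ref_sound hM hS ht hK h hf fun h1 h2 h3 => ?_
  exact stv_ev h1 h2 (p := 640) (q := 640) (by norm_num) (by norm_num) h3 one_pos

end

end Pool.Agent.Helper17.KPT
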