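import Pool.Agent.Helper96.CT.Stmts2

/-! Row SB: stars. -/

set_option autoImplicit false

namespace Pool.Agent.Helper17.CT

open SimpleGraph

theorem sb_tri {W : Type} {T : SimpleGraph W} (hT : T.IsAcyclic) {a b c : W} (h1 : T.Adj a b)
    (h2 : T.Adj b c) (h3 : T.Adj a c) : False := by
  have p1 : (Walk.cons h3 Walk.nil).IsPath := by
    rw [Walk.cons_isPath_iff]
    exact ⟨Walk.IsPath.nil, by simpa using h3.ne⟩
  have p2 : (Walk.cons h1 (Walk.cons h2 Walk.nil)).IsPath := by
    rw [Walk.cons_isPath_iff, Walk.cons_isPath_iff]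
    refine ⟨⟨Walk.IsPath.nil, by simpa using h2.ne⟩, ?_⟩
    simp only [Walk.support_cons, Walk.support_nil, List.mem_cons, List.not_mem_nil, or_false,
      not_or]
    exact ⟨h1.ne, h3.ne⟩
  have h := congrArg (fun p : T.Path a c => p.1.length) (hT.path_unique ⟨_, p1⟩ ⟨_, p2⟩)
  simp at h

theorem st_SB : Pool.Agent.Helper96.CT.ST_SB := by
  classical
  intro W V _ T F c hT hc v I hI hcard
  have hac : T.IsAcyclic := hT.isAcyclic
  have hadj : ∀ u w, T.Adj u w → u = c ∨ w = c := by
    intro u w huw
    by_contra hcon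
    rw [not_or] at hcon
    exact sb_tri hac (hc u hcon.1) huw (hc w hcon.2)
  have hle : Fintype.card {w : W // w ≠ c} ≤ Fintype.card I := by
    rw [Fintype.card_coe]
    refine le_trans (le_of_eq ?_) hcard
    rw [Fintype.card_subtype_compl, Fintype.card_subtype_eq]
  obtain ⟨f⟩ := Function.Embedding.nonempty_of_card_le hle
  have hfv : ∀ w, (f w : V) ≠ v := fun w => (hI _ (f w).2).ne'
  obtain ⟨g, hg⟩ : ∃ g : W → V, g = fun w => if h : w ≠ c then (f ⟨w, h⟩ : V) else v := ⟨_, rfl⟩
  have g1 : ∀ w (h : w ≠ c), g w = (f ⟨w, h⟩ : V) := fun w h => by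
    rw [hg]
    exact dif_pos h
  have g2 : g c = v := by
    rw [hg]
    exact dif_neg (fun h => h rfl)
  have hinj : Function.Injective g := by
    intro a b hab
    by_cases ha : a = c
    · subst ha
      by_contra hb
      rw [g2, g1 b (fun h => hb h.symm)] at hab
      exact hfv _ hab.symm
    · by_cases hb : b = c
      · subst hb
        rw [g2, g1 a ha] at hab
        exact absurd hab (hfv _)
      · rw [g1 a ha, g1 b hb] at hab
        have := f.injective (Subtype.ext hab)
        exact congrArg Subtype.val this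
  have hhom : ∀ a b, T.Adj a b → F.Adj (g a) (g b) := by
    intro a b hab
    rcases hadj a b hab with h | h
    · subst h
      rw [g2, g1 b hab.ne']
      exact hI _ (f _).2
    · subst h
      rw [g2, g1 a hab.ne]
      exact (hI _ (f _).2).symm
  exact ⟨⟨⟨g, fun {a b} hab => hhom a b hab⟩, hinj⟩⟩

end Pool.Agent.Helper17.CT
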